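import Mathlib

set_option autoImplicit false

/-!
# Subsets of an infinite countable linear order

Every infinite countable linear order `Θ` has a continuous family of subsets, indexed by the Cantor
space, such that no automorphism of `Θ` maps one member of the family to another.
-/

namespace Pool.Agent.H12A.OM

open Set

/-- The family. -/
def RigidFam (Θ : Type) [LinearOrder Θ] : Prop :=
  ∃ Y : (ℕ → Bool) → Θ → Bool, (∀ θ, Continuous fun c => Y c θ) ∧
    ∀ c d, (∃ φ : Θ ≃o Θ, ∀ θ, Y d (φ θ) = Y c θ) → c = d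

theorem rigid_ray {Θ : Type} [LinearOrder Θ] (s : ℕ → Θ) (hs : ∀ n, s n ⋖ s (n + 1)) :
    RigidFam Θ := by
  classical
  have hmono : StrictMono s := strictMono_nat_of_lt_succ fun n => (hs n).lt
  set P : (ℕ → Bool) → ℕ → Prop := fun c n => n = 0 ∨ (∃ k, n = 2 * k + 1 ∧ c k = false) ∨
    ∃ k, n = 2 * k + 2 ∧ c k = true with hP
  refine ⟨fun c θ => decide (∃ n, s n = θ ∧ P c n), fun θ => ?_, ?_⟩
  · by_cases hθ : ∃ n, s n = θ
    · obtain ⟨n, rfl⟩ := hθ
      have h1 : (fun c : ℕ → Bool => decide (∃ m, s m = s n ∧ P c m)) =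
          fun c => decide (P c n) := by
        funext c
        refine decide_eq_decide.2 ⟨?_, fun h => ⟨n, rfl, h⟩⟩
        rintro ⟨m, hm, h⟩
        rwa [← hmono.injective hm]
      rw [h1]
      rcases Nat.eq_zero_or_pos n with rfl | hn
      · have : (fun c : ℕ → Bool => decide (P c 0)) = fun _ => true := by
          funext c; simp [hP]
        rw [this]; exact continuous_const
      · rcases Nat.even_or_odd' (n - 1) with ⟨k, hk | hk⟩
        · have hn' : n = 2 * k + 1 := by omega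
          have : (fun c : ℕ → Bool => decide (P c n)) = fun c => !(c k) := by
            funext c
            rw [Bool.eq_iff_iff, decide_eq_true_iff]
            simp only [hP, Bool.not_eq_true']
            constructor
            · rintro (h | ⟨j, h, h'⟩ | ⟨j, h, h'⟩)
              · omega
              · have : j = k := by omega
                rwa [← this]
              · omega
            · intro h
              exact Or.inr (Or.inl ⟨k, hn', h⟩)
          rw [this]
          exact (continuous_of_discreteTopology (f := fun b : Bool => !b)).comp (continuous_apply k)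
        · have hn' : n = 2 * k + 2 := by omega
          have : (fun c : ℕ → Bool => decide (P c n)) = fun c => c k := by
            funext c
            rw [Bool.eq_iff_iff, decide_eq_true_iff]
            simp only [hP]
            constructor
            · rintro (h | ⟨j, h, h'⟩ | ⟨j, h, h'⟩)
              · omega
              · omega
              · have : j = k := by omega
                rwa [← this]
            · intro h
              exact Or.inr (Or.inr ⟨k, hn', h⟩)
          rw [this]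
          exact continuous_apply k
    · have : (fun c : ℕ → Bool => decide (∃ n, s n = θ ∧ P c n)) = fun _ => false := by
        funext c
        rw [decide_eq_false_iff_not]
        rintro ⟨n, hn, -⟩
        exact hθ ⟨n, hn⟩
      rw [this]; exact continuous_const
  · rintro c d ⟨φ, hφ⟩
    have hφ' : ∀ θ, (∃ n, s n = φ θ ∧ P d n) ↔ ∃ n, s n = θ ∧ P c n := by
      intro θ
      have := hφ θ
      rwa [decide_eq_decide] at this
    have h0 : φ (s 0) = s 0 := by
      obtain ⟨n, hn, -⟩ := (hφ' (s 0)).2 ⟨0, rfl, Or.inl rfl⟩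
      obtain ⟨m, hm, -⟩ := (hφ' (φ.symm (s 0))).1 ⟨0, by simp, Or.inl rfl⟩
      have h1 : s 0 ≤ φ (s 0) := by rw [← hn]; exact hmono.monotone (Nat.zero_le n)
      have h2 : s 0 ≤ φ.symm (s 0) := by rw [← hm]; exact hmono.monotone (Nat.zero_le m)
      have h3 : φ (s 0) ≤ s 0 := by
        have := φ.monotone h2
        simpa using this
      exact le_antisymm h3 h1
    have hall : ∀ n, φ (s n) = s n := by
      intro n
      induction n with
      | zero => exact h0
      | succ n ih =>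
        have h1 : φ (s n) ⋖ φ (s (n + 1)) := (apply_covBy_apply_iff φ).2 (hs n)
        rw [ih] at h1
        exact h1.unique_right (hs n)
    funext k
    have h1 := hφ' (s (2 * k + 1))
    rw [hall] at h1
    have h2 : ∀ e : ℕ → Bool, (∃ n, s n = s (2 * k + 1) ∧ P e n) ↔ e k = false := by
      intro e
      constructor
      · rintro ⟨n, hn, h⟩
        have hn' := hmono.injective hn
        rcases h with h | ⟨j, h, h'⟩ | ⟨j, h, h'⟩
        · omega
        · have : j = k := by omega
          rwa [← this]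
        · omega
      · intro h
        exact ⟨_, rfl, Or.inr (Or.inl ⟨k, rfl, h⟩)⟩
    rw [h2, h2] at h1
    cases hc : c k <;> cases hd : d k <;> simp_all

theorem RigidFam.dual {Θ : Type} [LinearOrder Θ] (h : RigidFam (OrderDual Θ)) : RigidFam Θ := by
  obtain ⟨Y, hY1, hY2⟩ := h
  refine ⟨fun c θ => Y c (OrderDual.toDual θ), fun θ => hY1 _, ?_⟩
  rintro c d ⟨φ, hφ⟩
  exact hY2 c d ⟨φ.dual, fun θ => hφ (OrderDual.ofDual θ)⟩

/-- The dense case. -/
theorem rigid_rat {Θ : Type} [LinearOrder Θ] (f : ℚ ↪o Θ) : RigidFam Θ := by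
  classical
  set W : (ℕ → Bool) → ℚ → Prop := fun c q => (∃ n : ℕ, q = n) ∨
    ∃ j : ℕ, c j = false ∧ (2 * j + 1 : ℚ) < q ∧ q < 2 * j + 2 with hW
  have hnat : ∀ c (n : ℕ), W c n := fun c n => Or.inl ⟨n, rfl⟩
  -- neighbours
  have hgap : ∀ c (j : ℕ) (q : ℚ), (2 * j : ℚ) < q → q < 2 * j + 1 → ¬ W c q := by
    rintro c j q h1 h2 (⟨n, rfl⟩ | ⟨i, -, h3, h4⟩)
    · have h1' : 2 * j < n := by exact_mod_cast h1
      have h2' : n < 2 * j + 1 := by exact_mod_cast h2
      omega
    · have h5 : (2 * i + 1 : ℚ) < 2 * j + 1 := h3.trans h2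
      have h6 : (2 * j : ℚ) < 2 * i + 2 := h1.trans h4
      have h5' : 2 * i + 1 < 2 * j + 1 := by exact_mod_cast h5
      have h6' : 2 * j < 2 * i + 2 := by exact_mod_cast h6
      omega
  have hgap2 : ∀ c (j : ℕ) (q : ℚ), (2 * j + 1 : ℚ) < q → q < 2 * j + 2 →
      (W c q ↔ c j = false) := by
    intro c j q h1 h2
    constructor
    · rintro (⟨n, rfl⟩ | ⟨i, h, h3, h4⟩)
      · have h1' : 2 * j + 1 < n := by exact_mod_cast h1
        have h2' : n < 2 * j + 2 := by exact_mod_cast h2
        omega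
      · have h5 : (2 * i + 1 : ℚ) < 2 * j + 2 := h3.trans h2
        have h6 : (2 * j + 1 : ℚ) < 2 * i + 2 := h1.trans h4
        have h5' : 2 * i + 1 < 2 * j + 2 := by exact_mod_cast h5
        have h6' : 2 * j + 1 < 2 * i + 2 := by exact_mod_cast h6
        have : i = j := by omega
        rwa [← this]
    · intro h
      exact Or.inr ⟨j, h, h1, h2⟩
  -- the special points are the natural numbers
  have hspec : ∀ c q, W c q → ((∃ r, W c r ∧ r ≠ q ∧ ∀ t, W c t → ¬ (min r q < t ∧ t < max r q))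
      ↔ ∃ n : ℕ, q = n) := by
    intro c q hq
    constructor
    · rintro ⟨r, hr, hne, hn⟩
      rcases hq with h | ⟨j, hj, h1, h2⟩
      · exact h
      exfalso
      rcases lt_or_gt_of_ne hne with h | h
      · -- r < q
        have : max r (2 * j + 1) < q := max_lt h h1
        obtain ⟨t, ht1, ht2⟩ := exists_between this
        refine hn t (Or.inr ⟨j, hj, (le_max_right _ _).trans_lt ht1, ht2.trans h2⟩) ?_
        rw [min_eq_left h.le, max_eq_right h.le]
        exact ⟨(le_max_left _ _).trans_lt ht1, ht2⟩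
      · have : q < min r (2 * j + 2) := lt_min h h2
        obtain ⟨t, ht1, ht2⟩ := exists_between this
        refine hn t (Or.inr ⟨j, hj, h1.trans ht1, ht2.trans_le (min_le_right _ _)⟩) ?_
        rw [min_eq_right h.le, max_eq_left h.le]
        exact ⟨ht1, ht2.trans_le (min_le_left _ _)⟩
    · rintro ⟨n, rfl⟩
      rcases Nat.even_or_odd' n with ⟨k, rfl | rfl⟩
      · refine ⟨((2 * k + 1 : ℕ) : ℚ), hnat _ _, ?_, ?_⟩
        · intro h
          have : 2 * k + 1 = 2 * k := by exact_mod_cast h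
          omega
        · rintro t ht ⟨h1, h2⟩
          refine hgap c k t ?_ ?_ ht
          · have h3 : ((2 * k : ℕ) : ℚ) ≤ ((2 * k + 1 : ℕ) : ℚ) := by exact_mod_cast (by omega)
            rw [min_eq_right h3] at h1
            push_cast at h1; exact h1
          · have h3 : ((2 * k : ℕ) : ℚ) ≤ ((2 * k + 1 : ℕ) : ℚ) := by exact_mod_cast (by omega)
            rw [max_eq_left h3] at h2
            push_cast at h2; exact h2
      · refine ⟨((2 * k : ℕ) : ℚ), hnat _ _, ?_, ?_⟩
        · intro h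
          have : 2 * k = 2 * k + 1 := by exact_mod_cast h
          omega
        · rintro t ht ⟨h1, h2⟩
          refine hgap c k t ?_ ?_ ht
          · have h3 : ((2 * k : ℕ) : ℚ) ≤ ((2 * k + 1 : ℕ) : ℚ) := by exact_mod_cast (by omega)
            rw [min_eq_left h3] at h1
            push_cast at h1; exact h1
          · have h3 : ((2 * k : ℕ) : ℚ) ≤ ((2 * k + 1 : ℕ) : ℚ) := by exact_mod_cast (by omega)
            rw [max_eq_right h3] at h2
            push_cast at h2; exact h2
  refine ⟨fun c θ => decide (∃ q, f q = θ ∧ W c q), fun θ => ?_, ?_⟩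
  · by_cases hθ : ∃ q, f q = θ
    · obtain ⟨q, rfl⟩ := hθ
      have h1 : (fun c : ℕ → Bool => decide (∃ r, f r = f q ∧ W c r)) =
          fun c => decide (W c q) := by
        funext c
        refine decide_eq_decide.2 ⟨?_, fun h => ⟨q, rfl, h⟩⟩
        rintro ⟨m, hm, h⟩
        rwa [← f.injective hm]
      rw [h1]
      by_cases hj : ∃ j : ℕ, (2 * j + 1 : ℚ) < q ∧ q < 2 * j + 2
      · obtain ⟨j, h2, h3⟩ := hj
        have : (fun c : ℕ → Bool => decide (W c q)) = fun c => !(c j) := by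
          funext c
          rw [Bool.eq_iff_iff, decide_eq_true_iff, hgap2 c j q h2 h3]
          simp
        rw [this]
        exact (continuous_of_discreteTopology (f := fun b : Bool => !b)).comp (continuous_apply j)
      · have : (fun c : ℕ → Bool => decide (W c q)) = fun _ => decide (∃ n : ℕ, q = n) := by
          funext c
          refine decide_eq_decide.2 ⟨?_, Or.inl⟩
          rintro (h | ⟨j, -, h2, h3⟩)
          · exact h
          · exact absurd ⟨j, h2, h3⟩ hj
        rw [this]; exact continuous_const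
    · have : (fun c : ℕ → Bool => decide (∃ n, f n = θ ∧ W c n)) = fun _ => false := by
        funext c
        rw [decide_eq_false_iff_not]
        rintro ⟨n, hn, -⟩
        exact hθ ⟨n, hn⟩
      rw [this]; exact continuous_const
  · rintro c d ⟨φ, hφ⟩
    have hφ' : ∀ θ, (∃ n, f n = φ θ ∧ W d n) ↔ ∃ n, f n = θ ∧ W c n := by
      intro θ
      have := hφ θ
      rwa [decide_eq_decide] at this
    -- the induced map on rationals in `W c`
    have hg : ∀ q, W c q → ∃ r, W d r ∧ f r = φ (f q) := by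
      intro q hq
      obtain ⟨r, h1, h2⟩ := (hφ' (f q)).2 ⟨q, rfl, hq⟩
      exact ⟨r, h2, h1⟩
    have hg' : ∀ r, W d r → ∃ q, W c q ∧ f r = φ (f q) := by
      intro r hr
      obtain ⟨q, h1, h2⟩ := (hφ' (φ.symm (f r))).1 ⟨r, by simp, hr⟩
      exact ⟨q, h2, by rw [h1]; simp⟩
    have hlt : ∀ q r q' r', f r = φ (f q) → f r' = φ (f q') → (q < q' ↔ r < r') := by
      intro q r q' r' h h'
      rw [← f.lt_iff_lt (a := r), h, h', φ.lt_iff_lt, f.lt_iff_lt]
    have heq : ∀ q r q' r', f r = φ (f q) → f r' = φ (f q') → (q = q' ↔ r = r') := by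
      intro q r q' r' h h'
      rw [← f.injective.eq_iff (a := r), h, h', φ.injective.eq_iff, f.injective.eq_iff]
    have hnn : ∀ q r, W c q → W d r → f r = φ (f q) → ((∃ n : ℕ, q = n) ↔ ∃ n : ℕ, r = n) := by
      intro q r hq hr h
      rw [← hspec c q hq, ← hspec d r hr]
      constructor
      · rintro ⟨u, hu, hne, hu'⟩
        obtain ⟨v, hv, hv'⟩ := hg u hu
        refine ⟨v, hv, fun e => hne ((heq u v q r hv' h).2 e), ?_⟩
        rintro t ht ⟨h1, h2⟩
        obtain ⟨w, hw, hw'⟩ := hg' t ht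
        refine hu' w hw ?_
        rw [min_lt_iff, lt_max_iff] at *
        rw [hlt u v w t hv' hw', hlt q r w t h hw', hlt w t u v hw' hv', hlt w t q r hw' h]
        exact ⟨h1, h2⟩
      · rintro ⟨v, hv, hne, hv'⟩
        obtain ⟨u, hu, hu'⟩ := hg' v hv
        refine ⟨u, hu, fun e => hne ((heq u v q r hu' h).1 e), ?_⟩
        rintro w hw ⟨h1, h2⟩
        obtain ⟨t, ht, ht'⟩ := hg w hw
        refine hv' t ht ?_
        rw [min_lt_iff, lt_max_iff] at *
        rw [hlt u v w t hu' ht', hlt q r w t h ht'] at h1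
        rw [hlt w t u v ht' hu', hlt w t q r ht' h] at h2
        exact ⟨h1, h2⟩
    have hn1 : ∀ n : ℕ, ∃ m : ℕ, f (m : ℚ) = φ (f (n : ℚ)) := by
      intro n
      obtain ⟨r, hr, hr'⟩ := hg n (hnat c n)
      obtain ⟨m, rfl⟩ := (hnn n r (hnat c n) hr hr').1 ⟨n, rfl⟩
      exact ⟨m, hr'⟩
    have hn2 : ∀ m : ℕ, ∃ n : ℕ, f (m : ℚ) = φ (f (n : ℚ)) := by
      intro m
      obtain ⟨q, hq, hq'⟩ := hg' m (hnat d m)
      obtain ⟨n, rfl⟩ := (hnn q m hq (hnat d m) hq').2 ⟨m, rfl⟩
      exact ⟨n, hq'⟩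
    choose g hgf using hn1
    have hgm : StrictMono g := by
      intro n m hnm
      have := (hlt n (g n) m (g m) (hgf n) (hgf m)).1 (by exact_mod_cast hnm)
      exact_mod_cast this
    have hgs : Function.Surjective g := by
      intro m
      obtain ⟨n, hn⟩ := hn2 m
      refine ⟨n, ?_⟩
      have := (heq n (g n) n m (hgf n) hn).1 rfl
      exact_mod_cast this
    have hgid : ∀ n, g n = n := by
      have h1 : ∀ n, n ≤ g n := fun n => hgm.le_apply
      intro n
      induction n using Nat.strong_induction_on with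
      | _ n ih =>
        refine le_antisymm ?_ (h1 n)
        obtain ⟨m, hm⟩ := hgs n
        rcases lt_trichotomy m n with h | h | h
        · have := ih m h
          omega
        · rw [← h, hm, h]
        · have h2 := hgm h
          have h3 := h1 m
          omega
    have hfix : ∀ n : ℕ, f (n : ℚ) = φ (f (n : ℚ)) := by
      intro n
      have := hgf n
      rwa [hgid] at this
    funext j
    have h1 : ∀ e : ℕ → Bool, (∃ q, W e q ∧ ((2 * j + 1 : ℕ) : ℚ) < q ∧ q < ((2 * j + 2 : ℕ) : ℚ))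
        ↔ e j = false := by
      intro e
      constructor
      · rintro ⟨q, hq, h2, h3⟩
        push_cast at h2 h3
        exact (hgap2 e j q h2 h3).1 hq
      · intro h
        refine ⟨2 * j + 3 / 2, (hgap2 e j _ (by linarith) (by linarith)).2 h, ?_, ?_⟩ <;>
          push_cast <;> linarith
    have h2 : (∃ q, W c q ∧ ((2 * j + 1 : ℕ) : ℚ) < q ∧ q < ((2 * j + 2 : ℕ) : ℚ)) ↔
        ∃ q, W d q ∧ ((2 * j + 1 : ℕ) : ℚ) < q ∧ q < ((2 * j + 2 : ℕ) : ℚ) := by
      constructor
      · rintro ⟨q, hq, h3, h4⟩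
        obtain ⟨r, hr, hr'⟩ := hg q hq
        exact ⟨r, hr, (hlt _ _ q r (hfix _) hr').1 h3, (hlt q r _ _ hr' (hfix _)).1 h4⟩
      · rintro ⟨r, hr, h3, h4⟩
        obtain ⟨q, hq, hq'⟩ := hg' r hr
        exact ⟨q, hq, (hlt _ _ q r (hfix _) hq').2 h3, (hlt q r _ _ hq' (hfix _)).2 h4⟩
    rw [h1 c, h1 d] at h2
    revert h2
    clear * -
    cases c j <;> cases d j <;> simp

/-- If the set of points at finite distance above `θ` is infinite, there is a ray of successors. -/
theorem exists_ray {Θ : Type} [LinearOrder Θ] (θ : Θ)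
    (h : {z | θ ≤ z ∧ (Icc θ z).Finite}.Infinite) : ∃ s : ℕ → Θ, ∀ n, s n ⋖ s (n + 1) := by
  have step : ∀ x : {z | θ ≤ z ∧ (Icc θ z).Finite}, ∃ y : {z | θ ≤ z ∧ (Icc θ z).Finite},
      x.1 ⋖ y.1 := by
    rintro ⟨x, hx1, hx2⟩
    obtain ⟨z, ⟨hz1, hz2⟩, hz3⟩ := h.exists_notMem_finite hx2
    have hxz : x < z := by
      by_contra hcon
      exact hz3 ⟨hz1, not_lt.1 hcon⟩
    have hfin : (Ioc x z).Finite := hz2.subset fun w hw => ⟨hx1.trans hw.1.le, hw.2⟩
    obtain ⟨y, hy, hymin⟩ := Set.exists_min_image (Ioc x z) id hfin ⟨z, hxz, le_rfl⟩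
    refine ⟨⟨y, hx1.trans hy.1.le, hz2.subset fun w hw => ⟨hw.1, hw.2.trans hy.2⟩⟩, hy.1, ?_⟩
    intro w hw1 hw2
    exact absurd (hymin w ⟨hw1, hw2.le.trans hy.2⟩) (not_le.2 hw2)
  choose nx hnx using step
  obtain ⟨z, hz⟩ := h.nonempty
  let s : ℕ → {z | θ ≤ z ∧ (Icc θ z).Finite} := fun n => Nat.rec ⟨z, hz⟩ (fun _ x => nx x) n
  have hs : ∀ n : ℕ, (s n).1 ⋖ (s (n + 1)).1 := fun n => hnx (s n)
  exact ⟨fun n => (s n).1, hs⟩

theorem rigidFam (Θ : Type) [LinearOrder Θ] [Infinite Θ] : RigidFam Θ := by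
  classical
  by_cases hA : ∃ s : ℕ → Θ, ∀ n, s n ⋖ s (n + 1)
  · obtain ⟨s, hs⟩ := hA
    exact rigid_ray s hs
  by_cases hB : ∃ s : ℕ → OrderDual Θ, ∀ n, s n ⋖ s (n + 1)
  · obtain ⟨s, hs⟩ := hB
    exact (rigid_ray s hs).dual
  have hup : ∀ θ : Θ, {z | θ ≤ z ∧ (Icc θ z).Finite}.Finite := by
    intro θ
    by_contra h
    exact hA (exists_ray θ h)
  have hdn : ∀ θ : Θ, {z | z ≤ θ ∧ (Icc z θ).Finite}.Finite := by
    intro θ
    by_contra h
    refine hB (exists_ray (OrderDual.toDual θ) fun h' => h ?_)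
    refine Set.Finite.subset (h'.image OrderDual.ofDual) ?_
    rintro z ⟨hz1, hz2⟩
    refine ⟨OrderDual.toDual z, ⟨hz1, ?_⟩, rfl⟩
    refine Set.Finite.subset (hz2.image OrderDual.toDual) ?_
    rintro w ⟨hw1, hw2⟩
    exact ⟨OrderDual.ofDual w, ⟨hw2, hw1⟩, rfl⟩
  -- least elements of the classes
  set C : Set Θ := {z | ∀ w < z, (Icc w z).Infinite} with hC
  have hmin : ∀ y : Θ, ∃ y0 ∈ C, y0 ≤ y ∧ (Icc y0 y).Finite := by
    intro y
    obtain ⟨y0, hy0, hmin⟩ := Set.exists_min_image _ id (hdn y) ⟨y, le_rfl, by simp⟩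
    refine ⟨y0, ?_, hy0.1, hy0.2⟩
    intro w hw hfin
    have h1 : w ∈ {z | z ≤ y ∧ (Icc z y).Finite} := by
      refine ⟨hw.le.trans hy0.1, (hfin.union hy0.2).subset ?_⟩
      intro v hv
      rcases le_total v y0 with h | h
      · exact Or.inl ⟨hv.1, h⟩
      · exact Or.inr ⟨h, hv.2⟩
    exact absurd (hmin w h1) (not_le.2 hw)
  have hdense : ∀ z ∈ C, ∀ z' ∈ C, z < z' → ∃ y ∈ C, z < y ∧ y < z' := by
    intro z hz z' hz' hlt
    have hinf := hz' z hlt
    obtain ⟨y, hy, hy'⟩ := hinf.exists_notMem_finite ((hup z).union (hdn z'))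
    have h1 : (Icc z y).Infinite := fun h => hy' (Or.inl ⟨hy.1, h⟩)
    have h2 : (Icc y z').Infinite := fun h => hy' (Or.inr ⟨hy.2, h⟩)
    obtain ⟨y0, hy0, hle, hfin⟩ := hmin y
    refine ⟨y0, hy0, ?_, ?_⟩
    · by_contra hcon
      exact h1 (hfin.subset fun w hw => ⟨(not_lt.1 hcon).trans hw.1, hw.2⟩)
    · refine lt_of_le_of_lt hle (lt_of_le_of_ne hy.2 ?_)
      rintro rfl
      exact h2 (by simp)
  have hnt : ∃ z ∈ C, ∃ z' ∈ C, z < z' := by
    obtain ⟨θ⟩ : Nonempty Θ := inferInstance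
    obtain ⟨w, -, hw⟩ := (Set.infinite_univ (α := Θ)).exists_notMem_finite ((hup θ).union (hdn θ))
    have hkey : ∀ x y : Θ, x ≤ y → (Icc x y).Infinite → ∃ z ∈ C, ∃ z' ∈ C, z < z' := by
      intro x y hxy hinf
      obtain ⟨x0, hx0, hx1, hx2⟩ := hmin x
      obtain ⟨y0, hy0, hy1, hy2⟩ := hmin y
      refine ⟨x0, hx0, y0, hy0, ?_⟩
      by_contra hcon
      exact hinf (hy2.subset fun w hw => ⟨((not_lt.1 hcon).trans hx1).trans hw.1, hw.2⟩)
    rcases le_total θ w with h | h
    · exact hkey θ w h fun h' => hw (Or.inl ⟨h, h'⟩)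
    · exact hkey w θ h fun h' => hw (Or.inr ⟨h, h'⟩)
  obtain ⟨z, hz, z', hz', hlt⟩ := hnt
  have : Nontrivial C := ⟨⟨z, hz⟩, ⟨z', hz'⟩, fun h => hlt.ne (congrArg Subtype.val h)⟩
  have : DenselyOrdered C := ⟨by
    rintro ⟨x, hx⟩ ⟨y, hy⟩ hxy
    obtain ⟨w, hw, h1, h2⟩ := hdense x hx y hy hxy
    exact ⟨⟨w, hw⟩, h1, h2⟩⟩
  obtain ⟨e⟩ := Order.embedding_from_countable_to_dense ℚ C
  exact rigid_rat (e.trans (OrderEmbedding.subtype _))

end Pool.Agent.H12A.OM
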