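import Pool.Agent.H533R2.VO.All
import Pool.Agent.H12A.OM.Ord

set_option autoImplicit false

/-!
# Blocks which occur infinitely often

If every block of a member of `K` is isomorphic to infinitely many blocks of some member of `K`,
then the blocks of the members of `K` have countably many isomorphism types.
-/

namespace Pool.Agent.H12A.OM

open Set
open Pool.Agent.H899R2.VP
open Pool.Agent.H533R2.VO

variable {a : ℕ → ℕ}

/-- Assembly of the main theorem on ordered sums. -/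
theorem main_os : S_MAIN := by
  have core := t_CORE
  have cls := t_CLS
  have clt := t_CLT core
  have clmon := t_CLMON
  have locrk := t_LOCRK clt
  have trc := t_TRC core
  have h5 := t_H5
  have mtx := t_MTX h5
  have ext := t_EXT
  have a1p := t_A1P cls
  have glw := t_GLW
  have a1 := t_A1 a1p glw
  have can := t_CAN mtx
  have ca1 := t_CASEA1 mtx ext trc a1
  have ca2 := t_CASEA2 can ext trc
  have cb1 := t_CASEB1 can core
  have cb2 := t_CASEB2 can ext locrk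
  have rkch := t_RKCH clmon
  have b2ex := t_B2EX rkch
  have tow := t_TOW t_INL ca1 ca2 cb1 cb2 b2ex
  have towc := t_TOWC t_LEV tow t_LAB
  have towr := t_TOWR towc t_REV
  have sim := t_SIM towc towr t_GENF
  have cnt := t_CNT sim (t_GENU t_GENF)
  have en := t_END towc towr
  have base := t_BASE t_LAB t_GENF
  have fill := t_FILL t_TRP
  have sq := t_SEQ fill
  have glo := t_GLO
  have glf := t_GLF
  have glb := t_GLB glf
  have dec1 := t_DEC1 t_LHF
  have dec2 := t_DEC2 t_LHF glo glf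
  have code := t_CODE sq glb t_GLC t_LHF dec1 dec2 t_CSI
  exact t_MAIN base t_LEV (t_MEAS2 t_MEAS1) t_BL t_DYA code cnt en

theorem blk_eq {P : St a} (hP : OS P) {w w' : ℕ} (h : w' ∈ Ic P w w) : Ic P w' w' = Ic P w w := by
  ext z
  rw [mem_Ic, mem_Ic]
  rw [mem_Ic] at h
  constructor
  · rintro ⟨h1, h2⟩
    exact ⟨hP.le_trans h.1 h1, hP.le_trans h2 h.2⟩
  · rintro ⟨h1, h2⟩
    exact ⟨hP.le_trans h.2 h1, hP.le_trans h2 h.1⟩

theorem self_mem {P : St a} (hP : OS P) (w : ℕ) : w ∈ Ic P w w := ⟨hP.irr w, hP.irr w⟩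

theorem mem_blk_symm {P : St a} {w w' : ℕ} (h : w' ∈ Ic P w w) : w ∈ Ic P w' w' := ⟨h.2, h.1⟩

theorem blk_noadj {P : St a} (hP : OS P) {w u v : ℕ} (hu : u ∈ Ic P w w) (hv : v ∈ Ic P w w) :
    ¬ Adj P u v := by
  have h : v ∈ Ic P u u := by rw [blk_eq hP hu]; exact hv
  exact h.2

theorem iso_noadj {M N : St a} {X Y : Set ℕ} {p : Set (ℕ × ℕ)} (h : IsoOn M N X Y p)
    (hX : ∀ u ∈ X, ∀ v ∈ X, ¬ Adj M u v) : ∀ u ∈ Y, ∀ v ∈ Y, ¬ Adj N u v := by
  obtain ⟨q, -, h2, h3, -, h5⟩ := h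
  intro u hu v hv
  obtain ⟨u', hu'⟩ := h5 u hu
  obtain ⟨v', hv'⟩ := h5 v hv
  rw [← h3.adj hu' hv']
  exact hX _ (h2 hu').1 _ (h2 hv').1

/-- Every block of a member of `K` is isomorphic to infinitely many blocks of a member of `K`. -/
def Rep (K : Set (St a)) : Prop := ∀ M ∈ K, ∀ x, ∃ P ∈ K, ∃ z : ℕ → ℕ,
  (∀ i j, i ≠ j → z j ∉ Ic P (z i) (z i)) ∧ ∀ i, IsoOn M P (Ic M x x) (Ic P (z i) (z i)) ∅

/-- The least elements of the blocks with the property `Q`. -/
structure Th (P : St a) (Q : ℕ → Prop) where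
  val : ℕ
  q : Q val
  min : ∀ w ∈ Ic P val val, val ≤ w

theorem Th.ext' {P : St a} {Q : ℕ → Prop} {u v : Th P Q} (h : u.val = v.val) : u = v := by
  cases u; cases v; cases h; rfl

theorem Th.eq_of_mem {P : St a} {Q : ℕ → Prop} {u v : Th P Q}
    (h : u.val ∈ Ic P v.val v.val) : u = v :=
  Th.ext' (le_antisymm (u.min _ (mem_blk_symm h)) (v.min _ h))

open Classical in
/-- The order of the blocks. -/
@[reducible] noncomputable def Th.order {P : St a} (hP : OS P) (Q : ℕ → Prop) : LinearOrder (Th P Q) where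
  le u v := ¬ Adj P v.val u.val
  lt u v := Adj P u.val v.val
  le_refl u := hP.irr _
  le_trans u v w h1 h2 := hP.le_trans h1 h2
  lt_iff_le_not_ge u v := ⟨fun h => ⟨hP.asymm h, not_not.2 h⟩, fun h => not_not.1 h.2⟩
  le_antisymm u v h1 h2 := Th.eq_of_mem ⟨h2, h1⟩
  le_total u v := by
    by_contra h
    push Not at h
    exact hP.asymm h.1 h.2
  toDecidableLE := Classical.decRel _

theorem Th.exists_rep {P : St a} (hP : OS P) {Q : ℕ → Prop}
    (hQ : ∀ w, Q w → ∀ w' ∈ Ic P w w, Q w') {w : ℕ} (hw : Q w) :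
    ∃ θ : Th P Q, w ∈ Ic P θ.val θ.val := by
  classical
  have hex : ∃ n, n ∈ Ic P w w := ⟨w, self_mem hP w⟩
  refine ⟨⟨Nat.find hex, hQ w hw _ (Nat.find_spec hex), ?_⟩, mem_blk_symm (Nat.find_spec hex)⟩
  intro v hv
  rw [blk_eq hP (Nat.find_spec hex)] at hv
  exact Nat.find_min' hex hv

theorem Th.infinite {P : St a} (hP : OS P) {Q : ℕ → Prop}
    (hQ : ∀ w, Q w → ∀ w' ∈ Ic P w w, Q w') {z : ℕ → ℕ}
    (hz1 : ∀ i j, i ≠ j → z j ∉ Ic P (z i) (z i)) (hz2 : ∀ i, Q (z i)) : Infinite (Th P Q) := by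
  choose r hr using fun i => Th.exists_rep hP hQ (hz2 i)
  refine Infinite.of_injective r fun i j hij => ?_
  by_contra hne
  refine hz1 i j hne ?_
  have h1 := hr i
  have h2 := hr j
  rw [← hij] at h2
  rw [blk_eq hP h1]
  exact h2

section case

variable {α : Ordinal.{0}} {K : Set (St a)} {M M' P : St a} {X X' : Set ℕ}

/-- The property of a point to have a block isomorphic to `(M, X)` or `(M', X')`. -/
def Qp (M M' P : St a) (X X' : Set ℕ) (w : ℕ) : Prop :=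
  IsoOn M P X (Ic P w w) ∅ ∨ IsoOn M' P X' (Ic P w w) ∅

theorem Qp_blk (hP : OS P) : ∀ w, Qp M M' P X X' w → ∀ w' ∈ Ic P w w, Qp M M' P X X' w' := by
  intro w h w' hw'
  unfold Qp
  rw [blk_eq hP hw']
  exact h

/-- The standing assumptions. -/
structure Cs (α : Ordinal.{0}) (M M' P : St a) (X X' : Set ℕ) (ι : Type) (J : ι → ℕ)
    (T0 T1 : ι → St a) : Prop where
  om : Ordinal.omega0 ≤ α
  osP : OS P
  na : ∀ u ∈ X, ∀ v ∈ X, ¬ Adj M u v
  na' : ∀ u ∈ X', ∀ v ∈ X', ¬ Adj M' u v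
  bf : BF M M' X X' α ∅
  ni : ¬ IsoOn M M' X X' ∅
  dj : ∀ i j, i ≠ j → Disjoint (Ic P (J i) (J i)) (Ic P (J j) (J j))
  q : ∀ i, Qp M M' P X X' (J i)
  ex : ∀ w, Qp M M' P X X' w → ∃ i, w ∈ Ic P (J i) (J i)
  os0 : ∀ i, OS (T0 i)
  os1 : ∀ i, OS (T1 i)
  is0 : ∀ i, IsoOn M (T0 i) X (Ic P (J i) (J i)) ∅
  is1 : ∀ i, IsoOn M' (T1 i) X' (Ic P (J i) (J i)) ∅

variable {ι : Type} {J : ι → ℕ} {T0 T1 : ι → St a}

/-- The structure given by a function. -/
noncomputable def NY (P : St a) (J : ι → ℕ) (T0 T1 : ι → St a) (Y : ι → Bool) : St a :=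
  GD P J J (fun i => if Y i = true then T1 i else T0 i)

theorem Cs.ga (h : Cs α M M' P X X' ι J T0 T1) (Y : ι → Bool) :
    GA α P J J (fun i => if Y i = true then T1 i else T0 i) := by
  have hb0 : ∀ i, BF P M (Ic P (J i) (J i)) X α ∅ := by
    intro i
    rcases h.q i with h1 | h1
    · exact (iso_symm0 h1).bf α
    · exact bf_comp0 ((iso_symm0 h1).bf α) (bf_symm0 h.bf)
  have hb1 : ∀ i, BF P M' (Ic P (J i) (J i)) X' α ∅ := fun i => bf_comp0 (hb0 i) h.bf
  refine ⟨h.osP, fun j => h.osP.irr _, h.dj, fun j => ?_, fun j => ?_⟩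
  · split_ifs
    · exact h.os1 j
    · exact h.os0 j
  · split_ifs
    · exact bf_comp0 (hb1 j) ((h.is1 j).bf α)
    · exact bf_comp0 (hb0 j) ((h.is0 j).bf α)

theorem Cs.os (h : Cs α M M' P X X' ι J T0 T1) (Y : ι → Bool) : OS (NY P J T0 T1 Y) :=
  t_GLO a ι α P J J _ (h.ga Y)

theorem Cs.bfP (h : Cs α M M' P X X' ι J T0 T1) (Y : ι → Bool) :
    BF P (NY P J T0 T1 Y) univ univ α ∅ :=
  t_GLB t_GLF a ι α P J J _ (h.ga Y)

theorem Cs.adj_out (h : Cs α M M' P X X' ι J T0 T1) (Y : ι → Bool) {i : ι} {x y : ℕ}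
    (hx : x ∈ Ic P (J i) (J i)) (hy : y ∉ Ic P (J i) (J i)) :
    (Adj (NY P J T0 T1 Y) x y ↔ Adj P x y) ∧ (Adj (NY P J T0 T1 Y) y x ↔ Adj P y x) :=
  (t_GLF a ι α P J J _ (h.ga Y)).1 i x hx y hy

theorem Cs.blk_in (h : Cs α M M' P X X' ι J T0 T1) (Y : ι → Bool) {i : ι} {x : ℕ}
    (hx : x ∈ Ic P (J i) (J i)) : Ic (NY P J T0 T1 Y) x x = Ic P (J i) (J i) := by
  have h1 := (t_GLF a ι α P J J _ (h.ga Y)).2.1 i x hx x hx
  unfold NY
  rw [h1]
  refine inter_eq_left.2 fun w hw => ?_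
  have hna : ∀ u ∈ Ic P (J i) (J i), ∀ v ∈ Ic P (J i) (J i),
      ¬ Adj (if Y i = true then T1 i else T0 i) u v := by
    split_ifs
    · exact iso_noadj (h.is1 i) h.na'
    · exact iso_noadj (h.is0 i) h.na
  exact ⟨hna _ hw _ hx, hna _ hx _ hw⟩

theorem Cs.iso_in (h : Cs α M M' P X X' ι J T0 T1) (Y : ι → Bool) (i : ι) :
    (Y i = false → IsoOn M (NY P J T0 T1 Y) X (Ic P (J i) (J i)) ∅) ∧
    (Y i = true → IsoOn M' (NY P J T0 T1 Y) X' (Ic P (J i) (J i)) ∅) := by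
  have h1 := (t_GLF a ι α P J J _ (h.ga Y)).2.2 i
  constructor
  · intro hY
    simp only [hY, Bool.false_eq_true, if_false] at h1
    exact iso_trans0 (h.is0 i) (h1.mono (empty_subset _))
  · intro hY
    simp only [hY, if_true] at h1
    exact iso_trans0 (h.is1 i) (h1.mono (empty_subset _))

theorem Cs.blk_out (h : Cs α M M' P X X' ι J T0 T1) (Y : ι → Bool) {w : ℕ}
    (hw : ∀ i, w ∉ Ic P (J i) (J i)) : Ic (NY P J T0 T1 Y) w w = Ic P w w ∧
      IsoOn (NY P J T0 T1 Y) P (Ic P w w) (Ic P w w) ∅ := by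
  have hout : ∀ v ∈ Ic P w w, ∀ i, v ∉ Ic P (J i) (J i) := by
    intro v hv i hvi
    have h1 := blk_eq h.osP hv
    have h2 := blk_eq h.osP hvi
    exact hw i (by rw [← h2, h1]; exact self_mem h.osP w)
  have hadj : ∀ v, (∀ i, v ∉ Ic P (J i) (J i)) → ∀ u, (Adj (NY P J T0 T1 Y) v u ↔ Adj P v u) ∧
      (Adj (NY P J T0 T1 Y) u v ↔ Adj P u v) := by
    intro v hv u
    unfold NY
    exact ⟨Glu_adj' fun j hj => absurd hj (hv j), Glu_adj' fun j _ => hv j⟩
  constructor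
  · ext v
    rw [mem_Ic, mem_Ic, (hadj w hw v).1, (hadj w hw v).2]
  · refine (iso_congr ?_ ?_).mono (empty_subset _)
    · intro x hx y _
      have := (hadj x (hout x hx) y).1
      unfold Adj at this
      rw [Bool.eq_iff_iff]
      exact this
    · intro i t ht
      unfold NY
      refine Glu_rel' ?_
      rintro ⟨⟨k⟩, j, hj⟩
      exact hout _ (ht k) j (hj k)

theorem Cs.continuous (h : Cs α M M' P X X' ι J T0 T1) (Y : (ℕ → Bool) → ι → Bool)
    (hY : ∀ i, Continuous fun c => Y c i) : Continuous fun c => NY P J T0 T1 (Y c) := by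
  refine t_GLC a ι P (fun i => Ic P (J i) (J i)) (fun i c => if Y c i = true then T1 i else T0 i)
    h.dj fun i => ?_
  exact (continuous_of_discreteTopology (f := fun b : Bool => if b = true then T1 i else T0 i)).comp
    (hY i)

/-- Isomorphic structures have isomorphic functions. -/
theorem Cs.decode (h : Cs α M M' P X X' ι J T0 T1) {Y Y' : ι → Bool}
    (hiso : IsoOn (NY P J T0 T1 Y) (NY P J T0 T1 Y') univ univ ∅) :
    ∃ F : ι → ι, (∀ i j, Adj P (J i) (J j) → Adj P (J (F i)) (J (F j))) ∧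
      Function.Surjective F ∧ ∀ i, Y' (F i) = Y i := by
  obtain ⟨e, -, he⟩ := hiso.exists_equiv
  set N := NY P J T0 T1 Y with hN
  set N' := NY P J T0 T1 Y' with hN'
  have hadj : ∀ x y, Adj N x y ↔ Adj N' (e x) (e y) := fun x y =>
    he.adj (x := x) (y := y) (x' := e x) (y' := e y) rfl rfl
  have hblk : ∀ w v, v ∈ Ic N w w ↔ e v ∈ Ic N' (e w) (e w) := by
    intro w v
    rw [mem_Ic, mem_Ic, hadj, hadj]
  have hbiso : ∀ w, IsoOn N N' (Ic N w w) (Ic N' (e w) (e w)) ∅ := by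
    intro w
    refine ⟨{u | u.2 = e u.1 ∧ u.1 ∈ Ic N w w}, empty_subset _, ?_, he.mono fun u hu => hu.1,
      fun x hx => ⟨e x, rfl, hx⟩, fun y hy => ⟨e.symm y, by simp, ?_⟩⟩
    · rintro ⟨u, v⟩ ⟨h1, h2⟩
      simp only at h1 h2
      exact ⟨h2, by rw [h1]; exact (hblk w u).1 h2⟩
    · show e.symm y ∈ Ic N w w
      rw [hblk]
      simpa using hy
  -- a point belongs to one of the sets iff its block is of the right kind
  have hkey : ∀ (Z : ι → Bool) (w : ℕ), (IsoOn M (NY P J T0 T1 Z) X (Ic (NY P J T0 T1 Z) w w) ∅ ∨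
      IsoOn M' (NY P J T0 T1 Z) X' (Ic (NY P J T0 T1 Z) w w) ∅) ↔
        ∃ i, w ∈ Ic P (J i) (J i) := by
    intro Z w
    constructor
    · intro h1
      by_contra hcon
      push Not at hcon
      have h2 := h.blk_out Z hcon
      rw [h2.1] at h1
      have h3 : Qp M M' P X X' w := by
        rcases h1 with h1 | h1
        · exact Or.inl (iso_trans0 h1 h2.2)
        · exact Or.inr (iso_trans0 h1 h2.2)
      obtain ⟨i, hi⟩ := h.ex w h3
      exact hcon i hi
    · rintro ⟨i, hi⟩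
      rw [h.blk_in Z hi]
      cases hZ : Z i
      · exact Or.inl ((h.iso_in Z i).1 hZ)
      · exact Or.inr ((h.iso_in Z i).2 hZ)
  have hmap : ∀ w, (∃ i, w ∈ Ic P (J i) (J i)) ↔ ∃ i, e w ∈ Ic P (J i) (J i) := by
    intro w
    rw [← hkey Y w, ← hkey Y' (e w)]
    constructor
    · rintro (h1 | h1)
      · exact Or.inl (iso_trans0 h1 (hbiso w))
      · exact Or.inr (iso_trans0 h1 (hbiso w))
    · rintro (h1 | h1)
      · exact Or.inl (iso_trans0 h1 (iso_symm0 (hbiso w)))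
      · exact Or.inr (iso_trans0 h1 (iso_symm0 (hbiso w)))
  have hself : ∀ i, J i ∈ Ic P (J i) (J i) := fun i => self_mem h.osP _
  choose F hF using fun i => (hmap (J i)).1 ⟨i, hself i⟩
  have huniq : ∀ i j w, w ∈ Ic P (J i) (J i) → w ∈ Ic P (J j) (J j) → i = j := by
    intro i j w h1 h2
    by_contra hne
    exact Set.disjoint_left.1 (h.dj i j hne) h1 h2
  refine ⟨F, ?_, ?_, ?_⟩
  · intro i j hij
    have hne : J j ∉ Ic P (J i) (J i) := fun hh => hh.2 hij
    have h1 : Adj N (J i) (J j) := (h.adj_out Y (hself i) hne).1.2 hij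
    rw [hadj] at h1
    have h2 : e (J j) ∉ Ic P (J (F i)) (J (F i)) := by
      intro hh
      rw [← h.blk_in Y' (hF i)] at hh
      exact hh.2 h1
    have h3 : Adj P (e (J i)) (e (J j)) := (h.adj_out Y' (hF i) h2).1.1 h1
    have h4 : Adj P (J (F i)) (e (J j)) := h.osP.le_lt (hF i).1 h3
    exact h.osP.lt_le h4 (hF j).2
  · intro j
    obtain ⟨i, hi⟩ := (hmap (e.symm (J j))).2 ⟨j, by simpa using hself j⟩
    refine ⟨i, ?_⟩
    have h1 : e.symm (J j) ∈ Ic N (J i) (J i) := by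
      rw [hN, h.blk_in Y (hself i)]; exact hi
    rw [hblk] at h1
    rw [hN', h.blk_in Y' (hF i)] at h1
    refine huniq _ _ _ h1 ?_
    simpa using hself j
  · intro i
    have h1 := hbiso (J i)
    rw [hN, hN', h.blk_in Y (hself i), h.blk_in Y' (hF i)] at h1
    cases hY : Y i <;> cases hY' : Y' (F i)
    · rfl
    · exfalso
      exact h.ni (iso_trans0 (iso_trans0 ((h.iso_in Y i).1 hY) h1)
        (iso_symm0 ((h.iso_in Y' (F i)).2 hY')))
    · exfalso
      exact h.ni (iso_symm0 (iso_trans0 (iso_trans0 ((h.iso_in Y i).2 hY) h1)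
        (iso_symm0 ((h.iso_in Y' (F i)).1 hY'))))
    · rfl

end case

theorem blkC_of_rep {α : Ordinal.{0}} {K : Set (St a)} (hG : G α K) (hR : Rep K) : BlkC K := by
  classical
  by_contra hB
  obtain ⟨c, hc⟩ := labels hG.meas hG.few α hG.lt
  obtain ⟨M, hM, x, M', hM', x', hbf, hni⟩ : ∃ M ∈ K, ∃ x, ∃ M' ∈ K, ∃ x',
      BF M M' univ univ α {(x, x')} ∧ ¬ IsoOn M M' (Ic M x x) (Ic M' x' x') ∅ := by
    by_contra hcon
    push Not at hcon
    apply hB
    have h1 : ∀ n, ∃ F : St a × Set ℕ, ∀ M ∈ K, ∀ x, c M [x] = n →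
        IsoOn F.1 M F.2 (Ic M x x) ∅ := by
      intro n
      by_cases h : ∃ M ∈ K, ∃ x, c M [x] = n
      · obtain ⟨M0, hM0, x0, h0⟩ := h
        refine ⟨(M0, Ic M0 x0 x0), fun M hM x hx => hcon M0 hM0 x0 M hM x ?_⟩
        have := hc M0 hM0 M hM [x0] [x] rfl (by rw [h0, hx])
        rw [zipSet_cons, zipSet_nil_left, insert_empty_eq] at this
        exact this
      · exact ⟨(lift fun _ _ => false, ∅), fun M hM x hx => absurd ⟨M, hM, x, hx⟩ h⟩
    choose f hf using h1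
    exact ⟨f, fun M hM x => ⟨c M [x], hf _ M hM x rfl⟩⟩
  have hOM := hG.os M hM
  have hOM' := hG.os M' hM'
  have hXX : BF M M' (Ic M x x) (Ic M' x' x') α ∅ := by
    have := resIc (mem_singleton _) (mem_singleton _) hbf
    rw [univ_inter, univ_inter] at this
    exact this.subset (empty_subset _)
  obtain ⟨P, hP, z, hz1, hz2⟩ := hR M hM x
  have hOP := hG.os P hP
  set Q : ℕ → Prop := Qp M M' P (Ic M x x) (Ic M' x' x') with hQ
  have hb0 : ∀ w, Q w → BF P M (Ic P w w) (Ic M x x) α ∅ := by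
    rintro w (h1 | h1)
    · exact (iso_symm0 h1).bf α
    · exact bf_comp0 ((iso_symm0 h1).bf α) (bf_symm0 hXX)
  have hb1 : ∀ w, Q w → BF P M' (Ic P w w) (Ic M' x' x') α ∅ := fun w hw =>
    bf_comp0 (hb0 w hw) hXX
  choose T0 hT0 hT0' using fun θ : Th P Q =>
    t_TRP a P M (Ic P θ.val θ.val) (Ic M x x) α hG.om hOM (hb0 _ θ.q)
  choose T1 hT1 hT1' using fun θ : Th P Q =>
    t_TRP a P M' (Ic P θ.val θ.val) (Ic M' x' x') α hG.om hOM' (hb1 _ θ.q)
  have hCs : Cs α M M' P (Ic M x x) (Ic M' x' x') (Th P Q) Th.val T0 T1 := by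
    refine ⟨hG.om, hOP, fun u hu v hv => blk_noadj hOM hu hv,
      fun u hu v hv => blk_noadj hOM' hu hv, hXX, hni, ?_, fun θ => θ.q, ?_, hT0, hT1, hT0', hT1'⟩
    · intro i j hij
      rw [Set.disjoint_left]
      intro w hw1 hw2
      refine hij (Th.eq_of_mem ?_)
      rw [← blk_eq hOP hw2, blk_eq hOP hw1]
      exact self_mem hOP _
    · intro w hw
      exact Th.exists_rep hOP (Qp_blk hOP) hw
  let _ : LinearOrder (Th P Q) := Th.order hOP Q
  have : Infinite (Th P Q) := Th.infinite hOP (Qp_blk hOP) hz1 fun i => Or.inl (hz2 i)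
  obtain ⟨Y, hY1, hY2⟩ := rigidFam (Th P Q)
  refine hG.few ⟨fun c => NY P Th.val T0 T1 (Y c), hCs.continuous Y hY1,
    fun c => hG.closed P hP _ (hCs.bfP (Y c)), fun c d hcd => ?_⟩
  obtain ⟨F, hF1, hF2, hF3⟩ := hCs.decode hcd
  refine hY2 c d ⟨StrictMono.orderIsoOfSurjective F (fun i j hij => hF1 i j hij) hF2, fun θ => ?_⟩
  exact hF3 θ

end Pool.Agent.H12A.OM
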