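import Pool.Agent.H12A.OM.Exp

set_option autoImplicit false

/-!
# Ordered sums with infinitely many isomorphic summands: the theorem for Borel classes
-/

namespace Pool.Agent.H12A.OM

open Set MeasureTheory
open Pool.Agent.H899R2.VP hiding RS
open Pool.Agent.H533R2.VO

variable {a : ℕ → ℕ} {ε : ℕ}

/-- `P` is the ordered sum of the fibres of `π`. -/
structure OSum (ε : ℕ) (P : RS a) {I : Type} [LinearOrder I] (π : ℕ → I) : Prop where
  lt : ∀ x y, π x < π y → P ε (pair x y) = true ∧ P ε (pair y x) = false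
  loc : ∀ i, i ≠ ε → ∀ t, P i t = true → ∀ j k, π (t j) = π (t k)

/-- The fibre of `ρ` over `j`, as a substructure of `M`, is isomorphic to the fibre of `π` over
`q`, as a substructure of `P`. -/
def Fib (M : RS a) {J : Type} (ρ : ℕ → J) (j : J) (P : RS a) {I : Type} (π : ℕ → I) (q : I) :
    Prop :=
  ∃ e : ℕ → ℕ, BijOn e {z | ρ z = j} {z | π z = q} ∧
    ∀ (i : ℕ) (v : Fin (a i) → ℕ), (∀ k, ρ (v k) = j) → P i (e ∘ v) = M i v

section sum

variable {M P : RS a} {J : Type} [LinearOrder J] {ρ : ℕ → J} {I : Type} [LinearOrder I]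
  {π : ℕ → I}

theorem OSum.pre (h : OSum ε P π) {x y : ℕ} (hxy : π x < π y) : Pre ε P x y := by
  refine ⟨(h.lt x y hxy).1, (h.lt x y hxy).2, ?_⟩
  rintro i hi t ht ⟨⟨j, rfl⟩, ⟨k, rfl⟩⟩
  exact hxy.ne (h.loc i hi t ht j k)

theorem OSum.le_of_not_pre (h : OSum ε P π) {x y : ℕ} (hxy : ¬ Pre ε P x y) : π y ≤ π x := by
  by_contra hcon
  exact hxy (h.pre (not_le.1 hcon))

theorem OSum.rn (h : OSum ε P π) {n x y : ℕ} (hn : Rn ε P n x y) : π x ≤ π y := by
  induction n generalizing x with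
  | zero => exact le_of_eq (congrArg π hn)
  | succ n ih =>
    obtain ⟨w, h1, h2⟩ := hn
    exact (h.le_of_not_pre h1).trans (ih h2)

theorem OSum.rc (h : OSum ε P π) {x y : ℕ} (hn : Rc ε P x y) : π x ≤ π y := by
  obtain ⟨n, hn⟩ := hn
  exact h.rn hn

/-- The standing assumptions on `e`. -/
structure FI (ε : ℕ) (M : RS a) (ρ : ℕ → J) (j : J) (P : RS a) (π : ℕ → I) (q : I) (e : ℕ → ℕ) :
    Prop where
  hM : OSum ε M ρ
  hP : OSum ε P π
  bij : BijOn e {z | ρ z = j} {z | π z = q}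
  rel : ∀ (i : ℕ) (v : Fin (a i) → ℕ), (∀ k, ρ (v k) = j) → P i (e ∘ v) = M i v

variable {j : J} {q : I} {e : ℕ → ℕ}

theorem FI.pair (h : FI ε M ρ j P π q e) {x y : ℕ} (hx : ρ x = j) (hy : ρ y = j) :
    P ε (pair (e x) (e y)) = M ε (pair x y) := by
  rw [← comp_pair]
  refine h.rel ε _ fun k => ?_
  simp only [OM.pair]
  split_ifs
  · exact hx
  · exact hy

theorem FI.pre_iff (h : FI ε M ρ j P π q e) {x y : ℕ} (hx : ρ x = j) (hy : ρ y = j) :
    Pre ε P (e x) (e y) ↔ Pre ε M x y := by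
  unfold Pre
  rw [h.pair hx hy, h.pair hy hx]
  refine and_congr_right fun _ => and_congr_right fun _ => ?_
  constructor
  · rintro h1 i hi t ht ⟨⟨k, hk⟩, ⟨l, hl⟩⟩
    have h2 : ∀ k', ρ (t k') = j := fun k' => by
      rw [h.hM.loc i hi t ht k' k, hk, hx]
    exact h1 i hi (e ∘ t) (by rw [h.rel i t h2]; exact ht) ⟨⟨k, by simp [hk]⟩, ⟨l, by simp [hl]⟩⟩
  · rintro h1 i hi t ht ⟨⟨k, hk⟩, ⟨l, hl⟩⟩
    have h2 : ∀ k', ∃ n, ρ n = j ∧ e n = t k' := by
      intro k'
      have h3 : π (t k') = q := by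
        rw [h.hP.loc i hi t ht k' k, hk]
        exact h.bij.mapsTo hx
      obtain ⟨n, hn, hn'⟩ := h.bij.surjOn h3
      exact ⟨n, hn, hn'⟩
    choose v hv1 hv2 using h2
    have hv' : t = e ∘ v := funext fun k' => (hv2 k').symm
    refine h1 i hi v (by rw [← h.rel i v hv1, ← hv']; exact ht)
      ⟨⟨k, h.bij.injOn (hv1 k) hx ?_⟩, ⟨l, h.bij.injOn (hv1 l) hy ?_⟩⟩
    · rw [hv2, hk]
    · rw [hv2, hl]

theorem FI.rn_iff (h : FI ε M ρ j P π q e) (n : ℕ) {x y : ℕ} (hx : ρ x = j) (hy : ρ y = j) :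
    Rn ε P n (e x) (e y) ↔ Rn ε M n x y := by
  induction n generalizing x with
  | zero => exact ⟨fun h' => h.bij.injOn hx hy h', fun h' => congrArg e h'⟩
  | succ n ih =>
    constructor
    · rintro ⟨w, h1, h2⟩
      have h3 := h.hP.le_of_not_pre h1
      have h4 := h.hP.rn h2
      have h5 : π (e x) = q := h.bij.mapsTo hx
      have h6 : π (e y) = q := h.bij.mapsTo hy
      rw [h5] at h3
      rw [h6] at h4
      obtain ⟨w', hw', rfl⟩ := h.bij.surjOn (show w ∈ {z | π z = q} from le_antisymm h4 h3)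
      exact ⟨w', by rwa [← h.pre_iff hw' hx], by rwa [← ih hw']⟩
    · rintro ⟨w, h1, h2⟩
      have h3 := h.hM.le_of_not_pre h1
      have h4 := h.hM.rn h2
      rw [hx] at h3
      rw [hy] at h4
      have hw : ρ w = j := le_antisymm h4 h3
      exact ⟨e w, by rwa [h.pre_iff hw hx], by rwa [ih hw]⟩

theorem FI.rc_iff (h : FI ε M ρ j P π q e) {x y : ℕ} (hx : ρ x = j) (hy : ρ y = j) :
    Rc ε P (e x) (e y) ↔ Rc ε M x y :=
  exists_congr fun n => h.rn_iff n hx hy

/-- The blocks of a summand are blocks of the sum. -/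
theorem FI.block (h : FI ε M ρ j P π q e) {x : ℕ} (hx : ρ x = j) :
    IsoOn (ex ε M) (ex ε P) (Ic (ex ε M) x x) (Ic (ex ε P) (e x) (e x)) ∅ := by
  classical
  have hin : ∀ u ∈ Ic (ex ε M) x x, ρ u = j := by
    intro u hu
    rw [mem_Ic, ex_adj, ex_adj, not_not, not_not] at hu
    rw [← hx]
    exact le_antisymm (h.hM.rc hu.2) (h.hM.rc hu.1)
  have hrc : ∀ u v, ρ u = j → ρ v = j → (Rc ε P (e u) (e v) ↔ Rc ε M u v) :=
    fun u v hu hv => h.rc_iff hu hv
  refine ⟨{u | u.2 = e u.1 ∧ u.1 ∈ Ic (ex ε M) x x}, empty_subset _, ?_, ⟨?_, ?_, ?_⟩,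
    fun u hu => ⟨e u, rfl, hu⟩, ?_⟩
  · rintro ⟨u, v⟩ ⟨h1, h2⟩
    simp only at h1 h2
    subst h1
    refine ⟨h2, ?_⟩
    have h3 := hin u h2
    rw [mem_Ic, ex_adj, ex_adj] at h2 ⊢
    rw [hrc _ _ hx h3, hrc _ _ h3 hx]
    exact h2
  · rintro ⟨u, u'⟩ ⟨h1, h1'⟩ ⟨v, v'⟩ ⟨h2, h2'⟩
    simp only at h1 h2 h1' h2'
    subst h1 h2
    exact ⟨fun h' => congrArg e h', fun h' => h.bij.injOn (hin u h1') (hin v h2') h'⟩
  · rintro ⟨u, u'⟩ ⟨h1, h1'⟩ ⟨v, v'⟩ ⟨h2, h2'⟩
    simp only at h1 h2 h1' h2'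
    subst h1 h2
    simp only [ex]
    rw [decide_eq_decide, hrc _ _ (hin v h2') (hin u h1')]
  · intro i t ht
    have h1 : (fun k => (t k).2) = e ∘ fun k => (t k).1 := by
      funext k
      exact (ht k).1
    have h2 : ∀ k, ρ ((t k).1) = j := fun k => hin _ (ht k).2
    rw [h1]
    simp only [ex]
    by_cases hi : i = ε
    · rw [if_pos hi, if_pos hi, h.rel i _ h2]
      congr 1
      rw [decide_eq_decide]
      exact forall_congr' fun j => forall_congr' fun k => (hrc _ _ (h2 j) (h2 k)).symm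
    · rw [if_neg hi, if_neg hi, h.rel i _ h2]
  · intro v hv
    rw [mem_Ic, ex_adj, ex_adj, not_not, not_not] at hv
    have h1 : π v = q := by
      rw [← show π (e x) = q from h.bij.mapsTo hx]
      exact le_antisymm (h.hP.rc hv.2) (h.hP.rc hv.1)
    obtain ⟨u, hu, rfl⟩ := h.bij.surjOn (show v ∈ {z | π z = q} from h1)
    refine ⟨u, rfl, ?_⟩
    show u ∈ Ic (ex ε M) x x
    rw [mem_Ic, ex_adj, ex_adj, not_not, not_not]
    rw [hrc _ _ hx hu, hrc _ _ hu hx] at hv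
    exact hv

end sum

/-- Every point of every member `M` of `K` lies in a summand of `M` which is isomorphic to
infinitely many summands of a member of `K`. -/
def InfMult (ε : ℕ) (K : Set (RS a)) : Prop := ∀ M ∈ K, ∀ x : ℕ, ∃ (J : Type) (_ : LinearOrder J)
  (ρ : ℕ → J), OSum ε M ρ ∧ ∃ P ∈ K, ∃ (I : Type) (_ : LinearOrder I) (π : ℕ → I), OSum ε P π ∧
    {q | Fib M ρ (ρ x) P π q}.Infinite

/-- The class of the expansions. -/
def Kex (ε : ℕ) (K : Set (RS a)) : Set (St a) := {M | de ε M ∈ K ∧ ex ε (de ε M) = M}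

theorem ex_mem (hε : a ε = 2) {K : Set (RS a)} {R : RS a} (hR : R ∈ K) : ex ε R ∈ Kex ε K := by
  refine ⟨?_, ?_⟩
  · rw [de_ex hε]; exact hR
  · rw [de_ex hε]

theorem meas_Kex {K : Set (RS a)} (hK : MeasurableSet K) : MeasurableSet (Kex ε K) := by
  refine (meas_de hK).inter ?_
  have h1 : {M : St a | ex ε (de ε M) = M} =
      (⋂ x, ⋂ y, {M : St a | (ex ε (de ε M)).1 x y = M.1 x y}) ∩
      ⋂ i, ⋂ t, {M : St a | (ex ε (de ε M)).2 i t = M.2 i t} := by
    ext M
    simp only [mem_inter_iff, mem_iInter, Set.mem_ofPred_eq]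
    constructor
    · intro h
      rw [h]
      exact ⟨fun _ _ => rfl, fun _ _ => rfl⟩
    · rintro ⟨h, h'⟩
      exact Prod.ext (funext fun x => funext fun y => h x y) (funext fun i => funext fun t => h' i t)
  have h2 : Measurable fun M : St a => ex ε (de ε M) := meas_ex.comp meas_de
  show MeasurableSet {M : St a | ex ε (de ε M) = M}
  rw [h1]
  have key : ∀ f g : St a → Bool, Measurable f → Measurable g →
      MeasurableSet {M : St a | f M = g M} := by
    intro f g hf hg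
    have : {M : St a | f M = g M} = (f ⁻¹' {true} ∩ g ⁻¹' {true}) ∪ (f ⁻¹' {false} ∩ g ⁻¹' {false}) := by
      ext M
      simp only [Set.mem_ofPred_eq, mem_union, mem_inter_iff, mem_preimage, mem_singleton_iff]
      cases f M <;> cases g M <;> simp
    rw [this]
    exact ((hf (measurableSet_singleton _)).inter (hg (measurableSet_singleton _))).union
      ((hf (measurableSet_singleton _)).inter (hg (measurableSet_singleton _)))
  refine MeasurableSet.inter (MeasurableSet.iInter fun x => MeasurableSet.iInter fun y => ?_)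
    (MeasurableSet.iInter fun i => MeasurableSet.iInter fun t => ?_)
  · refine key _ _ ?_ ?_
    · exact (measurable_pi_apply y).comp ((measurable_pi_apply x).comp (measurable_fst.comp h2))
    · exact (measurable_pi_apply y).comp ((measurable_pi_apply x).comp measurable_fst)
  · refine key _ _ ?_ ?_
    · exact (measurable_pi_apply t).comp ((measurable_pi_apply i).comp (measurable_snd.comp h2))
    · exact (measurable_pi_apply t).comp ((measurable_pi_apply i).comp measurable_snd)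

theorem inv_Kex (hε : a ε = 2) {K : Set (RS a)} (hK : ∀ x y : RS a, RIso x y → (x ∈ K ↔ y ∈ K)) :
    ∀ M ∈ Kex ε K, ∀ N : St a, IsoOn M N univ univ ∅ → N ∈ Kex ε K := by
  rintro M ⟨hM1, hM2⟩ N hMN
  obtain ⟨σ, h1, h2⟩ := final_perm_of_iso hMN
  have h3 := de_perm hε σ h1 h2
  refine ⟨(hK _ _ ⟨σ, h3⟩).1 hM1, ?_⟩
  have h4 := ex_perm (ε := ε) σ h3
  rw [hM2] at h4
  exact st_ext_perm σ (fun x y => by rw [h1, h4.1]) (fun i v => by rw [h2, h4.2])

/-- The theorem for Borel classes. -/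
theorem borel (hε : a ε = 2) (K : Set (RS a)) (hK : MeasurableSet K)
    (hinv : ∀ x y : RS a, RIso x y → (x ∈ K ↔ y ∈ K)) (hm : InfMult ε K) : Dich K := by
  by_cases hg : ∃ g : (ℕ → Bool) → RS a, Continuous g ∧ (∀ c, g c ∈ K) ∧ ∀ c d : ℕ → Bool,
    RIso (g c) (g d) → c = d
  · exact Or.inr hg
  left
  obtain ⟨α₀, hα₀, hcl⟩ := closed_rank (meas_Kex (ε := ε) hK) (inv_Kex hε hinv)
  have hω : Ordinal.omega0 < Ordinal.omega.{0} 1 := by
    rw [← Ordinal.omega_zero]; exact Ordinal.omega_lt_omega.2 one_pos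
  have hG : G (max α₀ Ordinal.omega0) (Kex ε K) := by
    refine ⟨meas_Kex hK, max_lt hα₀ hω, le_max_right _ _, ?_, ?_, ?_⟩
    · exact fun M hM N hb => hcl M hM N (hb.mono (le_max_left _ _))
    · intro M hM
      rw [← hM.2]
      exact ex_os _
    · rintro ⟨g, hgc, hg1, hg2⟩
      refine hg ⟨fun c => de ε (g c), cont_de.comp hgc, fun c => (hg1 c).1, ?_⟩
      rintro c d ⟨σ, hσ⟩
      have h1 := ex_perm (ε := ε) σ hσ
      rw [(hg1 c).2, (hg1 d).2] at h1
      exact hg2 c d (final_iso_of_perm σ h1.1 h1.2)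
  have hR : Rep (Kex ε K) := by
    rintro M ⟨hM1, hM2⟩ x
    obtain ⟨J, _, ρ, hρ, P, hP, I, _, π, hπ, hinf⟩ := hm _ hM1 x
    refine ⟨ex ε P, ex_mem hε hP, ?_⟩
    let s : ℕ ↪ {q | Fib (de ε M) ρ (ρ x) P π q} := Set.Infinite.natEmbedding _ hinf
    choose e he1 he2 using fun i => (s i).2
    have hFI : ∀ i, FI ε (de ε M) ρ (ρ x) P π (s i) (e i) := fun i => ⟨hρ, hπ, he1 i, he2 i⟩
    refine ⟨fun i => e i x, ?_, ?_⟩
    · intro i j hij hmem
      rw [mem_Ic, ex_adj, ex_adj, not_not, not_not] at hmem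
      have h1 : π (e i x) = s i := (he1 i).mapsTo rfl
      have h2 : π (e j x) = s j := (he1 j).mapsTo rfl
      have h3 := le_antisymm (hπ.rc hmem.1) (hπ.rc hmem.2)
      rw [h1, h2] at h3
      exact hij (s.injective (Subtype.ext h3))
    · intro i
      have := (hFI i).block rfl
      rwa [hM2] at this
  obtain ⟨f, hf⟩ := main_os a _ _ hG (blkC_of_rep hG hR)
  refine ⟨fun n => de ε (f n), fun R hR' => ?_⟩
  obtain ⟨n, hn⟩ := hf _ (ex_mem hε hR')
  obtain ⟨σ, h1, h2⟩ := final_perm_of_iso hn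
  refine ⟨n, σ, ?_⟩
  have := de_perm hε σ h1 h2
  rwa [de_ex hε] at this

end Pool.Agent.H12A.OM
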