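import Pool.Agent.H12A.OM.Fo5

set_option autoImplicit false
set_option linter.unusedSectionVars false

/-!
# Corollaries: named summands
-/

namespace Pool.Agent.H12A.OM

open FirstOrder FirstOrder.Language Set
open Pool.Agent.H623R2.VE (term_var RIso)

variable {L : FirstOrder.Language.{0, 0}} [L.IsRelational] {M N : Type} {r : L.Relations 2}

theorem vec2_comp {A : Type} {n : ℕ} (v : Fin n → A) (i j : Fin n) :
    (fun k => v ((![i, j] : Fin 2 → Fin n) k)) = ![v i, v j] := by
  funext k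
  fin_cases k <;> rfl

theorem Rz_rel2 (S : L.Structure N) {n : ℕ} (R : L.Relations 2) (i j : Fin n) (v : Fin n → N) :
    Rz S (BoundedFormula.rel R (fun k => Term.var (Sum.inr ((![i, j] : Fin 2 → Fin n) k))) :
      L.BoundedFormula Empty n) v ↔ S.RelMap R ![v i, v j] := by
  rw [Rz_rel, vec2_comp]

/-- Relativisation to the class of a point. -/
theorem exists_relat (E : L.Relations 2) {n : ℕ} (φ : L.BoundedFormula Empty n) :
    ∃ ψ : L.BoundedFormula Empty (n + 1), ∀ (N : Type) (S : L.Structure N) (I : Type) (π : N → I)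
      (x : N), (∀ z, S.RelMap E ![x, z] ↔ π z = π x) → ∀ v : Fin n → {z : N // π z = π x},
      (Rz S ψ (Fin.cons x (fun k => (v k).1)) ↔ Rz (fibS S π (π x)) φ v) := by
  induction φ with
  | falsum => exact ⟨BoundedFormula.falsum, fun N S I π x h v => Iff.rfl⟩
  | @equal n t1 t2 =>
    obtain ⟨i, rfl⟩ := term_var t1
    obtain ⟨j, rfl⟩ := term_var t2
    refine ⟨BoundedFormula.equal (Term.var (Sum.inr i.succ)) (Term.var (Sum.inr j.succ)),
      fun N S I π x h v => ?_⟩
    have h1 : Rz (fibS S π (π x)) (BoundedFormula.equal (Term.var (Sum.inr i))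
      (Term.var (Sum.inr j)) : L.BoundedFormula Empty n) v ↔ v i = v j := Iff.rfl
    rw [Rz_eq, h1, Fin.cons_succ, Fin.cons_succ]
    exact Subtype.ext_iff.symm
  | @rel n l R ts =>
    choose i hi using fun k => term_var (ts k)
    obtain rfl : ts = fun k => Term.var (Sum.inr (i k)) := funext hi
    refine ⟨BoundedFormula.rel R (fun k => Term.var (Sum.inr (i k).succ)),
      fun N S I π x h v => ?_⟩
    rw [Rz_rel]
    exact Iff.rfl
  | @imp n f g ihf ihg =>
    obtain ⟨f', hf⟩ := ihf
    obtain ⟨g', hg⟩ := ihg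
    refine ⟨f'.imp g', fun N S I π x h v => ?_⟩
    rw [Rz_imp, Rz_imp, hf N S I π x h v, hg N S I π x h v]
  | @all n f ih =>
    obtain ⟨f', hf⟩ := ih
    refine ⟨((BoundedFormula.rel E (fun k => Term.var (Sum.inr
      ((![0, Fin.last (n + 1)] : Fin 2 → Fin (n + 2)) k)))).imp f').all,
      fun N S I π x h v => ?_⟩
    rw [Rz_all, Rz_all]
    have h0 : ∀ y : N, (Fin.snoc (Fin.cons x (fun k => (v k).1)) y : Fin (n + 2) → N) 0 = x := by
      intro y
      have : (0 : Fin (n + 2)) = Fin.castSucc 0 := rfl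
      rw [this, Fin.snoc_castSucc, Fin.cons_zero]
    have h1 : ∀ y : N, (Fin.snoc (Fin.cons x (fun k => (v k).1)) y : Fin (n + 2) → N)
        (Fin.last (n + 1)) = y := fun y => Fin.snoc_last _ _
    have h2 : ∀ y : {z : N // π z = π x},
        (Fin.snoc (Fin.cons x (fun k => (v k).1)) y.1 : Fin (n + 2) → N) =
        Fin.cons x (fun k => ((Fin.snoc v y : Fin (n + 1) → {z : N // π z = π x}) k).1) := by
      intro y
      rw [← Fin.cons_snoc_eq_snoc_cons]
      congr 1
      funext k
      refine Fin.lastCases ?_ (fun k => ?_) k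
      · rw [Fin.snoc_last, Fin.snoc_last]
      · rw [Fin.snoc_castSucc, Fin.snoc_castSucc]
    constructor
    · intro h3 y
      have h4 := h3 y.1
      rw [Rz_imp, Rz_rel2, h0, h1, h2] at h4
      exact (hf N S I π x h _).1 (h4 ((h y.1).2 y.2))
    · intro h3 y
      rw [Rz_imp, Rz_rel2, h0, h1]
      intro h4
      have h5 := h3 ⟨y, (h y).1 h4⟩
      have h6 := h2 ⟨y, (h y).1 h4⟩
      rw [h6]
      exact (hf N S I π x h _).2 h5

/-- The sentence that `θ` holds in the class of some point. -/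
theorem exists_relat_sentence (E : L.Relations 2) (θ : L.Sentence) :
    ∃ ψ : L.Sentence, ∀ (N : Type) (S : L.Structure N) (I : Type) (π : N → I),
      (∀ x z, S.RelMap E ![x, z] ↔ π z = π x) →
      (@Sentence.Realize L N S ψ ↔ ∃ x, @Sentence.Realize L _ (fibS S π (π x)) θ) := by
  obtain ⟨ψ, hψ⟩ := exists_relat E θ
  refine ⟨BoundedFormula.ex ψ, fun N S I π h => ?_⟩
  have h1 : @Sentence.Realize L N S (BoundedFormula.ex ψ) ↔ Rz S (BoundedFormula.ex ψ) default :=
    Iff.rfl
  rw [h1, Rz_ex]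
  refine exists_congr fun x => ?_
  have h2 : (Fin.snoc (default : Fin 0 → N) x : Fin 1 → N) =
      Fin.cons x (fun k => ((default : Fin 0 → {z : N // π z = π x}) k).1) := by
    funext k
    obtain rfl : k = 0 := Fin.fin_one_eq_zero k
    rfl
  rw [h2, hψ N S I π x (h x)]
  exact Rz_sentence _ θ _

/-- The properties of the relation `E` that can be expressed by sentences. -/
structure NamedSum (r E : L.Relations 2) (S : L.Structure N) : Prop where
  refl : ∀ x, S.RelMap E ![x, x]
  symm : ∀ x y, S.RelMap E ![x, y] → S.RelMap E ![y, x]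
  trans : ∀ x y z, S.RelMap E ![x, y] → S.RelMap E ![y, z] → S.RelMap E ![x, z]
  tot : ∀ x y, ¬ S.RelMap E ![x, y] → ¬ S.RelMap r ![x, y] → S.RelMap r ![y, x]
  asymm : ∀ x y, ¬ S.RelMap E ![x, y] → S.RelMap r ![x, y] → ¬ S.RelMap r ![y, x]
  tr1 : ∀ x y z, ¬ S.RelMap E ![x, y] → S.RelMap r ![x, y] → ¬ S.RelMap E ![y, z] →
    S.RelMap r ![y, z] → ¬ S.RelMap E ![x, z]
  tr2 : ∀ x y z, ¬ S.RelMap E ![x, y] → S.RelMap r ![x, y] → ¬ S.RelMap E ![y, z] →
    S.RelMap r ![y, z] → S.RelMap r ![x, z]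
  cl : ∀ x y z, S.RelMap E ![x, y] → ¬ S.RelMap E ![x, z] → S.RelMap r ![x, z] →
    S.RelMap r ![y, z]
  cr : ∀ x y z, S.RelMap E ![x, y] → ¬ S.RelMap E ![x, z] → S.RelMap r ![z, x] →
    S.RelMap r ![z, y]
  loc : ∀ (n : ℕ) (R : L.Relations n), (⟨n, R⟩ : Σ n, L.Relations n) ≠ ⟨2, r⟩ →
    ∀ t, S.RelMap R t → ∀ j k, S.RelMap E ![t j, t k]

theorem NamedSum.of_fsum {E : L.Relations 2} {S : L.Structure N} {I : Type} [LinearOrder I]
    {π : N → I} (h : FSum r S π) (hE : ∀ x z, S.RelMap E ![x, z] ↔ π z = π x) :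
    NamedSum r E S := by
  have key : ∀ x y, ¬ S.RelMap E ![x, y] → S.RelMap r ![x, y] → π x < π y := by
    intro x y h1 h2
    rcases lt_trichotomy (π x) (π y) with h3 | h3 | h3
    · exact h3
    · exact absurd ((hE x y).2 h3.symm) h1
    · exact absurd h2 (h.lt y x h3).2
  refine ⟨fun x => (hE x x).2 rfl, fun x y h1 => (hE y x).2 ((hE x y).1 h1).symm,
    fun x y z h1 h2 => (hE x z).2 (((hE y z).1 h2).trans ((hE x y).1 h1)), fun x y h1 h2 => ?_,
    fun x y h1 h2 => (h.lt x y (key x y h1 h2)).2,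
    fun x y z h1 h2 h3 h4 h5 => ?_, fun x y z h1 h2 h3 h4 => ?_, fun x y z h1 h2 h3 => ?_,
    fun x y z h1 h2 h3 => ?_, fun n R hR t ht j k => (hE _ _).2 (h.loc n R hR t ht k j)⟩
  · rcases lt_trichotomy (π x) (π y) with h3 | h3 | h3
    · exact absurd (h.lt x y h3).1 h2
    · exact absurd ((hE x y).2 h3.symm) h1
    · exact (h.lt y x h3).1
  · have h6 := (key x y h1 h2).trans (key y z h3 h4)
    exact h6.ne ((hE x z).1 h5).symm
  · exact (h.lt x z ((key x y h1 h2).trans (key y z h3 h4))).1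
  · have h4 := key x z h2 h3
    rw [← (hE x y).1 h1] at h4
    exact (h.lt y z h4).1
  · rcases lt_trichotomy (π z) (π x) with h4 | h4 | h4
    · rw [← (hE x y).1 h1] at h4
      exact (h.lt z y h4).1
    · exact absurd ((hE x z).2 h4) h2
    · exact absurd h3 (h.lt x z h4).2

/-- The atomic formula `R(x_i, x_j)`. -/
def at2 {n : ℕ} (R : L.Relations 2) (i j : Fin n) : L.BoundedFormula Empty n :=
  BoundedFormula.rel R (fun k => Term.var (Sum.inr ((![i, j] : Fin 2 → Fin n) k)))

theorem Rz_at2 (S : L.Structure N) {n : ℕ} (R : L.Relations 2) (i j : Fin n) (v : Fin n → N) :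
    Rz S (at2 R i j) v ↔ S.RelMap R ![v i, v j] := Rz_rel2 S R i j v

theorem EE.all {S : L.Structure M} {S' : L.Structure N} (h : EE S S') {n : ℕ}
    (φ : L.BoundedFormula Empty n) (hS : ∀ v, Rz S φ v) : ∀ v, Rz S' φ v := by
  have h1 : @Sentence.Realize L M S φ.alls := by
    let _ := S
    exact (BoundedFormula.realize_alls (v := default)).2 hS
  have h2 := (h _).1 h1
  let _ := S'
  exact (BoundedFormula.realize_alls (v := default)).1 h2

theorem NamedSum.of_ee {E : L.Relations 2} {S : L.Structure M} {S' : L.Structure N}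
    (h : NamedSum r E S) (he : EE S S') : NamedSum r E S' := by
  refine ⟨fun x => ?_, fun x y => ?_, fun x y z => ?_, fun x y => ?_, fun x y => ?_,
    fun x y z => ?_, fun x y z => ?_, fun x y z => ?_, fun x y z => ?_,
    fun n R hR t ht j k => ?_⟩
  · have h1 := he.all (n := 1) (at2 E 0 0) (fun v => by
      simp only [Rz_at2]
      exact h.refl _) ![x]
    simp only [Rz_at2] at h1
    exact h1
  · have h1 := he.all (n := 2) ((at2 E 0 1).imp (at2 E 1 0)) (fun v => by
      simp only [Rz_imp, Rz_at2]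
      exact h.symm _ _) ![x, y]
    simp only [Rz_imp, Rz_at2] at h1
    exact h1
  · have h1 := he.all (n := 3) ((at2 E 0 1).imp ((at2 E 1 2).imp (at2 E 0 2))) (fun v => by
      simp only [Rz_imp, Rz_at2]
      exact h.trans _ _ _) ![x, y, z]
    simp only [Rz_imp, Rz_at2] at h1
    exact h1
  · have h1 := he.all (n := 2) ((at2 E 0 1).not.imp ((at2 r 0 1).not.imp (at2 r 1 0)))
      (fun v => by
        simp only [Rz_imp, Rz_not, Rz_at2]
        exact h.tot _ _) ![x, y]
    simp only [Rz_imp, Rz_not, Rz_at2] at h1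
    exact h1
  · have h1 := he.all (n := 2) ((at2 E 0 1).not.imp ((at2 r 0 1).imp (at2 r 1 0).not))
      (fun v => by
        simp only [Rz_imp, Rz_not, Rz_at2]
        exact h.asymm _ _) ![x, y]
    simp only [Rz_imp, Rz_not, Rz_at2] at h1
    exact h1
  · have h1 := he.all (n := 3) ((at2 E 0 1).not.imp ((at2 r 0 1).imp ((at2 E 1 2).not.imp
      ((at2 r 1 2).imp (at2 E 0 2).not)))) (fun v => by
        simp only [Rz_imp, Rz_not, Rz_at2]
        exact h.tr1 _ _ _) ![x, y, z]
    simp only [Rz_imp, Rz_not, Rz_at2] at h1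
    exact h1
  · have h1 := he.all (n := 3) ((at2 E 0 1).not.imp ((at2 r 0 1).imp ((at2 E 1 2).not.imp
      ((at2 r 1 2).imp (at2 r 0 2))))) (fun v => by
        simp only [Rz_imp, Rz_not, Rz_at2]
        exact h.tr2 _ _ _) ![x, y, z]
    simp only [Rz_imp, Rz_not, Rz_at2] at h1
    exact h1
  · have h1 := he.all (n := 3) ((at2 E 0 1).imp ((at2 E 0 2).not.imp ((at2 r 0 2).imp
      (at2 r 1 2)))) (fun v => by
        simp only [Rz_imp, Rz_not, Rz_at2]
        exact h.cl _ _ _) ![x, y, z]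
    simp only [Rz_imp, Rz_not, Rz_at2] at h1
    exact h1
  · have h1 := he.all (n := 3) ((at2 E 0 1).imp ((at2 E 0 2).not.imp ((at2 r 2 0).imp
      (at2 r 2 1)))) (fun v => by
        simp only [Rz_imp, Rz_not, Rz_at2]
        exact h.cr _ _ _) ![x, y, z]
    simp only [Rz_imp, Rz_not, Rz_at2] at h1
    exact h1
  · have h1 := he.all (n := n) ((BoundedFormula.rel R (fun k => Term.var (Sum.inr (id k)))).imp
      (at2 E j k)) (fun v => by
        simp only [Rz_imp, Rz_rel, Rz_at2]
        exact fun h2 => h.loc n R hR _ h2 j k) t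
    simp only [Rz_imp, Rz_rel, Rz_at2] at h1
    exact h1 ht

theorem exists_lo {J : Type} (le : J → J → Prop) (h1 : ∀ a, le a a)
    (h2 : ∀ a b c, le a b → le b c → le a c) (h3 : ∀ a b, le a b → le b a → a = b)
    (h4 : ∀ a b, le a b ∨ le b a) : ∃ lo : LinearOrder J, ∀ a b, lo.le a b ↔ le a b :=
  ⟨{  le := le
      le_refl := h1
      le_trans := h2
      le_antisymm := h3
      le_total := h4
      toDecidableLE := Classical.decRel _ }, fun _ _ => Iff.rfl⟩

/-- The decomposition of a structure on `ℕ`. -/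
theorem NamedSum.exists_sum {E : L.Relations 2} {S : L.Structure ℕ} (h : NamedSum r E S) :
    ∃ (J : Type) (_ : LinearOrder J) (ρ : ℕ → J), FSum r S ρ ∧
      ∀ x z, S.RelMap E ![x, z] ↔ ρ z = ρ x := by
  classical
  let st : Setoid ℕ := ⟨fun x y => S.RelMap E ![x, y], fun x => h.refl x,
    fun {x y} h1 => h.symm x y h1, fun {x y z} h1 h2 => h.trans x y z h1 h2⟩
  obtain ⟨J, ρ, σ, hρ, hσ⟩ : ∃ (J : Type) (ρ : ℕ → J) (σ : J → ℕ),
      (∀ x z, S.RelMap E ![x, z] ↔ ρ z = ρ x) ∧ ∀ j, ρ (σ j) = j :=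
    ⟨Quotient st, Quotient.mk st, Quotient.out,
      fun x z => ⟨fun h1 => (Quotient.sound (s := st) h1).symm,
        fun h1 => Quotient.exact (s := st) h1.symm⟩, fun j => Quotient.out_eq j⟩
  have hE : ∀ x, S.RelMap E ![σ (ρ x), x] := fun x => (hρ _ _).2 (hσ _).symm
  have hJ : ∀ j j' : J, j ≠ j' → ¬ S.RelMap E ![σ j, σ j'] := by
    intro j j' hjj h1
    have h2 := (hρ _ _).1 h1
    rw [hσ, hσ] at h2
    exact hjj h2.symm
  obtain ⟨lo, hlo⟩ := exists_lo (fun j j' : J => j = j' ∨ S.RelMap r ![σ j, σ j'] ∧ j ≠ j')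
    (fun j => Or.inl rfl) (by
      rintro a b c (rfl | ⟨h1, h2⟩) (rfl | ⟨h3, h4⟩)
      · exact Or.inl rfl
      · exact Or.inr ⟨h3, h4⟩
      · exact Or.inr ⟨h1, h2⟩
      · refine Or.inr ⟨h.tr2 _ _ _ (hJ _ _ h2) h1 (hJ _ _ h4) h3, ?_⟩
        rintro rfl
        exact h.tr1 _ _ _ (hJ _ _ h2) h1 (hJ _ _ h4) h3 (h.refl _)) (by
      rintro a b (h1 | ⟨h1, h2⟩) (h3 | ⟨h3, h4⟩)
      · exact h1
      · exact h1
      · exact h3.symm
      · exact absurd h3 (h.asymm _ _ (hJ _ _ h2) h1)) (by
      intro a b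
      by_cases hab : a = b
      · exact Or.inl (Or.inl hab)
      · by_cases h1 : S.RelMap r ![σ a, σ b]
        · exact Or.inl (Or.inr ⟨h1, hab⟩)
        · exact Or.inr (Or.inr ⟨h.tot _ _ (hJ _ _ hab) h1, fun h2 => hab h2.symm⟩))
  refine ⟨J, lo, ρ, ⟨fun x y hxy => ?_, fun n R hR t ht j k => ?_⟩, hρ⟩
  · have hne : ρ x ≠ ρ y := hxy.ne
    have h2 : S.RelMap r ![σ (ρ x), σ (ρ y)] := by
      rcases (hlo _ _).1 hxy.le with h1 | h1
      · exact absurd h1 hne
      · exact h1.1
    have h3 : ¬ S.RelMap E ![x, y] := fun h4 => hne ((hρ x y).1 h4).symm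
    have h4 : ¬ S.RelMap E ![σ (ρ x), σ (ρ y)] := hJ _ _ hne
    have h5 : S.RelMap r ![x, σ (ρ y)] := h.cl _ _ _ (hE x) h4 h2
    have h6 : S.RelMap r ![x, y] := by
      refine h.cr (σ (ρ y)) y x (hE y) (fun h7 => ?_) h5
      exact h3 (h.symm _ _ (h.trans _ _ _ (h.symm _ _ (hE y)) h7))
    exact ⟨h6, h.asymm _ _ h3 h6⟩
  · exact ((hρ _ _).1 (h.loc n R hR t ht k j))

theorem EE.of_model {S : L.Structure M} {S' : L.Structure N}
    (h : @Theory.Model L N S' {φ | @Sentence.Realize L M S φ}) : EE S S' := by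
  have h1 : ∀ φ, @Sentence.Realize L M S φ → @Sentence.Realize L N S' φ := fun φ hφ =>
    @Theory.Model.realize_of_mem L N S' {φ | @Sentence.Realize L M S φ} h φ hφ
  intro φ
  refine ⟨h1 φ, fun h2 => ?_⟩
  by_contra h3
  exact h1 φ.not h3 h2

theorem model_self (S : L.Structure M) :
    @Theory.Model L M S {φ | @Sentence.Realize L M S φ} :=
  @Theory.Model.mk L M S {φ | @Sentence.Realize L M S φ} fun _ hφ => hφ

/-- Complete theories of ordered sums with named summands such that each first-order property of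
a summand is shared by infinitely many summands. -/
theorem loc_of_named {E : L.Relations 2} {P : L.Structure N} {I : Type} [LinearOrder I]
    {π : N → I} (h : FSum r P π) (hE : ∀ x z, P.RelMap E ![x, z] ↔ π z = π x)
    (hinf : ∀ (θ : L.Sentence) (x : N), @Sentence.Realize L _ (fibS P π (π x)) θ →
      {i | @Sentence.Realize L _ (fibS P π i) θ}.Infinite) :
    Loc r {φ | @Sentence.Realize L N P φ} := by
  intro S hS x
  have he : EE P S := EE.of_model hS
  obtain ⟨J, lo, ρ, hρ, hρE⟩ := ((NamedSum.of_fsum h hE).of_ee he).exists_sum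
  refine ⟨J, lo, ρ, hρ, fun θ hθ n => ?_⟩
  obtain ⟨ψ, hψ⟩ := exists_relat_sentence E θ
  have h1 : @Sentence.Realize L ℕ S ψ := (hψ ℕ S J ρ hρE).2 ⟨x, hθ⟩
  obtain ⟨y, hy⟩ := (hψ N P I π hE).1 ((he ψ).2 h1)
  obtain ⟨s, hs, hsn⟩ := (hinf θ y hy).exists_subset_card_eq n
  exact ⟨N, I, inferInstance, P, π, model_self P, h, s, hsn.ge, fun i hi => hs hi⟩

/-- Complete theories of structures with two different elementarily equivalent summands. -/
theorem dbl_of_two {P : L.Structure N} {I : Type} [LinearOrder I] {π : N → I} (h : FSum r P π)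
    {p q : I} (hpq : p ≠ q) (hp : EE P (fibS P π p)) (hq : EE P (fibS P π q)) :
    Dbl r {φ | @Sentence.Realize L N P φ} := by
  intro S hS
  have he : EE P S := EE.of_model hS
  exact ⟨N, I, inferInstance, P, π, model_self P, h, p, q, hpq, he.symm.trans hp,
    he.symm.trans hq⟩

/-- The ordered multiple of `S` by `D`. -/
@[reducible] def multi (r : L.Relations 2) (D : Type) [LT D] (S : L.Structure M) :
    L.Structure (D × M) where
  funMap f := isEmptyElim f
  RelMap {n} R t := ((∀ j k, (t j).1 = (t k).1) ∧ S.RelMap R (fun k => (t k).2)) ∨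
    ((⟨n, R⟩ : Σ n, L.Relations n) = ⟨2, r⟩ ∧ ∀ j k, j < k → (t j).1 < (t k).1)

theorem multi_fsum (D : Type) [LinearOrder D] (S : L.Structure M) :
    FSum r (multi r D S) Prod.fst := by
  refine ⟨fun x y hxy => ⟨Or.inr ⟨rfl, fun j k hjk => ?_⟩, ?_⟩, fun n R hR t ht j k => ?_⟩
  · fin_cases j <;> fin_cases k
    · exact absurd hjk (lt_irrefl _)
    · exact hxy
    · exact absurd hjk (by decide)
    · exact absurd hjk (lt_irrefl _)
  · rintro (⟨h1, -⟩ | ⟨-, h1⟩)
    · exact hxy.ne (h1 1 0)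
    · exact lt_asymm hxy (h1 0 1 (by decide))
  · rcases ht with ⟨h1, -⟩ | ⟨h1, -⟩
    · exact h1 j k
    · exact absurd h1 hR

theorem multi_fib (D : Type) [LinearOrder D] (S : L.Structure M) (d : D) :
    RIso S (fibS (multi r D S) Prod.fst d) := by
  refine ⟨⟨fun m => ⟨(d, m), rfl⟩, fun z => z.1.2, fun m => rfl, fun z => ?_⟩, fun {n} R t => ?_⟩
  · apply Subtype.ext
    exact Prod.ext z.2.symm rfl
  · constructor
    · intro h
      exact Or.inl ⟨fun _ _ => rfl, h⟩
    · rintro (⟨-, h⟩ | ⟨h1, h2⟩)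
      · exact h
      · obtain rfl : n = 2 := congrArg Sigma.fst h1
        exact absurd (h2 0 1 (by decide)) (lt_irrefl _)

/-- Infinitely many copies, with the copies named by `E`. -/
theorem loc_multi {E : L.Relations 2} (hrE : E ≠ r) (D : Type) [LinearOrder D] [Infinite D]
    (S : L.Structure M) (hS : ∀ x y, S.RelMap E ![x, y]) :
    Loc r {φ | @Sentence.Realize L (D × M) (multi r D S) φ} := by
  refine loc_of_named (E := E) (multi_fsum D S) (fun x z => ?_) fun θ x hθ => ?_
  · constructor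
    · rintro (⟨h1, -⟩ | ⟨h1, -⟩)
      · exact h1 1 0
      · exact absurd (eq_of_heq (Sigma.ext_iff.1 h1).2) hrE
    · intro h1
      refine Or.inl ⟨fun j k => ?_, ?_⟩
      · fin_cases j <;> fin_cases k
        · rfl
        · exact h1.symm
        · exact h1
        · rfl
      · have h2 : (fun k => ((![x, z] : Fin 2 → D × M) k).2) = ![x.2, z.2] := by
          funext k
          fin_cases k <;> rfl
        rw [h2]
        exact hS _ _
  · have h1 : {i : D | @Sentence.Realize L _ (fibS (multi r D S) Prod.fst i) θ} = univ := by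
      refine eq_univ_of_forall fun i => ?_
      exact (EE.of_riso (multi_fib D S i) θ).1
        ((EE.of_riso (multi_fib D S x.1) θ).2 hθ)
    rw [h1]
    exact infinite_univ

/-- Multiples by orders `D` with `D ≅ D + D`. -/
theorem dbl_multi (D : Type) [LinearOrder D] (e : D ≃o (D ⊕ₗ D)) (S : L.Structure M) :
    Dbl r {φ | @Sentence.Realize L (D × M) (multi r D S) φ} := by
  classical
  let side : D → Bool := fun d => Sum.elim (fun _ => false) (fun _ => true) (ofLex (e d))
  have hside : ∀ d d', side d < side d' → d < d' := by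
    intro d d' h
    rw [← e.lt_iff_lt]
    cases h1 : ofLex (e d) with
    | inl a =>
      cases h2 : ofLex (e d') with
      | inl b => simp [side, h1, h2] at h
      | inr b =>
        rw [← toLex_ofLex (e d), ← toLex_ofLex (e d'), h1, h2]
        exact Sum.Lex.inl_lt_inr _ _
    | inr a =>
      cases h2 : ofLex (e d') with
      | inl b =>
        simp [side, h1, h2] at h
        exact absurd h (by decide)
      | inr b => simp [side, h1, h2] at h
  have hsum : FSum r (multi r D S) (fun x => side x.1) := by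
    have h := multi_fsum (r := r) D S
    refine ⟨fun x y hxy => h.lt x y (hside _ _ hxy), fun n R hR t ht j k => ?_⟩
    exact congrArg side (h.loc n R hR t ht j k)
  -- the two summands
  have key : ∀ (b : Bool) (f : D → D), (∀ d d', f d < f d' ↔ d < d') → (∀ d, side (f d) = b) →
      (∀ d, side d = b → ∃ d', f d' = d) →
      EE (multi r D S) (fibS (multi r D S) (fun x => side x.1) b) := by
    intro b f hf hfb hfs
    have hinj : Function.Injective f := by
      intro d d' hdd
      by_contra hne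
      rcases lt_or_gt_of_ne hne with h | h
      · exact ((hf _ _).2 h).ne hdd
      · exact ((hf _ _).2 h).ne hdd.symm
    choose g hg using hfs
    refine EE.of_riso ⟨⟨fun x => ⟨(f x.1, x.2), hfb _⟩, fun y => (g y.1.1 y.2, y.1.2),
      fun x => ?_, fun y => ?_⟩, fun {n} R t => ?_⟩
    · exact Prod.ext (hinj (hg _ _)) rfl
    · exact Subtype.ext (Prod.ext (hg _ _) rfl)
    · refine or_congr (and_congr ?_ Iff.rfl) (and_congr_right fun _ => ?_)
      · exact forall_congr' fun j => forall_congr' fun k => hinj.eq_iff.symm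
      · exact forall_congr' fun j => forall_congr' fun k => imp_congr_right fun _ => (hf _ _).symm
  refine dbl_of_two hsum (p := false) (q := true) (by decide) ?_ ?_
  · refine key false (fun d => e.symm (toLex (Sum.inl d))) (fun d d' => ?_) (fun d => ?_)
      fun d hd => ?_
    · rw [e.symm.lt_iff_lt, Sum.Lex.inl_lt_inl_iff]
    · simp [side]
    · cases h1 : ofLex (e d) with
      | inl a =>
        refine ⟨a, ?_⟩
        rw [← h1, toLex_ofLex, e.symm_apply_apply]
      | inr a => simp [side, h1] at hd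
  · refine key true (fun d => e.symm (toLex (Sum.inr d))) (fun d d' => ?_) (fun d => ?_)
      fun d hd => ?_
    · rw [e.symm.lt_iff_lt, Sum.Lex.inr_lt_inr_iff]
    · simp [side]
    · cases h1 : ofLex (e d) with
      | inl a => simp [side, h1] at hd
      | inr a =>
        refine ⟨a, ?_⟩
        rw [← h1, toLex_ofLex, e.symm_apply_apply]

end Pool.Agent.H12A.OM
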