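import Pool.Agent.H12A.OM.Blk

set_option autoImplicit false

/-!
# The canonical decomposition of a structure as an ordered sum
-/

namespace Pool.Agent.H12A.OM

open Set MeasureTheory
open Pool.Agent.H899R2.VP hiding RS
open Pool.Agent.H533R2.VO

/-- The tuple `(u, v)`. -/
def pair {n : ℕ} (u v : ℕ) : Fin n → ℕ := fun j => if j.val = 0 then u else v

/-- The entry number `k` of a tuple. -/
def ent {n : ℕ} (t : Fin n → ℕ) (k : ℕ) : ℕ := if h : k < n then t ⟨k, h⟩ else 0

theorem comp_pair {n : ℕ} (e : ℕ → ℕ) (u v : ℕ) : e ∘ (pair u v : Fin n → ℕ) = pair (e u) (e v) := by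
  funext j
  simp only [Function.comp, pair]
  split_ifs <;> rfl

theorem pair_ent {n : ℕ} (hn : n = 2) (t : Fin n → ℕ) : pair (ent t 0) (ent t 1) = t := by
  subst hn
  funext j
  fin_cases j <;> simp [pair, ent]

theorem ent_pair {n : ℕ} (hn : n = 2) (u v : ℕ) :
    ent (pair u v : Fin n → ℕ) 0 = u ∧ ent (pair u v : Fin n → ℕ) 1 = v := by
  subst hn
  simp [pair, ent]

theorem ent_comp {n : ℕ} (e : ℕ → ℕ) (t : Fin n → ℕ) {k : ℕ} (hk : k < n) :
    ent (e ∘ t) k = e (ent t k) := by
  simp [ent, hk]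

variable {a : ℕ → ℕ} {ε : ℕ}

/-- `x` is before `y` and there is no other relation between `x` and `y`. -/
def Pre (ε : ℕ) (R : RS a) (x y : ℕ) : Prop :=
  R ε (pair x y) = true ∧ R ε (pair y x) = false ∧
    ∀ i, i ≠ ε → ∀ t, R i t = true → ¬ ((∃ j, t j = x) ∧ ∃ k, t k = y)

/-- Reachability in `n` steps. -/
def Rn (ε : ℕ) (R : RS a) : ℕ → ℕ → ℕ → Prop
  | 0, u, v => u = v
  | n + 1, u, v => ∃ w, ¬ Pre ε R w u ∧ Rn ε R n w v

/-- Reachability. -/
def Rc (ε : ℕ) (R : RS a) (u v : ℕ) : Prop := ∃ n, Rn ε R n u v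

theorem Pre.asymm {R : RS a} {x y : ℕ} (h : Pre ε R x y) : ¬ Pre ε R y x := by
  intro h'
  have := h.2.1
  rw [h'.1] at this
  simp at this

theorem Rn.trans {R : RS a} {n m u v w : ℕ} (h : Rn ε R n u v) (h' : Rn ε R m v w) :
    Rn ε R (n + m) u w := by
  induction n generalizing u with
  | zero =>
    have : u = v := h
    subst this
    rwa [Nat.zero_add]
  | succ n ih =>
    obtain ⟨z, hz, hz'⟩ := h
    have h1 := ih hz'
    have e : n + 1 + m = (n + m) + 1 := by omega
    rw [e]
    exact ⟨z, hz, h1⟩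

theorem Rc.trans {R : RS a} {u v w : ℕ} (h : Rc ε R u v) (h' : Rc ε R v w) : Rc ε R u w := by
  obtain ⟨n, h⟩ := h
  obtain ⟨m, h'⟩ := h'
  exact ⟨n + m, h.trans h'⟩

theorem Rc.refl (R : RS a) (u : ℕ) : Rc ε R u u := ⟨0, rfl⟩

theorem Rc.of_not_pre {R : RS a} {u v : ℕ} (h : ¬ Pre ε R v u) : Rc ε R u v := ⟨1, v, h, rfl⟩

theorem Rc.total (R : RS a) (u v : ℕ) : Rc ε R u v ∨ Rc ε R v u := by
  by_cases h : Pre ε R v u
  · exact Or.inr (Rc.of_not_pre h.asymm)
  · exact Or.inl (Rc.of_not_pre h)

theorem pre_of_not_rc {R : RS a} {u v : ℕ} (h : ¬ Rc ε R u v) : Pre ε R v u := by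
  by_contra h'
  exact h (Rc.of_not_pre h')

open Classical in
/-- The canonical expansion: the order of the pieces, and the relations inside the pieces. -/
noncomputable def ex (ε : ℕ) (R : RS a) : St a :=
  (fun x y => decide (¬ Rc ε R y x),
   fun i t => if i = ε then (R i t && decide (∀ j k, Rc ε R (t j) (t k))) else R i t)

/-- The inverse operation. -/
def de (ε : ℕ) (M : St a) : RS a :=
  fun i t => if i = ε then (M.2 i t || M.1 (ent t 0) (ent t 1)) else M.2 i t

theorem ex_adj {R : RS a} {x y : ℕ} : Adj (ex ε R) x y ↔ ¬ Rc ε R y x := by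
  simp [Adj, ex]

theorem ex_os (R : RS a) : OS (ex ε R) := by
  classical
  refine ⟨fun x => ?_, fun x y z => ?_, fun x y z => ?_, ?_⟩
  · rw [ex_adj, not_not]
    exact Rc.refl R x
  · rw [ex_adj, ex_adj, ex_adj]
    intro h1 h2 h3
    have h4 : Rc ε R x y := (Rc.total R x y).resolve_right h1
    exact h2 (h3.trans h4)
  · rw [ex_adj, ex_adj, ex_adj]
    intro h
    by_contra hcon
    push Not at hcon
    exact h (hcon.2.trans hcon.1)
  · intro i t ht j k
    rw [ex_adj, not_not]
    by_cases hi : i = ε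
    · have h1 : (R i t && decide (∀ j k, Rc ε R (t j) (t k))) = true := by
        have h2 : (ex ε R).2 i t = (R i t && decide (∀ j k, Rc ε R (t j) (t k))) := if_pos hi
        rw [← h2]; exact ht
      rw [Bool.and_eq_true, decide_eq_true_iff] at h1
      exact h1.2 k j
    · have h1 : R i t = true := by
        have h2 : (ex ε R).2 i t = R i t := if_neg hi
        rw [← h2]; exact ht
      by_contra hcon
      exact (pre_of_not_rc hcon).2.2 i hi t h1 ⟨⟨j, rfl⟩, ⟨k, rfl⟩⟩

theorem de_ex (hε : a ε = 2) (R : RS a) : de ε (ex ε R) = R := by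
  classical
  funext i t
  by_cases hi : i = ε
  · subst hi
    have h1 : de i (ex i R) i t = ((R i t && decide (∀ j k, Rc i R (t j) (t k))) ||
        decide (¬ Rc i R (ent t 1) (ent t 0))) := by
      simp [de, ex]
    rw [h1]
    set x := ent t 0 with hx
    set y := ent t 1 with hy
    have ht : pair x y = t := pair_ent hε t
    by_cases h2 : Rc i R y x
    · by_cases h3 : Rc i R x y
      · have h4 : ∀ j k, Rc i R (t j) (t k) := by
          intro j k
          rw [← ht]
          simp only [pair]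
          split_ifs
          · exact Rc.refl R x
          · exact h3
          · exact h2
          · exact Rc.refl R y
        simp [h4, h2]
      · have h4 := pre_of_not_rc h3
        have h5 : R i t = false := by rw [← ht]; exact h4.2.1
        simp [h5, h2]
    · have h4 := pre_of_not_rc h2
      have h5 : R i t = true := by rw [← ht]; exact h4.1
      simp [h5, h2]
  · have h1 : de ε (ex ε R) i t = (ex ε R).2 i t := if_neg hi
    have h2 : (ex ε R).2 i t = R i t := if_neg hi
    rw [h1, h2]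

/-! ### Isomorphisms -/

theorem rel_pair {R R' : RS a} (e : ℕ → ℕ) (h : ∀ (i : ℕ) (v : Fin (a i) → ℕ), R' i (e ∘ v) = R i v)
    (x y : ℕ) : R' ε (pair (e x) (e y)) = R ε (pair x y) := by
  rw [← comp_pair, h]

theorem pre_perm {R R' : RS a} (σ : Equiv.Perm ℕ)
    (h : ∀ (i : ℕ) (v : Fin (a i) → ℕ), R' i (⇑σ ∘ v) = R i v) (x y : ℕ) :
    Pre ε R' (σ x) (σ y) ↔ Pre ε R x y := by
  unfold Pre
  rw [rel_pair (ε := ε) σ h, rel_pair (ε := ε) σ h]
  refine and_congr_right fun _ => and_congr_right fun _ => ?_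
  constructor
  · rintro h1 i hi t ht ⟨⟨j, hj⟩, ⟨k, hk⟩⟩
    exact h1 i hi (σ ∘ t) (by rw [h]; exact ht) ⟨⟨j, by simp [hj]⟩, ⟨k, by simp [hk]⟩⟩
  · rintro h1 i hi t ht ⟨⟨j, hj⟩, ⟨k, hk⟩⟩
    refine h1 i hi (σ.symm ∘ t) ?_ ⟨⟨j, by simp [hj]⟩, ⟨k, by simp [hk]⟩⟩
    rw [← h]
    have : ⇑σ ∘ (⇑σ.symm ∘ t) = t := by ext; simp
    rw [this]; exact ht

theorem rn_perm {R R' : RS a} (σ : Equiv.Perm ℕ)
    (h : ∀ (i : ℕ) (v : Fin (a i) → ℕ), R' i (⇑σ ∘ v) = R i v) (n x y : ℕ) :
    Rn ε R' n (σ x) (σ y) ↔ Rn ε R n x y := by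
  induction n generalizing x with
  | zero => exact σ.injective.eq_iff
  | succ n ih =>
    constructor
    · rintro ⟨w, h1, h2⟩
      refine ⟨σ.symm w, ?_, ?_⟩
      · rw [← pre_perm σ h]; simpa using h1
      · rw [← ih]; simpa using h2
    · rintro ⟨w, h1, h2⟩
      exact ⟨σ w, by rwa [pre_perm σ h], by rwa [ih]⟩

theorem rc_perm {R R' : RS a} (σ : Equiv.Perm ℕ)
    (h : ∀ (i : ℕ) (v : Fin (a i) → ℕ), R' i (⇑σ ∘ v) = R i v) (x y : ℕ) :
    Rc ε R' (σ x) (σ y) ↔ Rc ε R x y :=
  exists_congr fun n => rn_perm σ h n x y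

theorem ex_perm {R R' : RS a} (σ : Equiv.Perm ℕ)
    (h : ∀ (i : ℕ) (v : Fin (a i) → ℕ), R' i (⇑σ ∘ v) = R i v) :
    (∀ x y, (ex ε R').1 (σ x) (σ y) = (ex ε R).1 x y) ∧
    ∀ (i : ℕ) (v : Fin (a i) → ℕ), (ex ε R').2 i (⇑σ ∘ v) = (ex ε R).2 i v := by
  constructor
  · intro x y
    simp only [ex]
    rw [decide_eq_decide, rc_perm σ h]
  · intro i v
    simp only [ex]
    by_cases hi : i = ε
    · rw [if_pos hi, if_pos hi, h]
      congr 1
      rw [decide_eq_decide]
      exact forall_congr' fun j => forall_congr' fun k => rc_perm σ h _ _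
    · rw [if_neg hi, if_neg hi, h]

theorem de_perm (hε : a ε = 2) {M N : St a} (σ : Equiv.Perm ℕ)
    (h1 : ∀ x y, N.1 (σ x) (σ y) = M.1 x y)
    (h2 : ∀ (i : ℕ) (v : Fin (a i) → ℕ), N.2 i (⇑σ ∘ v) = M.2 i v) :
    ∀ (i : ℕ) (v : Fin (a i) → ℕ), de ε N i (⇑σ ∘ v) = de ε M i v := by
  intro i v
  simp only [de]
  by_cases hi : i = ε
  · rw [if_pos hi, if_pos hi, h2, ent_comp σ v (by rw [hi, hε]; norm_num),
      ent_comp σ v (by rw [hi, hε]; norm_num), h1]
  · rw [if_neg hi, if_neg hi, h2]

theorem st_ext_perm {M N : St a} (σ : Equiv.Perm ℕ)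
    (h1 : ∀ x y, N.1 (σ x) (σ y) = M.1 (σ x) (σ y))
    (h2 : ∀ (i : ℕ) (v : Fin (a i) → ℕ), N.2 i (⇑σ ∘ v) = M.2 i (⇑σ ∘ v)) : N = M := by
  refine Prod.ext ?_ ?_
  · funext x y
    have := h1 (σ.symm x) (σ.symm y)
    simpa using this
  · funext i v
    have := h2 i (σ.symm ∘ v)
    have e : ⇑σ ∘ (⇑σ.symm ∘ v) = v := by ext; simp
    rwa [e] at this

/-! ### Measurability -/

theorem meas_decide {X : Type*} [MeasurableSpace X] {p : X → Prop} [∀ x, Decidable (p x)]
    (hp : MeasurableSet {x | p x}) : Measurable fun x => decide (p x) := by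
  refine measurable_to_bool ?_
  convert hp using 1
  ext x
  simp

theorem meas_rel (i : ℕ) (t : Fin (a i) → ℕ) : Measurable fun R : RS a => R i t :=
  (measurable_pi_apply t).comp (measurable_pi_apply i)

theorem meas_pre (x y : ℕ) : MeasurableSet {R : RS a | Pre ε R x y} := by
  unfold Pre
  refine (meas_rel ε (pair x y) (measurableSet_singleton true)).inter
    ((meas_rel ε (pair y x) (measurableSet_singleton false)).inter ?_)
  apply measurableSet_setOfPred.2
  refine Measurable.forall fun i => Measurable.imp measurable_const ?_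
  refine Measurable.forall fun t => Measurable.imp ?_ measurable_const
  apply measurableSet_setOfPred.1
  exact meas_rel i t (measurableSet_singleton true)

theorem meas_rn (n x y : ℕ) : MeasurableSet {R : RS a | Rn ε R n x y} := by
  induction n generalizing x with
  | zero => exact MeasurableSet.const _
  | succ n ih =>
    have : {R : RS a | Rn ε R (n + 1) x y} =
        ⋃ w, ({R : RS a | Pre ε R w x}ᶜ ∩ {R : RS a | Rn ε R n w y}) := by
      ext R
      simp only [mem_iUnion]
      exact Iff.rfl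
    rw [this]
    exact MeasurableSet.iUnion fun w => (meas_pre w x).compl.inter (ih w)

theorem meas_rc (x y : ℕ) : MeasurableSet {R : RS a | Rc ε R x y} := by
  have : {R : RS a | Rc ε R x y} = ⋃ n, {R : RS a | Rn ε R n x y} := by
    ext R
    simp only [mem_iUnion]
    exact Iff.rfl
  rw [this]
  exact MeasurableSet.iUnion fun n => meas_rn n x y

theorem meas_ex : Measurable (ex ε : RS a → St a) := by
  classical
  refine Measurable.prodMk ?_ ?_
  · refine measurable_pi_iff.2 fun x => measurable_pi_iff.2 fun y => ?_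
    exact meas_decide (meas_rc y x).compl
  · refine measurable_pi_iff.2 fun i => measurable_pi_iff.2 fun t => ?_
    by_cases hi : i = ε
    · simp only [if_pos hi]
      have h1 : MeasurableSet {R : RS a | R i t = true ∧ ∀ j k, Rc ε R (t j) (t k)} := by
        refine (meas_rel i t (measurableSet_singleton true)).inter ?_
        have : {R : RS a | ∀ j k, Rc ε R (t j) (t k)} = ⋂ j, ⋂ k, {R : RS a | Rc ε R (t j) (t k)} := by
          ext R
          simp only [mem_iInter]
          exact Iff.rfl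
        change MeasurableSet {R : RS a | ∀ j k, Rc ε R (t j) (t k)}
        rw [this]
        exact MeasurableSet.iInter fun j => MeasurableSet.iInter fun k => meas_rc _ _
      have h2 := meas_decide h1
      convert h2 using 2 with R
      rw [Bool.eq_iff_iff, Bool.and_eq_true, decide_eq_true_iff, decide_eq_true_iff]
    · simp only [if_neg hi]
      exact meas_rel i t

theorem cont_de : Continuous (de ε : St a → RS a) := by
  refine continuous_pi fun i => continuous_pi fun t => ?_
  simp only [de]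
  have h1 : Continuous fun M : St a => M.2 i t :=
    (continuous_apply t).comp ((continuous_apply i).comp continuous_snd)
  have h2 : Continuous fun M : St a => M.1 (ent t 0) (ent t 1) :=
    (continuous_apply (ent t 1)).comp ((continuous_apply (ent t 0)).comp continuous_fst)
  by_cases hi : i = ε
  · simp only [if_pos hi]
    exact (continuous_of_discreteTopology (f := fun b : Bool × Bool => b.1 || b.2)).comp
      (h1.prodMk h2)
  · simp only [if_neg hi]
    exact h1

theorem meas_de : Measurable (de ε : St a → RS a) := by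
  have b1 : BorelSpace ((i : ℕ) → (Fin (a i) → ℕ) → Bool) := inferInstance
  have b2 : BorelSpace (ℕ → ℕ → Bool) := inferInstance
  have s1 : SecondCountableTopology (St a) := inferInstance
  have b3 : BorelSpace (St a) := inferInstance
  exact cont_de.measurable

end Pool.Agent.H12A.OM
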