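import Pool.Agent.H623R2.VE.FO

set_option autoImplicit false
set_option linter.unusedSectionVars false

/-!
# Substitution of a structure for the points of a predicate

`Q[S]` is obtained from a structure `Q` with a distinguished unary predicate `U` if every point in
`U` is replaced by a copy of `S`. The truth of a sentence in `Q[S]` is expressed by a sentence
in `Q`.
-/

namespace Pool.Agent.H12A.OM

open FirstOrder FirstOrder.Language
open Pool.Agent.H623R2.VE (term_var RIso)

variable {L : FirstOrder.Language.{0, 0}} [L.IsRelational] {M N : Type}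

/-- Truth of formulas without free variables besides the bounded ones. -/
abbrev Rz (S : L.Structure N) {n : ℕ} (φ : L.BoundedFormula Empty n) (v : Fin n → N) : Prop :=
  @BoundedFormula.Realize L N S Empty n φ default v

theorem Rz_falsum (S : L.Structure N) {n : ℕ} (v : Fin n → N) :
    Rz S (BoundedFormula.falsum : L.BoundedFormula Empty n) v ↔ False := Iff.rfl

theorem Rz_imp (S : L.Structure N) {n : ℕ} (φ ψ : L.BoundedFormula Empty n) (v : Fin n → N) :
    Rz S (φ.imp ψ) v ↔ (Rz S φ v → Rz S ψ v) := Iff.rfl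

theorem Rz_not (S : L.Structure N) {n : ℕ} (φ : L.BoundedFormula Empty n) (v : Fin n → N) :
    Rz S φ.not v ↔ ¬ Rz S φ v := Iff.rfl

theorem Rz_all (S : L.Structure N) {n : ℕ} (φ : L.BoundedFormula Empty (n + 1)) (v : Fin n → N) :
    Rz S φ.all v ↔ ∀ x, Rz S φ (Fin.snoc v x) := Iff.rfl

theorem Rz_ex (S : L.Structure N) {n : ℕ} (φ : L.BoundedFormula Empty (n + 1)) (v : Fin n → N) :
    Rz S φ.ex v ↔ ∃ x, Rz S φ (Fin.snoc v x) := by
  let _ := S
  exact BoundedFormula.realize_ex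

theorem Rz_inf (S : L.Structure N) {n : ℕ} (φ ψ : L.BoundedFormula Empty n) (v : Fin n → N) :
    Rz S (φ ⊓ ψ) v ↔ Rz S φ v ∧ Rz S ψ v := by
  let _ := S
  exact BoundedFormula.realize_inf

theorem Rz_sup (S : L.Structure N) {n : ℕ} (φ ψ : L.BoundedFormula Empty n) (v : Fin n → N) :
    Rz S (φ ⊔ ψ) v ↔ Rz S φ v ∨ Rz S ψ v := by
  let _ := S
  exact BoundedFormula.realize_sup

theorem Rz_foldr (S : L.Structure N) {n : ℕ} (l : List (L.BoundedFormula Empty n))
    (v : Fin n → N) : Rz S (l.foldr (· ⊓ ·) ⊤) v ↔ ∀ φ ∈ l, Rz S φ v := by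
  let _ := S
  exact BoundedFormula.realize_foldr_inf l default v

theorem Rz_eq (S : L.Structure N) {n : ℕ} (i j : Fin n) (v : Fin n → N) :
    Rz S (BoundedFormula.equal (Term.var (Sum.inr i)) (Term.var (Sum.inr j)) :
      L.BoundedFormula Empty n) v ↔ v i = v j := Iff.rfl

theorem Rz_rel (S : L.Structure N) {n l : ℕ} (R : L.Relations l) (i : Fin l → Fin n)
    (v : Fin n → N) :
    Rz S (BoundedFormula.rel R (fun k => Term.var (Sum.inr (i k))) : L.BoundedFormula Empty n) v ↔
      S.RelMap R (fun k => v (i k)) := Iff.rfl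

/-- The language with a further unary predicate. -/
def LU (L : FirstOrder.Language.{0, 0}) : FirstOrder.Language.{0, 0} where
  Functions := fun _ => Empty
  Relations := fun n => L.Relations n ⊕ {_u : Unit // n = 1}

instance : (LU L).IsRelational := fun _ => inferInstanceAs (IsEmpty Empty)

/-- The unary predicate. -/
def uu : (LU L).Relations 1 := Sum.inr ⟨(), rfl⟩

/-- The old relation symbols. -/
def ol {n : ℕ} (R : L.Relations n) : (LU L).Relations n := Sum.inl R

/-- The points in the predicate. -/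
def UP (Q : (LU L).Structure N) (x : N) : Prop := Q.RelMap (uu : (LU L).Relations 1) (fun _ => x)

/-- The universe of `Q[S]`. -/
abbrev SubT (U : N → Prop) (m0 : M) : Type := {p : N × M // U p.1 ∨ p.2 = m0}

/-- All entries are equal to the same point in the predicate. -/
def InU (Q : (LU L).Structure N) {n : ℕ} (t : Fin n → N) : Prop :=
  ∃ u, UP Q u ∧ 0 < n ∧ ∀ j, t j = u

/-- The structure `Q[S]`. -/
@[reducible] def subS (Q : (LU L).Structure N) (S : L.Structure M) (m0 : M) :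
    L.Structure (SubT (UP Q) m0) where
  funMap f := isEmptyElim f
  RelMap {_} R t := (InU Q (fun j => (t j).1.1) ∧ S.RelMap R (fun j => (t j).1.2)) ∨
    (¬ InU Q (fun j => (t j).1.1) ∧ Q.RelMap (ol R) (fun j => (t j).1.1))

theorem exists_A {n : ℕ} : ∀ {l : ℕ} (i : Fin l → Fin n),
    ∃ A : (LU L).BoundedFormula Empty n, ∀ (N : Type) (Q : (LU L).Structure N) (w : Fin n → N),
      Rz Q A w ↔ InU Q (fun k => w (i k)) := by
  intro l i
  rcases Nat.eq_zero_or_pos l with rfl | hl
  · refine ⟨BoundedFormula.falsum, fun N Q w => ⟨False.elim, ?_⟩⟩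
    rintro ⟨u, -, h, -⟩
    exact absurd h (lt_irrefl 0)
  · refine ⟨(BoundedFormula.rel uu (fun _ => Term.var (Sum.inr (i ⟨0, hl⟩)))) ⊓
      ((List.ofFn fun k : Fin l => (BoundedFormula.equal (Term.var (Sum.inr (i k)))
        (Term.var (Sum.inr (i ⟨0, hl⟩))) : (LU L).BoundedFormula Empty n)).foldr (· ⊓ ·) ⊤),
      fun N Q w => ?_⟩
    rw [Rz_inf, Rz_foldr]
    constructor
    · rintro ⟨h1, h2⟩
      refine ⟨w (i ⟨0, hl⟩), h1, hl, fun j => ?_⟩
      exact h2 _ ((List.mem_ofFn' _ _).2 ⟨j, rfl⟩)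
    · rintro ⟨u, h1, -, h2'⟩
      have h2 : ∀ j, w (i j) = u := h2'
      refine ⟨?_, ?_⟩
      · show UP Q (w (i ⟨0, hl⟩))
        rw [h2]; exact h1
      · intro φ hφ
        obtain ⟨j, rfl⟩ := (List.mem_ofFn' _ _).1 hφ
        show w (i j) = w (i ⟨0, hl⟩)
        rw [h2, h2]

/-- The translation. -/
theorem exists_tr (S : L.Structure M) (m0 : M) {n : ℕ} (φ : L.BoundedFormula Empty n) :
    ∃ F : Finset ((LU L).BoundedFormula Empty n), ∀ m : Fin n → M, ∃ ψ ∈ F,
      ∀ (N : Type) (Q : (LU L).Structure N) (v : Fin n → SubT (UP Q) m0),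
        (∀ i, (v i).1.2 = m i) → (Rz (subS Q S m0) φ v ↔ Rz Q ψ (fun i => (v i).1.1)) := by
  classical
  induction φ with
  | @falsum n =>
    exact ⟨{BoundedFormula.falsum}, fun m => ⟨_, Finset.mem_singleton_self _,
      fun N Q v _ => Iff.rfl⟩⟩
  | @equal n t1 t2 =>
    obtain ⟨i, rfl⟩ := term_var t1
    obtain ⟨j, rfl⟩ := term_var t2
    refine ⟨{BoundedFormula.falsum, BoundedFormula.equal (Term.var (Sum.inr i))
      (Term.var (Sum.inr j))}, fun m => ?_⟩
    by_cases h : m i = m j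
    · refine ⟨_, Finset.mem_insert_of_mem (Finset.mem_singleton_self _), fun N Q v hv => ?_⟩
      rw [Rz_eq, Rz_eq]
      constructor
      · intro h1
        rw [h1]
      · intro h1
        refine Subtype.ext (Prod.ext h1 ?_)
        rw [hv, hv, h]
    · refine ⟨_, Finset.mem_insert_self _ _, fun N Q v hv => ?_⟩
      rw [Rz_eq, Rz_falsum]
      refine ⟨fun h1 => h ?_, False.elim⟩
      rw [← hv, ← hv, h1]
  | @rel n l R ts =>
    choose i hi using fun k => term_var (ts k)
    obtain rfl : ts = fun k => Term.var (Sum.inr (i k)) := funext hi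
    obtain ⟨A, hA⟩ := exists_A (L := L) i
    refine ⟨{A ⊔ (A.not ⊓ BoundedFormula.rel (ol R) (fun k => Term.var (Sum.inr (i k)))),
      A.not ⊓ BoundedFormula.rel (ol R) (fun k => Term.var (Sum.inr (i k)))}, fun m => ?_⟩
    by_cases h : S.RelMap R (fun k => m (i k))
    · refine ⟨_, Finset.mem_insert_self _ _, fun N Q v hv => ?_⟩
      rw [Rz_rel, Rz_sup, Rz_inf, Rz_not, hA, Rz_rel]
      have e : (fun j => (v (i j)).1.2) = fun k => m (i k) := funext fun k => hv _
      show ((_ ∧ S.RelMap R (fun j => (v (i j)).1.2)) ∨ _) ↔ _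
      rw [e]
      exact or_congr (and_iff_left h) Iff.rfl
    · refine ⟨_, Finset.mem_insert_of_mem (Finset.mem_singleton_self _), fun N Q v hv => ?_⟩
      rw [Rz_rel, Rz_inf, Rz_not, hA, Rz_rel]
      have e : (fun j => (v (i j)).1.2) = fun k => m (i k) := funext fun k => hv _
      show ((_ ∧ S.RelMap R (fun j => (v (i j)).1.2)) ∨ _) ↔ _
      rw [e]
      exact or_iff_right fun h1 => h h1.2
  | @imp n f g ihf ihg =>
    obtain ⟨F, hF⟩ := ihf
    obtain ⟨G, hG⟩ := ihg
    refine ⟨(F ×ˢ G).image (fun p => p.1.imp p.2), fun m => ?_⟩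
    obtain ⟨ψ, h1, h2⟩ := hF m
    obtain ⟨χ, h3, h4⟩ := hG m
    refine ⟨ψ.imp χ, Finset.mem_image.2 ⟨(ψ, χ), Finset.mem_product.2 ⟨h1, h3⟩, rfl⟩,
      fun N Q v hv => ?_⟩
    rw [Rz_imp, Rz_imp, h2 N Q v hv, h4 N Q v hv]
  | @all n f ih =>
    obtain ⟨F, hF⟩ := ih
    let Ux : (LU L).BoundedFormula Empty (n + 1) :=
      BoundedFormula.rel uu (fun _ => Term.var (Sum.inr (Fin.last n)))
    let Φ : (LU L).BoundedFormula Empty (n + 1) × Finset ((LU L).BoundedFormula Empty (n + 1)) →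
      (LU L).BoundedFormula Empty n := fun p =>
        ((Ux.not.imp p.1) ⊓ ((p.2.toList.map (fun f => Ux.imp f)).foldr (· ⊓ ·) ⊤)).all
    refine ⟨(F ×ˢ F.powerset).image Φ, fun m => ?_⟩
    choose ψ hψ1 hψ2 using fun x : M => hF (Fin.snoc m x)
    let G : Finset ((LU L).BoundedFormula Empty (n + 1)) := F.filter (fun f => ∃ x, ψ x = f)
    refine ⟨Φ (ψ m0, G), Finset.mem_image.2 ⟨(ψ m0, G), Finset.mem_product.2 ⟨hψ1 m0,
      Finset.mem_powerset.2 (Finset.filter_subset _ _)⟩, rfl⟩, fun N Q v hv => ?_⟩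
    have hsn : ∀ (x : SubT (UP Q) m0), ∀ i, ((Fin.snoc v x : Fin (n + 1) → SubT (UP Q) m0) i).1.2 =
        (Fin.snoc m x.1.2 : Fin (n + 1) → M) i := by
      intro x i
      refine Fin.lastCases ?_ (fun i => ?_) i
      · simp only [Fin.snoc_last]
      · simp only [Fin.snoc_castSucc]
        exact hv i
    have hsn2 : ∀ (x : SubT (UP Q) m0),
        (fun i => ((Fin.snoc v x : Fin (n + 1) → SubT (UP Q) m0) i).1.1) =
        (Fin.snoc (fun i => (v i).1.1) x.1.1 : Fin (n + 1) → N) := by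
      intro x
      funext i
      refine Fin.lastCases ?_ (fun i => ?_) i
      · simp only [Fin.snoc_last]
      · simp only [Fin.snoc_castSucc]
    have hU : ∀ y : N, Rz Q Ux (Fin.snoc (fun i => (v i).1.1) y) ↔ UP Q y := by
      intro y
      show UP Q ((Fin.snoc (fun i => (v i).1.1) y : Fin (n + 1) → N) (Fin.last n)) ↔ _
      rw [Fin.snoc_last]
    rw [Rz_all]
    show _ ↔ Rz Q ((Ux.not.imp (ψ m0)) ⊓
      ((G.toList.map (fun f => Ux.imp f)).foldr (· ⊓ ·) ⊤)).all (fun i => (v i).1.1)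
    rw [Rz_all]
    constructor
    · intro h y
      rw [Rz_inf, Rz_foldr, Rz_imp, Rz_not, hU]
      refine ⟨fun hy => ?_, fun χ hχ => ?_⟩
      · have h1 := h ⟨(y, m0), Or.inr rfl⟩
        rw [hψ2 m0 N Q _ (hsn _), hsn2] at h1
        exact h1
      · obtain ⟨χ', hχ', rfl⟩ := List.mem_map.1 hχ
        rw [Finset.mem_toList, Finset.mem_filter] at hχ'
        obtain ⟨-, x, rfl⟩ := hχ'
        rw [Rz_imp, hU]
        intro hy
        have h1 := h ⟨(y, x), Or.inl hy⟩
        rw [hψ2 x N Q _ (hsn _), hsn2] at h1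
        exact h1
    · rintro h ⟨⟨y, x⟩, hyx⟩
      rw [hψ2 x N Q _ (hsn _), hsn2]
      have h1 := h y
      rw [Rz_inf, Rz_foldr, Rz_imp, Rz_not, hU] at h1
      by_cases hy : UP Q y
      · have h2 := h1.2 (Ux.imp (ψ x)) (List.mem_map.2 ⟨ψ x, Finset.mem_toList.2
          (Finset.mem_filter.2 ⟨hψ1 x, x, rfl⟩), rfl⟩)
        rw [Rz_imp, hU] at h2
        exact h2 hy
      · have h3 : x = m0 := hyx.resolve_left hy
        subst h3
        exact h1.1 hy

/-- The truth of a sentence in `Q[S]` is expressed by a sentence in `Q`. -/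
theorem exists_tr_sentence (S : L.Structure M) (m0 : M) (φ : L.Sentence) :
    ∃ ψ : (LU L).Sentence, ∀ (N : Type) (Q : (LU L).Structure N),
      @Sentence.Realize L _ (subS Q S m0) φ ↔ @Sentence.Realize (LU L) N Q ψ := by
  obtain ⟨F, hF⟩ := exists_tr S m0 φ
  obtain ⟨ψ, -, hψ⟩ := hF default
  refine ⟨ψ, fun N Q => ?_⟩
  have h := hψ N Q default (fun i => i.elim0)
  have e : (fun i : Fin 0 => ((default : Fin 0 → SubT (UP Q) m0) i).1.1) = default := by
    funext i
    exact i.elim0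
  rw [e] at h
  exact h

end Pool.Agent.H12A.OM
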