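import Pool.Agent.H12A.OM.Fo1

set_option autoImplicit false
set_option linter.unusedSectionVars false

/-!
# Ordered sums with elementarily equivalent summands are elementarily equivalent
-/

namespace Pool.Agent.H12A.OM

open FirstOrder FirstOrder.Language
open Pool.Agent.H623R2.VE (term_var RIso)

variable {L : FirstOrder.Language.{0, 0}} [L.IsRelational] {M N N' : Type}

/-- `P` is the ordered sum (with respect to the binary relation `r`) of the fibres of `π`. -/
structure FSum (r : L.Relations 2) (P : L.Structure N) {I : Type} [LinearOrder I] (π : N → I) :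
    Prop where
  lt : ∀ x y, π x < π y → P.RelMap r ![x, y] ∧ ¬ P.RelMap r ![y, x]
  loc : ∀ (n : ℕ) (R : L.Relations n), (⟨n, R⟩ : Σ n, L.Relations n) ≠ ⟨2, r⟩ →
    ∀ t, P.RelMap R t → ∀ j k, π (t j) = π (t k)

/-- The substructure on the fibre over `q`. -/
@[reducible] def fibS (P : L.Structure N) {I : Type} (π : N → I) (q : I) :
    L.Structure {z : N // π z = q} where
  funMap f := isEmptyElim f
  RelMap R t := P.RelMap R (fun k => (t k).1)

/-- Elementary equivalence. -/
def EE (S : L.Structure M) (S' : L.Structure N) : Prop :=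
  ∀ φ : L.Sentence, @Sentence.Realize L M S φ ↔ @Sentence.Realize L N S' φ

theorem EE.symm {S : L.Structure M} {S' : L.Structure N} (h : EE S S') : EE S' S :=
  fun φ => (h φ).symm

theorem EE.trans {S : L.Structure M} {S' : L.Structure N} {S'' : L.Structure N'} (h : EE S S')
    (h' : EE S' S'') : EE S S'' := fun φ => (h φ).trans (h' φ)

theorem EE.of_riso {S : L.Structure M} {S' : L.Structure N} (h : RIso S S') : EE S S' := by
  intro φ
  have key : ∀ {A B : Type} {X : L.Structure A} {Y : L.Structure B}, RIso X Y →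
      @Sentence.Realize L A X φ → @Sentence.Realize L B Y φ := by
    intro A B X Y h hX
    have h1 : @Theory.Model L A X {φ} := @Theory.Model.mk L A X _ fun ψ hψ => by
      rw [Set.mem_singleton_iff] at hψ
      rw [hψ]
      exact hX
    exact @Theory.Model.realize_of_mem L _ _ _ (h.model h1) φ (Set.mem_singleton φ)
  exact ⟨key h, key h.symm⟩

theorem EE.model {S : L.Structure M} {S' : L.Structure N} (h : EE S S') {T : L.Theory}
    (hT : @Theory.Model L M S T) : @Theory.Model L N S' T :=
  @Theory.Model.mk L N S' T fun φ hφ => (h φ).1 (@Theory.Model.realize_of_mem L M S T hT φ hφ)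

section fv

variable {r : L.Relations 2} {I : Type} [LinearOrder I]

/-- Equality of the truth values of the formulas in `Δ`. -/
def Agr (P : L.Structure N) (P' : L.Structure N') (π : N → I) (π' : N' → I) {n : ℕ}
    (Δ : Finset (L.BoundedFormula Empty n)) (v : ∀ i, Fin n → {z : N // π z = i})
    (v' : ∀ i, Fin n → {z : N' // π' z = i}) : Prop :=
  ∀ i, ∀ δ ∈ Δ, Rz (fibS P π i) δ (v i) ↔ Rz (fibS P' π' i) δ (v' i)

theorem rel_case {P : L.Structure N} {π : N → I} {n l : ℕ} (R : L.Relations l)
    (k : Fin l → Fin n) (v : ∀ i, Fin n → {z : N // π z = i}) (c : Fin n → I) :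
    (∀ i, (∀ j, c (k j) = i) → (P.RelMap R (fun j => (v (c (k j)) (k j)).1) ↔
      Rz (fibS P π i) (BoundedFormula.rel R (fun j => Term.var (Sum.inr (k j)))) (v i))) := by
  intro i hi
  have e : (fun j => (v (c (k j)) (k j)).1) = fun j => (v i (k j)).1 := by
    funext j
    rw [hi]
  rw [e]
  exact Iff.rfl

theorem snoc_dep {A : Type} {ρ : A → I} {n : ℕ} (w : ∀ i, Fin n → {z : A // ρ z = i})
    (x : ∀ i, {z : A // ρ z = i}) (c : Fin (n + 1) → I) :
    (fun k => ((Fin.snoc (w (c k)) (x (c k)) : Fin (n + 1) → {z : A // ρ z = c k}) k).1) =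
      (Fin.snoc (fun k : Fin n => (w (c k.castSucc) k).1) (x (c (Fin.last n))).1 :
        Fin (n + 1) → A) := by
  funext k
  refine Fin.lastCases ?_ (fun k => ?_) k
  · simp only [Fin.snoc_last]
  · simp only [Fin.snoc_castSucc]

theorem fv_aux [Nonempty I] {P : L.Structure N} {P' : L.Structure N'} {π : N → I} {π' : N' → I}
    (h : FSum r P π) (h' : FSum r P' π') (hs : Function.Surjective π)
    (hs' : Function.Surjective π') {n : ℕ} (φ : L.BoundedFormula Empty n) :
    ∃ Δ : Finset (L.BoundedFormula Empty n), ∀ (v : ∀ i, Fin n → {z : N // π z = i})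
      (v' : ∀ i, Fin n → {z : N' // π' z = i}), Agr P P' π π' Δ v v' → ∀ c : Fin n → I,
      (Rz P φ (fun k => (v (c k) k).1) ↔ Rz P' φ (fun k => (v' (c k) k).1)) := by
  classical
  induction φ with
  | @falsum n => exact ⟨∅, fun v v' _ c => Iff.rfl⟩
  | @equal n t1 t2 =>
    obtain ⟨i, rfl⟩ := term_var t1
    obtain ⟨j, rfl⟩ := term_var t2
    refine ⟨{BoundedFormula.equal (Term.var (Sum.inr i)) (Term.var (Sum.inr j))},
      fun v v' hA c => ?_⟩
    rw [Rz_eq, Rz_eq]
    by_cases hc : c i = c j
    · have h1 := hA (c i) _ (Finset.mem_singleton_self _)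
      rw [Rz_eq, Rz_eq, Subtype.ext_iff, Subtype.ext_iff] at h1
      rw [← hc]
      exact h1
    · constructor
      · intro h1
        exfalso
        apply hc
        rw [← (v (c i) i).2, ← (v (c j) j).2, h1]
      · intro h1
        exfalso
        apply hc
        rw [← (v' (c i) i).2, ← (v' (c j) j).2, h1]
  | @rel n l R ts =>
    choose k hk using fun j => term_var (ts j)
    obtain rfl : ts = fun j => Term.var (Sum.inr (k j)) := funext hk
    refine ⟨{BoundedFormula.rel R (fun j => Term.var (Sum.inr (k j)))}, fun v v' hA c => ?_⟩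
    rw [Rz_rel, Rz_rel]
    by_cases hc : ∃ i, ∀ j, c (k j) = i
    · obtain ⟨i, hi⟩ := hc
      rw [rel_case R k v c i hi, rel_case R k v' c i hi]
      exact hA i _ (Finset.mem_singleton_self _)
    · have hne : ∃ j1 j2, c (k j1) ≠ c (k j2) := by
        by_contra hcon
        push Not at hcon
        rcases Nat.eq_zero_or_pos l with rfl | hl
        · exact hc ⟨Classical.arbitrary I, fun j => j.elim0⟩
        · exact hc ⟨c (k ⟨0, hl⟩), fun j => hcon j _⟩
      obtain ⟨j1, j2, hj⟩ := hne
      by_cases hR : (⟨l, R⟩ : Σ n, L.Relations n) = ⟨2, r⟩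
      · obtain rfl : l = 2 := congrArg Sigma.fst hR
        obtain rfl : R = r := eq_of_heq (Sigma.ext_iff.1 hR).2
        have key : ∀ {A : Type} (X : L.Structure A) (ρ : A → I) (hX : FSum R X ρ)
            (w : ∀ i, Fin n → {z : A // ρ z = i}),
            (X.RelMap R (fun j => (w (c (k j)) (k j)).1) ↔ c (k 0) < c (k 1)) := by
          intro A X ρ hX w
          have e : (fun j => (w (c (k j)) (k j)).1) =
              ![(w (c (k 0)) (k 0)).1, (w (c (k 1)) (k 1)).1] := by
            funext j
            fin_cases j <;> rfl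
          rw [e]
          have hne : c (k 0) ≠ c (k 1) := by
            intro he
            apply hj
            have h0 : ∀ j : Fin 2, c (k j) = c (k 0) := by
              intro j
              fin_cases j
              · rfl
              · exact he.symm
            rw [h0 j1, h0 j2]
          have e0 := (w (c (k 0)) (k 0)).2
          have e1 := (w (c (k 1)) (k 1)).2
          rcases lt_or_gt_of_ne hne with hlt | hlt
          · have := hX.lt (w (c (k 0)) (k 0)).1 (w (c (k 1)) (k 1)).1 (by rw [e0, e1]; exact hlt)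
            exact ⟨fun _ => hlt, fun _ => this.1⟩
          · have := hX.lt (w (c (k 1)) (k 1)).1 (w (c (k 0)) (k 0)).1 (by rw [e0, e1]; exact hlt)
            exact ⟨fun h => absurd h this.2, fun h => absurd h hlt.not_gt⟩
        rw [key P π h v, key P' π' h' v']
      · constructor
        · intro h1
          exfalso
          have := h.loc l R hR _ h1 j1 j2
          rw [(v _ _).2, (v _ _).2] at this
          exact hj this
        · intro h1
          exfalso
          have := h'.loc l R hR _ h1 j1 j2
          rw [(v' _ _).2, (v' _ _).2] at this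
          exact hj this
  | @imp n f g ihf ihg =>
    obtain ⟨F, hF⟩ := ihf
    obtain ⟨G, hG⟩ := ihg
    refine ⟨F ∪ G, fun v v' hA c => ?_⟩
    rw [Rz_imp, Rz_imp, hF v v' (fun i δ hδ => hA i δ (Finset.mem_union_left _ hδ)) c,
      hG v v' (fun i δ hδ => hA i δ (Finset.mem_union_right _ hδ)) c]
  | @all n f ih =>
    obtain ⟨F, hF⟩ := ih
    let χ : Finset (L.BoundedFormula Empty (n + 1)) → L.BoundedFormula Empty n := fun G =>
      ((G.toList.foldr (· ⊓ ·) ⊤) ⊓
        (((F \ G).toList.map BoundedFormula.not).foldr (· ⊓ ·) ⊤)).ex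
    have hχ : ∀ {A : Type} (X : L.Structure A) (G : Finset (L.BoundedFormula Empty (n + 1)))
        (w : Fin n → A), Rz X (χ G) w ↔ ∃ x, (∀ δ ∈ G, Rz X δ (Fin.snoc w x)) ∧
          ∀ δ ∈ F, δ ∉ G → ¬ Rz X δ (Fin.snoc w x) := by
      intro A X G w
      show Rz X ((_ ⊓ _ : L.BoundedFormula Empty (n + 1)).ex) w ↔ _
      rw [Rz_ex]
      refine exists_congr fun x => ?_
      rw [Rz_inf, Rz_foldr, Rz_foldr]
      refine and_congr ?_ ?_
      · exact ⟨fun h δ hδ => h δ (Finset.mem_toList.2 hδ), fun h δ hδ => h δ (Finset.mem_toList.1 hδ)⟩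
      · constructor
        · intro h δ hδ hδ'
          have := h δ.not (List.mem_map.2 ⟨δ, Finset.mem_toList.2
            (Finset.mem_sdiff.2 ⟨hδ, hδ'⟩), rfl⟩)
          exact this
        · intro h δ hδ
          obtain ⟨δ', h1, rfl⟩ := List.mem_map.1 hδ
          rw [Finset.mem_toList, Finset.mem_sdiff] at h1
          exact h δ' h1.1 h1.2
    refine ⟨F.powerset.image χ, fun v v' hA c => ?_⟩
    -- one direction, for arbitrary structures
    have key : ∀ {A B : Type} (X : L.Structure A) (Y : L.Structure B) (ρ : A → I) (ρ' : B → I)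
        (_ : Function.Surjective ρ') (w : ∀ i, Fin n → {z : A // ρ z = i})
        (w' : ∀ i, Fin n → {z : B // ρ' z = i}), Agr X Y ρ ρ' (F.powerset.image χ) w w' →
        (∀ (w1 : ∀ i, Fin (n + 1) → {z : A // ρ z = i})
          (w1' : ∀ i, Fin (n + 1) → {z : B // ρ' z = i}), Agr X Y ρ ρ' F w1 w1' →
          ∀ c : Fin (n + 1) → I, (Rz X f (fun k => (w1 (c k) k).1) →
            Rz Y f (fun k => (w1' (c k) k).1))) →
        (∀ x, Rz X f (Fin.snoc (fun k => (w (c k) k).1) x)) →
        ∀ y, Rz Y f (Fin.snoc (fun k => (w' (c k) k).1) y) := by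
      intro A B X Y ρ ρ' hρ' w w' hA hrec hX y
      have hu : ∀ i, ∃ u : {z : B // ρ' z = i}, i = ρ' y → u.1 = y := by
        intro i
        by_cases hi : i = ρ' y
        · exact ⟨⟨y, hi.symm⟩, fun _ => rfl⟩
        · obtain ⟨z, hz⟩ := hρ' i
          exact ⟨⟨z, hz⟩, fun h => absurd h hi⟩
      choose u hu using hu
      let G : I → Finset (L.BoundedFormula Empty (n + 1)) := fun i =>
        F.filter fun δ => Rz (fibS Y ρ' i) δ (Fin.snoc (w' i) (u i))
      have hG : ∀ i, Rz (fibS Y ρ' i) (χ (G i)) (w' i) := by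
        intro i
        rw [hχ]
        refine ⟨u i, fun δ hδ => (Finset.mem_filter.1 hδ).2, fun δ hδ hδ' h1 => hδ' ?_⟩
        exact Finset.mem_filter.2 ⟨hδ, h1⟩
      have hG' : ∀ i, Rz (fibS X ρ i) (χ (G i)) (w i) := fun i =>
        (hA i _ (Finset.mem_image.2 ⟨G i, Finset.mem_powerset.2 (Finset.filter_subset _ _),
          rfl⟩)).2 (hG i)
      have hG2 : ∀ i, ∃ x, (∀ δ ∈ G i, Rz (fibS X ρ i) δ (Fin.snoc (w i) x)) ∧
          ∀ δ ∈ F, δ ∉ G i → ¬ Rz (fibS X ρ i) δ (Fin.snoc (w i) x) := fun i => by
        have := hG' i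
        rwa [hχ] at this
      choose x hx1 hx2 using hG2
      have h3 := hrec (fun i => Fin.snoc (w i) (x i)) (fun i => Fin.snoc (w' i) (u i)) ?_
        (Fin.snoc c (ρ' y))
      · have e1 : (fun k => ((Fin.snoc (w ((Fin.snoc c (ρ' y) : Fin (n + 1) → I) k))
            (x ((Fin.snoc c (ρ' y) : Fin (n + 1) → I) k)) : Fin (n + 1) → _) k).1) =
            (Fin.snoc (fun k => (w (c k) k).1) (x (ρ' y)).1 : Fin (n + 1) → A) := by
          rw [snoc_dep]
          congr 1
          · funext k
            exact congrArg (fun i => (w i k).1) (Fin.snoc_castSucc (α := fun _ => I) _ _ _)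
          · exact congrArg (fun i => (x i).1) (Fin.snoc_last (α := fun _ => I) _ _)
        have e2 : (fun k => ((Fin.snoc (w' ((Fin.snoc c (ρ' y) : Fin (n + 1) → I) k))
            (u ((Fin.snoc c (ρ' y) : Fin (n + 1) → I) k)) : Fin (n + 1) → _) k).1) =
            (Fin.snoc (fun k => (w' (c k) k).1) y : Fin (n + 1) → B) := by
          rw [snoc_dep]
          congr 1
          · funext k
            exact congrArg (fun i => (w' i k).1) (Fin.snoc_castSucc (α := fun _ => I) _ _ _)
          · exact hu _ (Fin.snoc_last (α := fun _ => I) _ _)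
        rw [e1, e2] at h3
        exact h3 (hX _)
      · intro i δ hδ
        by_cases hδG : δ ∈ G i
        · exact ⟨fun _ => (Finset.mem_filter.1 hδG).2, fun _ => hx1 i δ hδG⟩
        · exact ⟨fun h => absurd h (hx2 i δ hδ hδG),
            fun h => absurd (Finset.mem_filter.2 ⟨hδ, h⟩) hδG⟩
    rw [Rz_all, Rz_all]
    constructor
    · exact key P P' π π' hs' v v' hA fun w1 w1' h1 c => (hF w1 w1' h1 c).1
    · exact key P' P π' π hs v' v (fun i δ hδ => (hA i δ hδ).symm)
        fun w1 w1' h1 c => (hF w1' w1 (fun i δ hδ => (h1 i δ hδ).symm) c).2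

/-- Ordered sums with elementarily equivalent summands are elementarily equivalent. -/
theorem fv [Nonempty I] {P : L.Structure N} {P' : L.Structure N'} {π : N → I} {π' : N' → I}
    (h : FSum r P π) (h' : FSum r P' π') (hs : Function.Surjective π)
    (hs' : Function.Surjective π') (hE : ∀ i, EE (fibS P π i) (fibS P' π' i)) : EE P P' := by
  intro φ
  obtain ⟨Δ, hΔ⟩ := fv_aux h h' hs hs' φ
  have h1 := hΔ (fun i k => k.elim0) (fun i k => k.elim0) (fun i δ _ => by
    have e1 : (fun k : Fin 0 => (k.elim0 : {z : N // π z = i})) = default := by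
      funext k; exact k.elim0
    have e2 : (fun k : Fin 0 => (k.elim0 : {z : N' // π' z = i})) = default := by
      funext k; exact k.elim0
    beta_reduce
    rw [e1, e2]
    exact hE i δ) default
  have e1 : (fun k : Fin 0 => ((k.elim0 : {z : N // π z = (default : Fin 0 → I) k})).1) =
      default := by
    funext k; exact k.elim0
  have e2 : (fun k : Fin 0 => ((k.elim0 : {z : N' // π' z = (default : Fin 0 → I) k})).1) =
      default := by
    funext k; exact k.elim0
  rw [e1, e2] at h1
  exact h1

end fv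

end Pool.Agent.H12A.OM
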