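import Pool.Agent.H12A.OM.Fo2

set_option autoImplicit false
set_option linter.unusedSectionVars false

/-!
# Countable ordered sums with given summands
-/

namespace Pool.Agent.H12A.OM

open FirstOrder FirstOrder.Language Set
open Pool.Agent.H623R2.VE (term_var RIso)

variable {L : FirstOrder.Language.{0, 0}} [L.IsRelational] {M N N0 : Type} {I I' : Type}
  [LinearOrder I] [LinearOrder I'] {r : L.Relations 2}

theorem comp_vec2 {A B : Type} (f : A → B) (x y : A) : (fun j => f (![x, y] j)) = ![f x, f y] := by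
  funext j
  fin_cases j <;> rfl

theorem RIso.refl' (S : L.Structure N) : RIso S S := ⟨Equiv.refl N, fun _ _ => Iff.rfl⟩

/-! ### General facts on ordered sums -/

theorem FSum.embed {P : L.Structure N} {π : N → I} (h : FSum r P π) (g : I ↪o I') :
    FSum r P (fun z => g (π z)) :=
  ⟨fun x y hxy => h.lt x y (g.lt_iff_lt.1 hxy),
    fun n R hR t ht j k => congrArg g (h.loc n R hR t ht j k)⟩

theorem fib_congr (P : L.Structure N) {J J' : Type} {π : N → J} {π' : N → J'} {q : J} {q' : J'}
    (h : ∀ z, π z = q ↔ π' z = q') : RIso (fibS P π q) (fibS P π' q') :=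
  ⟨Equiv.subtypeEquivRight h, fun _ _ => Iff.rfl⟩

theorem fib_embed (P : L.Structure N) (π : N → I) (g : I ↪o I') (q : I) :
    RIso (fibS P π q) (fibS P (fun z => g (π z)) (g q)) :=
  fib_congr P fun _ => g.injective.eq_iff.symm

/-- Transport of structures. -/
@[reducible] def trS (P : L.Structure N) {N' : Type} (e : N ≃ N') : L.Structure N' where
  funMap f := isEmptyElim f
  RelMap R t := P.RelMap R (fun k => e.symm (t k))

theorem riso_trS (P : L.Structure N) {N' : Type} (e : N ≃ N') : RIso P (trS P e) := by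
  refine ⟨e, fun R t => ?_⟩
  show _ ↔ P.RelMap R (fun k => e.symm (e (t k)))
  simp only [Equiv.symm_apply_apply]

theorem FSum.trS {P : L.Structure N} {π : N → I} (h : FSum r P π) {N' : Type} (e : N ≃ N') :
    FSum r (trS P e) (fun z => π (e.symm z)) := by
  refine ⟨fun x y hxy => ?_, fun n R hR t ht j k => h.loc n R hR _ ht j k⟩
  have := h.lt (e.symm x) (e.symm y) hxy
  show P.RelMap r (fun k => e.symm (![x, y] k)) ∧ ¬ P.RelMap r (fun k => e.symm (![y, x] k))
  rw [comp_vec2, comp_vec2]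
  exact this

theorem fib_trS (P : L.Structure N) (π : N → I) {N' : Type} (e : N ≃ N') (q : I) :
    RIso (fibS P π q) (fibS (OM.trS P e) (fun z => π (e.symm z)) q) := by
  refine ⟨e.subtypeEquiv (fun z => by simp), fun R t => ?_⟩
  show P.RelMap R (fun k => (t k).1) ↔ P.RelMap R (fun k => e.symm (e (t k).1))
  simp only [Equiv.symm_apply_apply]

/-! ### Sums with marked points -/

/-- `Q` is an ordered sum in which each point of the predicate is a summand; the nullary relations
are those of `S`. -/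
structure QSum (r : L.Relations 2) (S : L.Structure M) (Q : (LU L).Structure N) (π : N → I) :
    Prop where
  lt : ∀ x y, π x < π y → Q.RelMap (ol r) ![x, y] ∧ ¬ Q.RelMap (ol r) ![y, x]
  loc : ∀ (n : ℕ) (R : L.Relations n), (⟨n, R⟩ : Σ n, L.Relations n) ≠ ⟨2, r⟩ →
    ∀ t, Q.RelMap (ol R) t → ∀ j k, π (t j) = π (t k)
  pt : ∀ x y, UP Q x → π x = π y → x = y
  nul : ∀ (R : L.Relations 0) (t : Fin 0 → N) (t' : Fin 0 → M),
    Q.RelMap (ol R) t ↔ S.RelMap R t'

theorem QSum.fsum {S : L.Structure M} {Q : (LU L).Structure N} {π : N → I} (h : QSum r S Q π)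
    (m0 : M) : FSum r (subS Q S m0) (fun p => π p.1.1) := by
  refine ⟨fun x y hxy => ?_, fun n R hR t ht j k => ?_⟩
  · have h1 := h.lt _ _ hxy
    have hno : ∀ u v : N, π u < π v → ¬ InU Q ![u, v] := by
      rintro u v huv ⟨w, -, -, hw⟩
      have e0 := hw 0
      have e1 := hw 1
      simp only [Matrix.cons_val_zero, Matrix.cons_val_one] at e0 e1
      rw [e0, e1] at huv
      exact lt_irrefl _ huv
    have hno' : ∀ u v : N, π u < π v → ¬ InU Q ![v, u] := by
      rintro u v huv ⟨w, -, -, hw⟩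
      have e0 := hw 0
      have e1 := hw 1
      simp only [Matrix.cons_val_zero, Matrix.cons_val_one] at e0 e1
      rw [e0, e1] at huv
      exact lt_irrefl _ huv
    constructor
    · right
      rw [comp_vec2 (fun p : SubT (UP Q) m0 => p.1.1) x y]
      exact ⟨hno _ _ hxy, h1.1⟩
    · rintro (⟨h2, -⟩ | ⟨-, h2⟩)
      · rw [comp_vec2 (fun p : SubT (UP Q) m0 => p.1.1) y x] at h2
        exact hno' _ _ hxy h2
      · rw [comp_vec2 (fun p : SubT (UP Q) m0 => p.1.1) y x] at h2
        exact h1.2 h2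
  · rcases ht with ⟨⟨u, -, -, hu⟩, -⟩ | ⟨-, ht⟩
    · show π (t j).1.1 = π (t k).1.1
      rw [show (t j).1.1 = u from hu j, show (t k).1.1 = u from hu k]
    · exact h.loc n R hR _ ht j k

theorem QSum.fib {S : L.Structure M} {Q : (LU L).Structure N} {π : N → I} (h : QSum r S Q π)
    (m0 : M) {u : N} (hu : UP Q u) :
    RIso S (fibS (subS Q S m0) (fun p => π p.1.1) (π u)) := by
  refine ⟨⟨fun m => ⟨⟨(u, m), Or.inl hu⟩, rfl⟩, fun p => p.1.1.2, fun m => rfl, ?_⟩, ?_⟩
  · rintro ⟨⟨⟨v, m⟩, hp⟩, hv⟩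
    have : u = v := h.pt u v hu (show π v = π u from hv).symm
    subst this
    rfl
  · intro n R t
    show S.RelMap R t ↔ (InU Q (fun _ => u) ∧ S.RelMap R t) ∨
      (¬ InU Q (fun _ : Fin n => u) ∧ Q.RelMap (ol R) (fun _ => u))
    rcases Nat.eq_zero_or_pos n with rfl | hn
    · have h1 : ¬ InU Q (fun _ : Fin 0 => u) := by
        rintro ⟨_, _, h2, _⟩
        exact absurd h2 (lt_irrefl 0)
      rw [h.nul R _ t]
      tauto
    · have h1 : InU Q (fun _ : Fin n => u) := ⟨u, hu, hn, fun _ => rfl⟩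
      tauto

theorem QSum.restrict {S : L.Structure M} {Q : (LU L).Structure N} {π : N → I}
    (h : QSum r S Q π) (Q0 : (LU L).Structure N0) {ι : N0 → N} (hι : Function.Injective ι)
    (hrel : ∀ (n : ℕ) (R : (LU L).Relations n) (t : Fin n → N0),
      Q0.RelMap R t ↔ Q.RelMap R (fun k => ι (t k))) : QSum r S Q0 (fun z => π (ι z)) := by
  refine ⟨fun x y hxy => ?_, fun n R hR t ht j k => ?_, fun x y hx hxy => ?_, fun R t t' => ?_⟩
  · rw [hrel, hrel, comp_vec2, comp_vec2]
    exact h.lt _ _ hxy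
  · rw [hrel] at ht
    exact h.loc n R hR _ ht j k
  · refine hι (h.pt _ _ ?_ hxy)
    exact (hrel 1 uu _).1 hx
  · rw [hrel]
    exact h.nul R _ t'

/-- Downward Löwenheim–Skolem. -/
theorem exists_small [Countable L.Symbols] (Q : (LU L).Structure N) (A : Set N)
    (hA : A.Countable) : ∃ (N0 : Type) (Q0 : (LU L).Structure N0) (ι : N0 → N), Countable N0 ∧
      Function.Injective ι ∧ A ⊆ range ι ∧
      (∀ (n : ℕ) (R : (LU L).Relations n) (t : Fin n → N0),
        Q0.RelMap R t ↔ Q.RelMap R (fun k => ι (t k))) ∧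
      ∀ φ : (LU L).Sentence, @Sentence.Realize _ N0 Q0 φ ↔ @Sentence.Realize _ N Q φ := by
  by_cases hc : Countable N
  · exact ⟨N, Q, id, hc, Function.injective_id, fun x _ => ⟨x, rfl⟩, fun _ _ _ => Iff.rfl,
      fun _ => Iff.rfl⟩
  · let _ := Q
    have hL : Countable (LU L).Symbols := by
      have h1 : Countable (Σ n, L.Relations n) :=
        Function.Injective.countable (f := (Sum.inr : (Σ n, L.Relations n) → L.Symbols))
          Sum.inr_injective
      have h2 : Countable (Σ n, (LU L).Relations n) := by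
        have h3 : ∀ n, Countable ((LU L).Relations n) := by
          intro n
          have h4 : Countable (L.Relations n) :=
            Function.Injective.countable (f := fun R : L.Relations n =>
              (⟨n, R⟩ : Σ n, L.Relations n)) fun R R' h => eq_of_heq (Sigma.ext_iff.1 h).2
          exact inferInstanceAs (Countable (L.Relations n ⊕ {_u : Unit // n = 1}))
        infer_instance
      have h3 : Countable (Σ n, (LU L).Functions n) :=
        inferInstanceAs (Countable (Σ _ : ℕ, Empty))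
      exact inferInstanceAs (Countable ((Σ n, (LU L).Functions n) ⊕ (Σ n, (LU L).Relations n)))
    have hinf : Cardinal.aleph0 ≤ Cardinal.mk N := by
      have h1 : ¬ Cardinal.mk N ≤ Cardinal.aleph0 := fun h => hc (Cardinal.mk_le_aleph0_iff.1 h)
      exact (not_le.1 h1).le
    have hcard : (LU L).card ≤ Cardinal.aleph0 := by
      rw [Language.card, Cardinal.mk_le_aleph0_iff]
      exact hL
    obtain ⟨S0, h1, h2⟩ := exists_elementarySubstructure_card_eq (LU L) A Cardinal.aleph0.{0} le_rfl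
      (by simpa using hA) (by simpa using hcard) (by simpa using hinf)
    refine ⟨S0, inferInstance, Subtype.val, ?_, Subtype.val_injective, ?_, fun n R t => Iff.rfl,
      fun φ => S0.realize_sentence φ⟩
    · rw [← Cardinal.mk_le_aleph0_iff]
      have h3 : Cardinal.mk S0 = Cardinal.aleph0 := by simpa using h2
      exact h3.le
    · intro x hx
      exact ⟨⟨x, h1 hx⟩, rfl⟩

/-- The structure `Q[S]` can be made countable, and the summands of countably many marked points
can be preserved. -/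
theorem QSum.small [Countable L.Symbols] [Countable M] {S : L.Structure M} (m0 : M)
    {Q : (LU L).Structure N} {π : N → I}
    (h : QSum r S Q π) (T : L.Theory) (hT : @Theory.Model L _ (subS Q S m0) T) (A : Set N)
    (hA : A.Countable) (hne : A.Nonempty) (hAU : ∀ u ∈ A, UP Q u)
    (hinf : Infinite M ∨ A.Infinite) :
    ∃ (P : L.Structure ℕ) (π' : ℕ → I), @Theory.Model L ℕ P T ∧ FSum r P π' ∧
      ∀ u ∈ A, RIso S (fibS P π' (π u)) := by
  obtain ⟨N0, Q0, ι, hcN, hι, hAι, hrel, hsent⟩ := exists_small Q A hA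
  have h0 := h.restrict Q0 hι hrel
  have hUP : ∀ x, UP Q0 x ↔ UP Q (ι x) := fun x => hrel 1 uu _
  have hT0 : @Theory.Model L _ (subS Q0 S m0) T := by
    refine @Theory.Model.mk L _ (subS Q0 S m0) T fun φ hφ => ?_
    obtain ⟨ψ, hψ⟩ := exists_tr_sentence S m0 φ
    rw [hψ, hsent, ← hψ]
    exact @Theory.Model.realize_of_mem L _ (subS Q S m0) T hT φ hφ
  obtain ⟨u0, hu0⟩ := hne
  obtain ⟨n0, hn0⟩ := hAι hu0
  have hn0U : UP Q0 n0 := by rw [hUP, hn0]; exact hAU u0 hu0
  have hcS : Countable (SubT (UP Q0) m0) := inferInstance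
  have hiS : Infinite (SubT (UP Q0) m0) := by
    rcases hinf with hM | hAi
    · exact Infinite.of_injective (fun m : M => (⟨(n0, m), Or.inl hn0U⟩ : SubT (UP Q0) m0))
        fun m m' hm => congrArg (fun p : SubT (UP Q0) m0 => p.1.2) hm
    · have : Infinite A := hAi.to_subtype
      choose pr hpr using fun u : A => hAι u.2
      refine Infinite.of_injective (fun u : A => (⟨(pr u, m0), Or.inr rfl⟩ : SubT (UP Q0) m0))
        fun u u' hu => ?_
      have h1 : pr u = pr u' := congrArg (fun p : SubT (UP Q0) m0 => p.1.1) hu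
      exact Subtype.ext (by rw [← hpr u, ← hpr u', h1])
  obtain ⟨e⟩ : Nonempty (SubT (UP Q0) m0 ≃ ℕ) := nonempty_equiv_of_countable
  refine ⟨trS (subS Q0 S m0) e, _, (riso_trS _ e).model hT0, (h0.fsum m0).trS e, fun u hu => ?_⟩
  obtain ⟨n, rfl⟩ := hAι hu
  have hnU : UP Q0 n := by rw [hUP]; exact hAU _ hu
  exact (h0.fib m0 hnU).trans (fib_trS _ _ e _)

/-- The structure obtained by collapsing summands to points. -/
theorem collapse {P : L.Structure N} {π : N → I} (h : FSum r P π) (hs : Function.Surjective π)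
    (s : Set I) (hne : s.Nonempty) (S : L.Structure M) (m0 : M) (hS : ∀ i ∈ s, EE S (fibS P π i)) :
    ∃ (C : Type) (Q : (LU L).Structure C) (πC : C → I), QSum r S Q πC ∧ EE P (subS Q S m0) ∧
      ∀ i ∈ s, ∃ u, UP Q u ∧ πC u = i := by
  classical
  choose rp hrp using hs
  let C : Type := {z : N // π z ∉ s} ⊕ s
  let rep : C → N := Sum.elim (fun z => z.1) (fun i => rp i.1)
  let πC : C → I := Sum.elim (fun z => π z.1) (fun i => i.1)
  have hrep : ∀ c, π (rep c) = πC c := by
    rintro (z | i)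
    · rfl
    · exact hrp _
  let Q : (LU L).Structure C :=
    { funMap := fun f => isEmptyElim f
      RelMap := fun {n} R t => match R with
        | Sum.inl R => P.RelMap R (fun k => rep (t k))
        | Sum.inr _ => ∃ k, ∃ i : s, t k = Sum.inr i }
  have hUP : ∀ c, UP Q c ↔ ∃ i : s, c = Sum.inr i :=
    fun c => ⟨fun ⟨_, i, hi⟩ => ⟨i, hi⟩, fun ⟨i, hi⟩ => ⟨0, i, hi⟩⟩
  have hol : ∀ {n : ℕ} (R : L.Relations n) (t : Fin n → C),
      Q.RelMap (ol R) t ↔ P.RelMap R (fun k => rep (t k)) := fun R t => Iff.rfl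
  have hnul : ∀ (R : L.Relations 0) (t : Fin 0 → N) (t' : Fin 0 → M),
      P.RelMap R t ↔ S.RelMap R t' := by
    intro R t t'
    obtain ⟨i, hi⟩ := hne
    have h1 := hS i hi (BoundedFormula.rel R (fun k => k.elim0))
    have h2 : S.RelMap R (fun k : Fin 0 => k.elim0) ↔
        P.RelMap R (fun k : Fin 0 => (k.elim0 : N)) := by
      have e1 : ∀ {A : Type} (X : L.Structure A) (w : Fin 0 → A),
          (@Sentence.Realize L A X (BoundedFormula.rel R (fun k => k.elim0)) ↔ X.RelMap R w) := by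
        intro A X w
        show X.RelMap R _ ↔ X.RelMap R w
        have : ∀ w' : Fin 0 → A, w' = w := fun w' => funext fun k => k.elim0
        rw [this (fun k => _)]
      rw [e1 S (fun k => k.elim0), e1 (fibS P π i) (fun k => k.elim0)] at h1
      refine h1.trans ?_
      show P.RelMap R _ ↔ P.RelMap R _
      have : ∀ w w' : Fin 0 → N, w = w' := fun w w' => funext fun k => k.elim0
      rw [this (fun k => _) (fun k => k.elim0)]
    have e3 : t = fun k => k.elim0 := funext fun k => k.elim0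
    have e4 : t' = fun k => k.elim0 := funext fun k => k.elim0
    rw [e3, e4]
    exact h2.symm
  have hQ : QSum r S Q πC := by
    refine ⟨fun x y hxy => ?_, fun n R hR t ht j k => ?_, fun x y hx hxy => ?_, fun R t t' => ?_⟩
    · rw [hol, hol, comp_vec2, comp_vec2]
      refine h.lt _ _ ?_
      rw [hrep, hrep]
      exact hxy
    · rw [hol] at ht
      have := h.loc n R hR _ ht j k
      rwa [hrep, hrep] at this
    · obtain ⟨i, rfl⟩ := (hUP x).1 hx
      rcases y with z | j
      · exfalso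
        have h1 : i.1 = π z.1 := hxy
        exact z.2 (by rw [← h1]; exact i.2)
      · have h1 : i.1 = j.1 := hxy
        rw [Subtype.ext h1]
    · rw [hol]
      exact hnul R _ t'
  refine ⟨C, Q, πC, hQ, ?_, fun i hi => ⟨Sum.inr ⟨i, hi⟩, (hUP _).2 ⟨_, rfl⟩, rfl⟩⟩
  obtain ⟨i0, hi0⟩ := hne
  have : Nonempty I := ⟨i0⟩
  have hsur : Function.Surjective (fun p : SubT (UP Q) m0 => πC p.1.1) := by
    intro i
    by_cases hi : i ∈ s
    · exact ⟨⟨(Sum.inr ⟨i, hi⟩, m0), Or.inr rfl⟩, rfl⟩
    · exact ⟨⟨(Sum.inl ⟨rp i, by rw [hrp]; exact hi⟩, m0), Or.inr rfl⟩, hrp i⟩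
  refine fv h (hQ.fsum m0) (fun i => ⟨rp i, hrp i⟩) hsur fun i => ?_
  by_cases hi : i ∈ s
  · refine (hS i hi).symm.trans (EE.of_riso ?_)
    exact hQ.fib m0 (u := Sum.inr ⟨i, hi⟩) ((hUP _).2 ⟨_, rfl⟩)
  · refine EE.of_riso ?_
    have hz : ∀ p : {p : SubT (UP Q) m0 // πC p.1.1 = i}, ∃ z : {z : N // π z ∉ s},
        p.1.1.1 = Sum.inl z := by
      rintro ⟨⟨⟨z | j, m⟩, hp⟩, hj⟩
      · exact ⟨z, rfl⟩
      · exact absurd (show i ∈ s by rw [← (show j.1 = i from hj)]; exact j.2) hi
    choose zz hzz using hz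
    have hm : ∀ p : {p : SubT (UP Q) m0 // πC p.1.1 = i}, p.1.1.2 = m0 := by
      intro p
      rcases p.1.2 with h1 | h1
      · rw [hzz, hUP] at h1
        obtain ⟨j, hj⟩ := h1
        exact absurd hj (by simp)
      · exact h1
    have hzi : ∀ p, π (zz p).1 = i := by
      intro p
      have := p.2
      rw [hzz] at this
      exact this
    refine ⟨⟨fun z => ⟨⟨(Sum.inl ⟨z.1, by rw [z.2]; exact hi⟩, m0), Or.inr rfl⟩, z.2⟩,
      fun p => ⟨(zz p).1, hzi p⟩, fun z => ?_, fun p => ?_⟩, fun {n} R t => ?_⟩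
    · refine Subtype.ext ?_
      have h1 := hzz ⟨⟨(Sum.inl ⟨z.1, by rw [z.2]; exact hi⟩, m0), Or.inr rfl⟩, z.2⟩
      have h2 := Sum.inl.inj h1
      exact (congrArg Subtype.val h2).symm
    · refine Subtype.ext (Subtype.ext (Prod.ext ?_ ?_))
      · exact (hzz p).symm
      · exact (hm p).symm
    · have hno : ¬ InU Q (fun k => (Sum.inl ⟨(t k).1, by rw [(t k).2]; exact hi⟩ : C)) := by
        rintro ⟨u, hu, hn, h1⟩
        rw [hUP] at hu
        obtain ⟨j, rfl⟩ := hu
        exact absurd (h1 ⟨0, hn⟩) (by simp)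
      show P.RelMap R (fun k => (t k).1) ↔ (InU Q _ ∧ _) ∨ (¬ InU Q _ ∧
        P.RelMap R (fun k => (t k).1))
      constructor
      · intro h1
        exact Or.inr ⟨hno, h1⟩
      · rintro (⟨h1, -⟩ | ⟨-, h1⟩)
        · exact absurd h1 hno
        · exact h1

end Pool.Agent.H12A.OM
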