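import Pool.Agent.H12A.OM.Fo3

set_option autoImplicit false
set_option linter.unusedSectionVars false

/-!
# Many isomorphic summands
-/

namespace Pool.Agent.H12A.OM

open FirstOrder FirstOrder.Language Set
open Pool.Agent.H623R2.VE (term_var RIso)

variable {L : FirstOrder.Language.{0, 0}} [L.IsRelational] {M N N0 : Type} {I I' : Type}
  [LinearOrder I] [LinearOrder I'] {r : L.Relations 2}

theorem fib_nonempty [hM : Nonempty M] {P : L.Structure N} {π : N → I} {i : I}
    {S : L.Structure M} (h : EE S (fibS P π i)) : ∃ z, π z = i := by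
  by_contra hcon
  push Not at hcon
  have h1 := h (BoundedFormula.falsum : L.BoundedFormula Empty 1).all
  have h2 : @Sentence.Realize L {z : N // π z = i} (fibS P π i)
      (BoundedFormula.falsum : L.BoundedFormula Empty 1).all := fun x => (hcon x.1 x.2).elim
  have h3 : ¬ @Sentence.Realize L M S (BoundedFormula.falsum : L.BoundedFormula Empty 1).all :=
    fun h => h hM.some
  exact h3 (h1.2 h2)

/-- Passing to a countable sum whose summands over `s` are isomorphic to `S`. -/
theorem cnt [Countable L.Symbols] [Countable M] [hM : Nonempty M] (T : L.Theory)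
    (S : L.Structure M) (P : L.Structure N)
    (hP : @Theory.Model L N P T) {π : N → I} (h : FSum r P π) (s : Set I) (hsc : s.Countable)
    (hne : s.Nonempty) (hinf : Infinite M ∨ s.Infinite) (hS : ∀ i ∈ s, EE S (fibS P π i)) :
    ∃ (P' : L.Structure ℕ) (π' : ℕ → I), @Theory.Model L ℕ P' T ∧ FSum r P' π' ∧
      ∀ i ∈ s, RIso S (fibS P' π' i) := by
  -- restrict the index order to the range
  let π1 : N → range π := fun z => ⟨π z, z, rfl⟩
  have h1 : FSum r P π1 := ⟨fun x y hxy => h.lt x y hxy,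
    fun n R hR t ht j k => Subtype.ext (h.loc n R hR t ht j k)⟩
  have hπ1 : Function.Surjective π1 := by
    rintro ⟨_, z, rfl⟩
    exact ⟨z, rfl⟩
  let s1 : Set (range π) := {i | i.1 ∈ s}
  have hin : ∀ i ∈ s, i ∈ range π := fun i hi => fib_nonempty (hS i hi)
  have hS1 : ∀ i ∈ s1, EE S (fibS P π1 i) := fun i hi =>
    (hS i.1 hi).trans (EE.of_riso (fib_congr P fun z =>
      ⟨fun hz => Subtype.ext hz, fun hz => congrArg Subtype.val hz⟩))
  have hne1 : s1.Nonempty := by
    obtain ⟨i, hi⟩ := hne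
    exact ⟨⟨i, hin i hi⟩, hi⟩
  obtain ⟨C, Q, πC, hQ, hE, hU⟩ := collapse h1 hπ1 s1 hne1 S hM.some hS1
  choose u hu1 hu2 using hU
  let A : Set C := {c | ∃ i, ∃ hi : i ∈ s1, u i hi = c}
  have hs1c : s1.Countable := hsc.preimage Subtype.val_injective
  have hA : A.Countable := by
    have : Countable s1 := hs1c.to_subtype
    refine (countable_range fun i : s1 => u i.1 i.2).mono ?_
    rintro c ⟨i, hi, rfl⟩
    exact ⟨⟨i, hi⟩, rfl⟩
  have hAinf : Infinite M ∨ A.Infinite := by
    refine hinf.imp id fun hs => ?_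
    have : Infinite s := hs.to_subtype
    refine Set.infinite_of_injective_forall_mem (f := fun i : s => u ⟨i.1, hin i.1 i.2⟩ i.2) ?_
      fun i => ⟨_, _, rfl⟩
    intro i j hij
    have h2 := congrArg πC hij
    simp only [hu2, Subtype.mk.injEq] at h2
    exact Subtype.ext h2
  obtain ⟨P', π', hT', hP', hF⟩ := hQ.small hM.some T (hE.model hP) A hA
    (by obtain ⟨i, hi⟩ := hne1; exact ⟨u i hi, i, hi, rfl⟩)
    (by rintro c ⟨i, hi, rfl⟩; exact hu1 i hi) hAinf
  refine ⟨P', fun z => (π' z).1, hT', hP'.embed (OrderEmbedding.subtype _), fun i hi => ?_⟩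
  have h2 := hF (u ⟨i, hin i hi⟩ hi) ⟨_, hi, rfl⟩
  rw [hu2] at h2
  exact h2.trans (fib_embed P' π' (OrderEmbedding.subtype _) _)

/-- `T` has a countable model which is an ordered sum, indexed by rational numbers, with at least
`n` summands isomorphic to `S`. -/
def Dn (r : L.Relations 2) (T : L.Theory) (S : L.Structure ℕ) (n : ℕ) : Prop :=
  ∃ (P : L.Structure ℕ) (π : ℕ → ℚ), @Theory.Model L ℕ P T ∧ FSum r P π ∧
    ∃ s : Finset ℚ, n ≤ s.card ∧ ∀ i ∈ s, RIso S (fibS P π i)

theorem Dn_one (T : L.Theory) (S : L.Structure ℕ) (hS : @Theory.Model L ℕ S T) :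
    Dn r T S 1 := by
  refine ⟨S, fun _ => 0, hS, ⟨fun x y hxy => absurd hxy (lt_irrefl _), fun _ _ _ _ _ _ _ => rfl⟩,
    {0}, by simp, fun i hi => ?_⟩
  rw [Finset.mem_singleton] at hi
  subst hi
  exact ⟨(Equiv.subtypeUnivEquiv fun _ => rfl).symm, fun _ _ => Iff.rfl⟩

/-- Countable index orders embed into the rationals. -/
theorem to_rat {P : L.Structure ℕ} {π : ℕ → I} (h : FSum r P π) (s : Finset I)
    (S : L.Structure ℕ) (hS : ∀ i ∈ s, RIso S (fibS P π i)) :
    ∃ π' : ℕ → ℚ, FSum r P π' ∧ ∃ s' : Finset ℚ, s.card ≤ s'.card ∧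
      ∀ i ∈ s', RIso S (fibS P π' i) := by
  classical
  let π1 : ℕ → range π := fun z => ⟨π z, z, rfl⟩
  have h1 : FSum r P π1 := ⟨fun x y hxy => h.lt x y hxy,
    fun n R hR t ht j k => Subtype.ext (h.loc n R hR t ht j k)⟩
  have : Countable (range π) := (countable_range π).to_subtype
  obtain ⟨g⟩ := Order.embedding_from_countable_to_dense (range π) ℚ
  have hin : ∀ i ∈ s, i ∈ range π := fun i hi => fib_nonempty (EE.of_riso (hS i hi))
  refine ⟨fun z => g (π1 z), h1.embed g, s.attach.image fun i => g ⟨i.1, hin i.1 i.2⟩, ?_, ?_⟩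
  · rw [Finset.card_image_of_injective, Finset.card_attach]
    intro i j hij
    have := g.injective hij
    rw [Subtype.mk.injEq] at this
    exact Subtype.ext this
  · intro q hq
    obtain ⟨i, -, rfl⟩ := Finset.mem_image.1 hq
    refine (hS i.1 i.2).trans ((fib_congr P fun z => ?_).trans (fib_embed P π1 g _))
    exact ⟨fun hz => Subtype.ext hz, fun hz => congrArg Subtype.val hz⟩

/-- The hypothesis: every countable model is elementarily equivalent to two summands of a
model. -/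
def Dbl (r : L.Relations 2) (T : L.Theory) : Prop := ∀ S : L.Structure ℕ,
  @Theory.Model L ℕ S T → ∃ (N I : Type) (_ : LinearOrder I) (P : L.Structure N) (π : N → I),
    @Theory.Model L N P T ∧ FSum r P π ∧ ∃ p q, p ≠ q ∧ EE S (fibS P π p) ∧ EE S (fibS P π q)

theorem Dn_double [Countable L.Symbols] (T : L.Theory) (hT : Dbl r T) (S : L.Structure ℕ) {n : ℕ}
    (h : Dn r T S n) : Dn r T S (2 * n) := by
  classical
  obtain ⟨P, π, hP, hπ, s, hs, hsS⟩ := h
  obtain ⟨N, I, _, P2, π2, hP2, hπ2, p, q, hpq, hEp, hEq⟩ := hT P hP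
  obtain ⟨P3, π3, hP3, hπ3, hI⟩ := cnt T P P2 hP2 hπ2 {p, q} (Set.toFinite _).countable
    ⟨p, Or.inl rfl⟩ (Or.inl inferInstance) (by rintro i (rfl | rfl) <;> assumption)
  obtain ⟨ep, hep⟩ := hI p (Or.inl rfl)
  obtain ⟨eq, heq⟩ := hI q (Or.inr rfl)
  -- the second coordinate
  let g : ℕ → WithBot ℚ := fun z => if hz : π3 z = p then ((π (ep.symm ⟨z, hz⟩) : ℚ) : WithBot ℚ)
    else if hz : π3 z = q then ((π (eq.symm ⟨z, hz⟩) : ℚ) : WithBot ℚ) else ⊥
  have hgp : ∀ z (hz : π3 z = p), g z = ((π (ep.symm ⟨z, hz⟩) : ℚ) : WithBot ℚ) :=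
    fun z hz => dif_pos hz
  have hgq : ∀ z (hz : π3 z = q), g z = ((π (eq.symm ⟨z, hz⟩) : ℚ) : WithBot ℚ) := by
    intro z hz
    have h1 : ¬ π3 z = p := fun h => hpq (h.symm.trans hz)
    exact (dif_neg h1).trans (dif_pos hz)
  have hgb : ∀ z, π3 z ≠ p → π3 z ≠ q → g z = ⊥ := fun z h1 h2 => (dif_neg h1).trans (dif_neg h2)
  let π4 : ℕ → I ×ₗ WithBot ℚ := fun z => toLex (π3 z, g z)
  -- transfer of relations
  have key : ∀ (c : I) (e : ℕ ≃ {z : ℕ // π3 z = c}),
      (∀ {n : ℕ} (R : L.Relations n) (t : Fin n → ℕ), P.RelMap R t ↔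
        (fibS P3 π3 c).RelMap R (fun k => e (t k))) →
      (∀ z (hz : π3 z = c), g z = ((π (e.symm ⟨z, hz⟩) : ℚ) : WithBot ℚ)) →
      (∀ x y, π3 x = c → π3 y = c → g x < g y → P3.RelMap r ![x, y] ∧ ¬ P3.RelMap r ![y, x]) ∧
      (∀ (n : ℕ) (R : L.Relations n), (⟨n, R⟩ : Σ n, L.Relations n) ≠ ⟨2, r⟩ →
        ∀ t : Fin n → ℕ, (∀ k, π3 (t k) = c) → P3.RelMap R t → ∀ j k, g (t j) = g (t k)) ∧
      ∀ i, RIso (fibS P π i) (fibS P3 π4 (toLex (c, (i : WithBot ℚ)))) := by
    intro c e he hg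
    refine ⟨fun x y hx hy hxy => ?_, fun n R hR t ht htR j k => ?_, fun i => ?_⟩
    · rw [hg x hx, hg y hy, WithBot.coe_lt_coe] at hxy
      have h1 := hπ.lt _ _ hxy
      have h2 : ∀ (x y : ℕ) (hx : π3 x = c) (hy : π3 y = c),
          P.RelMap r ![e.symm ⟨x, hx⟩, e.symm ⟨y, hy⟩] ↔ P3.RelMap r ![x, y] := by
        intro x y hx hy
        rw [he]
        show P3.RelMap r (fun k => (e (![e.symm ⟨x, hx⟩, e.symm ⟨y, hy⟩] k)).1) ↔ _
        rw [comp_vec2 (fun z => (e z).1)]
        simp only [Equiv.apply_symm_apply]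
      rw [h2, h2] at h1
      exact h1
    · have h1 : P.RelMap R (fun k => e.symm ⟨t k, ht k⟩) := by
        rw [he]
        show P3.RelMap R (fun k => (e (e.symm ⟨t k, ht k⟩)).1)
        simp only [Equiv.apply_symm_apply]
        exact htR
      rw [hg _ (ht j), hg _ (ht k), hπ.loc n R hR _ h1 j k]
    · have hiff : ∀ z, π4 z = toLex (c, (i : WithBot ℚ)) ↔
          ∃ hz : π3 z = c, π (e.symm ⟨z, hz⟩) = i := by
        intro z
        constructor
        · intro h1
          have h2 : (π3 z, g z) = (c, (i : WithBot ℚ)) := toLex.injective h1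
          obtain ⟨h3, h4⟩ := Prod.ext_iff.1 h2
          refine ⟨h3, ?_⟩
          rw [show g z = _ from hg z h3] at h4
          exact WithBot.coe_injective h4
        · rintro ⟨h3, h4⟩
          show toLex (π3 z, g z) = _
          rw [hg z h3, h4, h3]
      refine ⟨⟨fun z => ⟨(e z.1).1, (hiff _).2 ⟨(e z.1).2, by simpa using z.2⟩⟩,
        fun z => ⟨e.symm ⟨z.1, ((hiff _).1 z.2).1⟩, ((hiff _).1 z.2).2⟩, fun z => ?_,
        fun z => ?_⟩, fun {n} R t => ?_⟩
      · refine Subtype.ext ?_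
        simp
      · refine Subtype.ext ?_
        simp
      · show P.RelMap R (fun k => (t k).1) ↔ P3.RelMap R (fun k => (e (t k).1).1)
        exact he R _
  have kp := key p ep hep hgp
  have kq := key q eq heq hgq
  have hπ4 : FSum r P3 π4 := by
    refine ⟨fun x y hxy => ?_, fun n R hR t ht j k => ?_⟩
    · rcases (Prod.Lex.toLex_lt_toLex).1 hxy with h1 | ⟨h1, h2⟩
      · exact hπ3.lt x y h1
      · have h1' : π3 x = π3 y := h1
        by_cases hxp : π3 x = p
        · exact kp.1 x y hxp (h1' ▸ hxp) h2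
        · by_cases hxq : π3 x = q
          · exact kq.1 x y hxq (h1' ▸ hxq) h2
          · exfalso
            have h3 : g y = ⊥ := hgb y (h1' ▸ hxp) (h1' ▸ hxq)
            have h4 : g x < g y := h2
            rw [h3] at h4
            exact absurd h4 (not_lt_bot)
    · have h1 := hπ3.loc n R hR t ht
      have h2 : g (t j) = g (t k) := by
        by_cases hp : π3 (t j) = p
        · exact kp.2.1 n R hR t (fun k => (h1 k j).trans hp) ht j k
        · by_cases hq : π3 (t j) = q
          · exact kq.2.1 n R hR t (fun k => (h1 k j).trans hq) ht j k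
          · rw [hgb _ hp hq, hgb _ (fun h => hp ((h1 j k).trans h))
              (fun h => hq ((h1 j k).trans h))]
      show toLex (π3 (t j), g (t j)) = toLex (π3 (t k), g (t k))
      rw [h1 j k, h2]
  let fp : ℚ → I ×ₗ WithBot ℚ := fun i => toLex (p, (i : WithBot ℚ))
  let fq : ℚ → I ×ₗ WithBot ℚ := fun i => toLex (q, (i : WithBot ℚ))
  have hfp : Function.Injective fp := fun i j hij =>
    WithBot.coe_injective (Prod.ext_iff.1 (toLex.injective hij)).2
  have hfq : Function.Injective fq := fun i j hij =>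
    WithBot.coe_injective (Prod.ext_iff.1 (toLex.injective hij)).2
  obtain ⟨π', hπ', s', hs', hS'⟩ := to_rat hπ4 (s.image fp ∪ s.image fq) S (by
    intro i hi
    rcases Finset.mem_union.1 hi with hi | hi
    · obtain ⟨j, hj, rfl⟩ := Finset.mem_image.1 hi
      exact (hsS j hj).trans (kp.2.2 j)
    · obtain ⟨j, hj, rfl⟩ := Finset.mem_image.1 hi
      exact (hsS j hj).trans (kq.2.2 j))
  refine ⟨P3, π', hP3, hπ', s', ?_, hS'⟩
  refine le_trans ?_ hs'
  rw [Finset.card_union_of_disjoint, Finset.card_image_of_injective _ hfp,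
    Finset.card_image_of_injective _ hfq]
  · omega
  · rw [Finset.disjoint_left]
    intro x hx hx'
    obtain ⟨i, -, rfl⟩ := Finset.mem_image.1 hx
    obtain ⟨j, -, hj⟩ := Finset.mem_image.1 hx'
    exact hpq (Prod.ext_iff.1 (toLex.injective hj)).1.symm

theorem Dn_mono {T : L.Theory} {S : L.Structure ℕ} {n m : ℕ} (h : Dn r T S n) (hm : m ≤ n) :
    Dn r T S m := by
  obtain ⟨P, π, hP, hπ, s, hs, hsS⟩ := h
  exact ⟨P, π, hP, hπ, s, hm.trans hs, hsS⟩

theorem Dn_all [Countable L.Symbols] (T : L.Theory) (hT : Dbl r T) (S : L.Structure ℕ)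
    (hS : @Theory.Model L ℕ S T) (n : ℕ) : Dn r T S n := by
  have h1 : ∀ k : ℕ, Dn r T S (2 ^ k) := by
    intro k
    induction k with
    | zero => exact Dn_one T S hS
    | succ k ih =>
      rw [pow_succ, mul_comm]
      exact Dn_double T hT S ih
  exact Dn_mono (h1 n) Nat.lt_two_pow_self.le

/-- Infinitely many isomorphic summands. -/
theorem exists_inf [Countable L.Symbols] (T : L.Theory) (S : L.Structure ℕ)
    (h : ∀ n, Dn r T S n) : ∃ (I : Type) (_ : LinearOrder I) (P : L.Structure ℕ) (π : ℕ → I),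
      @Theory.Model L ℕ P T ∧ FSum r P π ∧ {i | RIso S (fibS P π i)}.Infinite := by
  classical
  choose P π hP hπ s hs hsS using fun n => h (n + 1)
  have hcol : ∀ n, ∃ (C : Type) (Q : (LU L).Structure C) (πC : C → ℚ), QSum r S Q πC ∧
      (@Theory.Model L _ (subS Q S 0) T) ∧ ∀ i ∈ s n, ∃ u, UP Q u ∧ πC u = i := by
    intro n
    let π1 : ℕ → range (π n) := fun z => ⟨π n z, z, rfl⟩
    have h1 : FSum r (P n) π1 := ⟨fun x y hxy => (hπ n).lt x y hxy,
      fun m R hR t ht j k => Subtype.ext ((hπ n).loc m R hR t ht j k)⟩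
    have hπ1 : Function.Surjective π1 := by
      rintro ⟨_, z, rfl⟩
      exact ⟨z, rfl⟩
    have hin : ∀ i ∈ s n, i ∈ range (π n) := fun i hi => fib_nonempty (EE.of_riso (hsS n i hi))
    obtain ⟨i0, hi0⟩ : (s n).Nonempty := by
      rw [← Finset.card_pos]
      exact lt_of_lt_of_le (Nat.succ_pos n) (hs n)
    obtain ⟨C, Q, πC, hQ, hE, hU⟩ := collapse h1 hπ1 {i | i.1 ∈ s n} ⟨⟨i0, hin i0 hi0⟩, hi0⟩ S 0
      (fun i hi => (EE.of_riso (hsS n i.1 hi)).trans (EE.of_riso (fib_congr (P n) fun z =>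
        ⟨fun hz => Subtype.ext hz, fun hz => congrArg Subtype.val hz⟩)))
    refine ⟨C, Q, fun c => (πC c).1, ⟨fun x y hxy => hQ.lt x y hxy, fun m R hR t ht j k =>
      congrArg Subtype.val (hQ.loc m R hR t ht j k), fun x y hx hxy => hQ.pt x y hx
      (Subtype.ext hxy), hQ.nul⟩, hE.model (hP n), fun i hi => ?_⟩
    obtain ⟨u, hu, hu'⟩ := hU ⟨i, hin i hi⟩ hi
    exact ⟨u, hu, congrArg Subtype.val hu'⟩
  choose C Q πC hQ hTQ hU using hcol
  -- marked points
  have hpts : ∀ n, ∃ f : ℕ → C n, (∀ j, UP (Q n) (f j)) ∧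
      ∀ i j, i ≤ n → j ≤ n → f i = f j → i = j := by
    intro n
    obtain ⟨g⟩ : Nonempty (Fin (n + 1) ↪ s n) := by
      have : Fintype.card (Fin (n + 1)) ≤ Fintype.card (s n) := by simpa using hs n
      exact Function.Embedding.nonempty_of_card_le this
    choose u hu1 hu2 using hU n
    refine ⟨fun j => if hj : j < n + 1 then u (g ⟨j, hj⟩) (g ⟨j, hj⟩).2 else
      u (g ⟨0, Nat.succ_pos n⟩) (g ⟨0, Nat.succ_pos n⟩).2, fun j => ?_, fun i j hi hj hij => ?_⟩
    · dsimp only
      split_ifs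
      · exact hu1 _ _
      · exact hu1 _ _
    · have hi' : i < n + 1 := Nat.lt_succ_of_le hi
      have hj' : j < n + 1 := Nat.lt_succ_of_le hj
      simp only [dif_pos hi', dif_pos hj'] at hij
      have h1 := congrArg (πC n) hij
      rw [hu2, hu2] at h1
      have h2 := g.injective (Subtype.ext h1)
      exact congrArg Fin.val h2
  choose f hf1 hf2 using hpts
  have hneC : ∀ n, Nonempty (C n) := fun n => ⟨f n 0⟩
  let _ := Q
  let u : Ultrafilter ℕ := Filter.hyperfilter ℕ
  let CU : Type := (u : Filter ℕ).Product C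
  let QU : (LU L).Structure CU := Ultraproduct.structure
  have hsentU : ∀ φ : (LU L).Sentence, @Sentence.Realize _ CU QU φ ↔
      ∀ᶠ k in (u : Filter ℕ), @Sentence.Realize _ (C k) (Q k) φ := fun φ =>
    Ultraproduct.sentence_realize (M := C) (u := u) φ
  let πU : CU → Filter.Germ (u : Filter ℕ) ℚ := Quotient.map' (fun x k => πC k (x k))
    (fun x y hxy => by
      refine Filter.Eventually.mono (show ∀ᶠ k in (u : Filter ℕ), x k = y k from hxy) fun k hk => ?_
      simp only [hk])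
  obtain ⟨mk, hpoint, hmk, hrelU, hπU⟩ : ∃ mk : (∀ k, C k) → CU, (∀ c, ∃ x, mk x = c) ∧
      (∀ x y, mk x = mk y ↔ ∀ᶠ k in (u : Filter ℕ), x k = y k) ∧
      (∀ {n : ℕ} (R : (LU L).Relations n) (t : Fin n → ∀ k, C k),
        QU.RelMap R (fun j => mk (t j)) ↔
          ∀ᶠ k in (u : Filter ℕ), (Q k).RelMap R (fun j => t j k)) ∧
      ∀ x, πU (mk x) = ((fun k => πC k (x k) : ℕ → ℚ) : Filter.Germ (u : Filter ℕ) ℚ) := by
    refine ⟨fun x => Quotient.mk _ x, fun c => Quotient.exists_rep c, fun x y => Quotient.eq,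
      fun {n} R t => ?_, fun x => rfl⟩
    exact relMap_quotient_mk' (((u : Filter ℕ)).productSetoid C) R t
  have hQU : QSum r S QU πU := by
    refine ⟨fun x y hxy => ?_, fun n R hR t ht j k => ?_, fun x y hx hxy => ?_, fun R t t' => ?_⟩
    · obtain ⟨x, rfl⟩ := hpoint x
      obtain ⟨y, rfl⟩ := hpoint y
      rw [hπU, hπU, Filter.Germ.coe_lt] at hxy
      have e : ∀ x y : ∀ k, C k, ![mk x, mk y] = fun j => mk ((![x, y] : Fin 2 → ∀ k, C k) j) := by
        intro x y
        rw [comp_vec2 mk]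
      rw [e, e, hrelU, hrelU]
      constructor
      · refine hxy.mono fun k hk => ?_
        rw [comp_vec2 (fun z : ∀ k, C k => z k)]
        exact ((hQ k).lt _ _ hk).1
      · intro h1
        obtain ⟨k, h2, h3⟩ := (hxy.and h1).exists
        rw [comp_vec2 (fun z : ∀ k, C k => z k)] at h3
        exact ((hQ k).lt _ _ h2).2 h3
    · choose x hx using fun j => hpoint (t j)
      have e : t = fun j => mk (x j) := funext fun j => (hx j).symm
      rw [e, hrelU] at ht
      rw [← hx, ← hx, hπU, hπU, Filter.Germ.coe_eq]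
      exact ht.mono fun k' hk' => (hQ k').loc n R hR _ hk' j k
    · obtain ⟨x, rfl⟩ := hpoint x
      obtain ⟨y, rfl⟩ := hpoint y
      rw [hπU, hπU, Filter.Germ.coe_eq] at hxy
      have h1 : ∀ᶠ k in (u : Filter ℕ), UP (Q k) (x k) :=
        (hrelU (uu : (LU L).Relations 1) (fun _ => x)).1 hx
      rw [hmk]
      filter_upwards [h1, hxy] with k h2 h3
      exact (hQ k).pt _ _ h2 h3
    · have e : t = fun j : Fin 0 => mk ((fun j => j.elim0 : Fin 0 → ∀ k, C k) j) :=
        funext fun j => j.elim0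
      rw [e, hrelU]
      constructor
      · intro h1
        obtain ⟨k, hk⟩ := h1.exists
        exact ((hQ k).nul R _ t').1 hk
      · intro h1
        exact Filter.Eventually.of_forall fun k => ((hQ k).nul R _ t').2 h1
  have hTU : @Theory.Model L _ (subS QU S 0) T := by
    refine @Theory.Model.mk L _ (subS QU S 0) T fun φ hφ => ?_
    obtain ⟨ψ, hψ⟩ := exists_tr_sentence S 0 φ
    rw [hψ, hsentU]
    refine Filter.Eventually.of_forall fun k => ?_
    rw [← hψ]
    exact @Theory.Model.realize_of_mem L _ (subS (Q k) S 0) T (hTQ k) φ hφ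
  let pt : ℕ → CU := fun j => mk (fun k => f k j)
  have hptU : ∀ j, UP QU (pt j) := fun j =>
    (hrelU (uu : (LU L).Relations 1) (fun _ k => f k j)).2
      (Filter.Eventually.of_forall fun k => hf1 k j)
  have hptinj : Function.Injective pt := by
    intro i j hij
    have h1 : ∀ᶠ k in (u : Filter ℕ), f k i = f k j := (hmk _ _).1 hij
    have h2 : ∀ᶠ k in (u : Filter ℕ), max i j ≤ k := by
      have h3 : (u : Filter ℕ) ≤ Filter.atTop := by
        rw [← Nat.cofinite_eq_atTop]
        exact Filter.hyperfilter_le_cofinite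
      exact h3 (Filter.eventually_ge_atTop (max i j))
    obtain ⟨k, h3, h4⟩ := (h1.and h2).exists
    exact hf2 k i j ((le_max_left _ _).trans h4) ((le_max_right _ _).trans h4) h3
  obtain ⟨P', π', hT', hP', hF⟩ := hQU.small 0 T hTU (range pt) (countable_range pt)
    ⟨pt 0, 0, rfl⟩ (by rintro c ⟨j, rfl⟩; exact hptU j) (Or.inl inferInstance)
  refine ⟨_, inferInstance, P', π', hT', hP', ?_⟩
  refine Set.infinite_of_injective_forall_mem (f := fun j : ℕ => πU (pt j)) ?_ fun j => hF _ ⟨j, rfl⟩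
  intro i j hij
  exact hptinj (hQU.pt _ _ (hptU i) hij)

end Pool.Agent.H12A.OM
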