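import Pool.Agent.H12A.OM.Fo6
import Pool.Agent.H12A.OM.Bor

set_option autoImplicit false
set_option linter.unusedSectionVars false

/-!
# First-order theories: coding of structures and the dichotomy
-/

namespace Pool.Agent.H12A.OM

open FirstOrder FirstOrder.Language Set MeasureTheory
open Pool.Agent.H623R2.VE (term_var)
open Pool.Agent.H533R2.VO (RS Dich)

variable {L : FirstOrder.Language.{0, 0}} [L.IsRelational]

theorem Rz_sentence {N : Type} (S : L.Structure N) (φ : L.Sentence) (v : Fin 0 → N) :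
    Rz S φ v ↔ @Sentence.Realize L N S φ := by
  have h : v = (default : Fin 0 → N) := Subsingleton.elim _ _
  rw [h]
  exact Iff.rfl

/-- Change of the length of a tuple. -/
def cv {n : ℕ} (m : ℕ) (t : Fin n → ℕ) : Fin m → ℕ := fun k => ent t k.1

theorem cv_self {n : ℕ} (t : Fin n → ℕ) : cv n t = t := by
  funext k
  simp [cv, ent]

theorem cv_comp {n m : ℕ} (h : m = n) (f : ℕ → ℕ) (t : Fin n → ℕ) :
    cv m (f ∘ t) = f ∘ cv m t := by
  subst h
  rw [cv_self, cv_self]

/-- The arities. -/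
def ar2 (en : ℕ → Σ n, L.Relations n) : ℕ → ℕ
  | 0 => 2
  | i + 1 => (en i).1

open Classical in
/-- The code of a structure. -/
noncomputable def toR (en : ℕ → Σ n, L.Relations n) (r : L.Relations 2) (S : L.Structure ℕ) :
    RS (ar2 en)
  | 0 => fun t => decide (S.RelMap r t)
  | i + 1 => fun t => decide (en i ≠ ⟨2, r⟩ ∧ S.RelMap (en i).2 t)

/-- The structure coded by `R`. -/
@[reducible] def toS (en : ℕ → Σ n, L.Relations n) (g : (Σ n, L.Relations n) → ℕ)
    (r : L.Relations 2) (R : RS (ar2 en)) : L.Structure ℕ where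
  funMap f := isEmptyElim f
  RelMap {n} ρ t := ((⟨n, ρ⟩ : Σ n, L.Relations n) = ⟨2, r⟩ ∧ R 0 (cv 2 t) = true) ∨
    ((⟨n, ρ⟩ : Σ n, L.Relations n) ≠ ⟨2, r⟩ ∧ R (g ⟨n, ρ⟩ + 1) (cv _ t) = true)

section code

variable {en : ℕ → Σ n, L.Relations n} {g : (Σ n, L.Relations n) → ℕ} {r : L.Relations 2}

theorem cv_rel {s s' : Σ n, L.Relations n} (h : s' = s) (S : L.Structure ℕ) (t : Fin s.1 → ℕ) :
    S.RelMap s'.2 (cv s'.1 t) ↔ S.RelMap s.2 t := by
  subst h
  rw [cv_self]

theorem toR_zero (S : L.Structure ℕ) (t : Fin 2 → ℕ) :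
    (toR en r S 0 t = true) ↔ S.RelMap r t := by
  simp only [toR, decide_eq_true_eq]

theorem toR_succ (S : L.Structure ℕ) (i : ℕ) (t : Fin (en i).1 → ℕ) :
    (toR en r S (i + 1) t = true) ↔ en i ≠ ⟨2, r⟩ ∧ S.RelMap (en i).2 t := by
  simp only [toR, decide_eq_true_eq]

theorem toS_toR (hg : ∀ s, en (g s) = s) (S : L.Structure ℕ) {n : ℕ} (ρ : L.Relations n)
    (t : Fin n → ℕ) : (toS en g r (toR en r S)).RelMap ρ t ↔ S.RelMap ρ t := by
  show ((⟨n, ρ⟩ : Σ n, L.Relations n) = ⟨2, r⟩ ∧ toR en r S 0 (cv 2 t) = true) ∨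
    ((⟨n, ρ⟩ : Σ n, L.Relations n) ≠ ⟨2, r⟩ ∧ toR en r S (g ⟨n, ρ⟩ + 1) (cv _ t) = true) ↔ _
  rw [toR_zero]
  by_cases h : (⟨n, ρ⟩ : Σ n, L.Relations n) = ⟨2, r⟩
  · have h1 : S.RelMap r (cv 2 t) ↔ S.RelMap ρ t :=
      cv_rel (s := ⟨n, ρ⟩) (s' := ⟨2, r⟩) h.symm S t
    rw [h1]
    tauto
  · have h2 : (toR en r S (g ⟨n, ρ⟩ + 1) (cv _ t) = true) ↔ S.RelMap ρ t := by
      refine (toR_succ S (g ⟨n, ρ⟩) (cv _ t)).trans ?_
      have h3 : S.RelMap (en (g ⟨n, ρ⟩)).2 (cv (en (g ⟨n, ρ⟩)).1 t) ↔ S.RelMap ρ t :=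
        cv_rel (s := ⟨n, ρ⟩) (hg _) S t
      rw [hg] at h3
      rw [hg]
      exact (and_iff_right h).trans h3
    tauto

theorem riso_toS_toR (hg : ∀ s, en (g s) = s) (S : L.Structure ℕ) :
    H623R2.VE.RIso S (toS en g r (toR en r S)) :=
  ⟨Equiv.refl ℕ, fun R t => (toS_toR hg S R t).symm⟩

/-- Isomorphic codes code isomorphic structures. -/
theorem riso_toS (hg : ∀ s, en (g s) = s) {R R' : RS (ar2 en)} (h : H533R2.VO.RIso R R') :
    H623R2.VE.RIso (toS en g r R) (toS en g r R') := by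
  obtain ⟨σ, hσ⟩ := h
  refine ⟨σ, fun {n} ρ t => ?_⟩
  show (_ ∧ R 0 (cv 2 t) = true) ∨ (_ ∧ R (g ⟨n, ρ⟩ + 1) (cv _ t) = true) ↔
    (_ ∧ R' 0 (cv 2 (σ ∘ t)) = true) ∨ (_ ∧ R' (g ⟨n, ρ⟩ + 1) (cv _ (σ ∘ t)) = true)
  refine or_congr (and_congr_right fun h1 => ?_) (and_congr_right fun h1 => ?_)
  · have h2 : 2 = n := (congrArg Sigma.fst h1).symm
    have h3 : R' 0 (cv 2 (σ ∘ t)) = R 0 (cv 2 t) :=
      (congrArg (R' 0) (cv_comp h2 σ t)).trans (hσ 0 (cv 2 t))
    exact ⟨fun h => h3.trans h, fun h => h3.symm.trans h⟩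
  · have h2 : (en (g ⟨n, ρ⟩)).1 = n := congrArg Sigma.fst (hg ⟨n, ρ⟩)
    have h3 := hσ (g ⟨n, ρ⟩ + 1) (cv _ t)
    have h4 : (cv (ar2 en (g ⟨n, ρ⟩ + 1)) (σ ∘ t)) = σ ∘ (cv (ar2 en (g ⟨n, ρ⟩ + 1)) t) :=
      cv_comp h2 _ _
    rw [h4, h3]

/-- Isomorphic structures have isomorphic codes. -/
theorem riso_toR {S S' : L.Structure ℕ} (h : H623R2.VE.RIso S S') :
    H533R2.VO.RIso (toR en r S) (toR en r S') := by
  obtain ⟨e, he⟩ := h
  refine ⟨e, fun i v => ?_⟩
  rw [Bool.eq_iff_iff]
  cases i with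
  | zero => exact (toR_zero S' (e ∘ v)).trans ((he r v).symm.trans (toR_zero S v).symm)
  | succ i =>
    refine (toR_succ S' i (e ∘ v)).trans (Iff.trans ?_ (toR_succ S i v).symm)
    exact and_congr_right fun _ => (he (en i).2 v).symm

theorem meas_toS {n : ℕ} (φ : L.BoundedFormula Empty n) :
    ∀ xs : Fin n → ℕ, MeasurableSet {R : RS (ar2 en) | Rz (toS en g r R) φ xs} := by
  induction φ with
  | falsum => exact fun xs => MeasurableSet.empty
  | @equal n t1 t2 =>
    intro xs
    obtain ⟨i, rfl⟩ := term_var t1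
    obtain ⟨j, rfl⟩ := term_var t2
    exact MeasurableSet.const (xs i = xs j)
  | @rel n l ρ ts =>
    intro xs
    choose i hi using fun k => term_var (ts k)
    obtain rfl : ts = fun k => Term.var (Sum.inr (i k)) := funext hi
    have e : {R : RS (ar2 en) | Rz (toS en g r R) (BoundedFormula.rel ρ
        (fun k => Term.var (Sum.inr (i k)))) xs} =
      ({R : RS (ar2 en) | (⟨l, ρ⟩ : Σ n, L.Relations n) = ⟨2, r⟩} ∩
        {R : RS (ar2 en) | R 0 (cv 2 (fun k => xs (i k))) = true}) ∪
      ({R : RS (ar2 en) | (⟨l, ρ⟩ : Σ n, L.Relations n) ≠ ⟨2, r⟩} ∩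
        {R : RS (ar2 en) | R (g ⟨l, ρ⟩ + 1) (cv _ (fun k => xs (i k))) = true}) := by
      ext R
      exact Iff.rfl
    rw [e]
    exact ((MeasurableSet.const _).inter (meas_rel _ _ (measurableSet_singleton true))).union
      ((MeasurableSet.const _).inter (meas_rel _ _ (measurableSet_singleton true)))
  | @imp n f g' ihf ihg =>
    intro xs
    have e : {R : RS (ar2 en) | Rz (toS en g r R) (f.imp g') xs} =
      {R : RS (ar2 en) | Rz (toS en g r R) f xs}ᶜ ∪
      {R : RS (ar2 en) | Rz (toS en g r R) g' xs} := by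
      ext c
      exact imp_iff_not_or
    rw [e]
    exact (ihf xs).compl.union (ihg xs)
  | @all n f ih =>
    intro xs
    have e : {R : RS (ar2 en) | Rz (toS en g r R) f.all xs} =
      ⋂ b : ℕ, {R : RS (ar2 en) | Rz (toS en g r R) f (Fin.snoc xs b)} := by
      ext c
      simp only [mem_iInter]
      exact Iff.rfl
    rw [e]
    exact MeasurableSet.iInter fun b => ih _

/-- Codes of ordered sums. -/
theorem osum_toR {P : L.Structure ℕ} {I : Type} [LinearOrder I] {π : ℕ → I} (h : FSum r P π) :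
    OSum 0 (toR en r P) π := by
  have hp : ∀ x y : ℕ, (pair x y : Fin 2 → ℕ) = ![x, y] := by
    intro x y
    funext j
    fin_cases j <;> rfl
  refine ⟨fun x y hxy => ?_, fun i hi t ht j k => ?_⟩
  · have h1 := h.lt x y hxy
    constructor
    · refine (toR_zero P _).2 ?_
      have h2 : P.RelMap r (pair x y : Fin 2 → ℕ) := by rw [hp]; exact h1.1
      exact h2
    · rw [← Bool.not_eq_true]
      intro h2
      have h3 : P.RelMap r (pair y x : Fin 2 → ℕ) := (toR_zero P _).1 h2
      rw [hp] at h3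
      exact h1.2 h3
  · cases i with
    | zero => exact absurd rfl hi
    | succ i =>
      have h1 := (toR_succ P i t).1 ht
      exact h.loc _ _ h1.1 t h1.2 j k

theorem fib_toR {S P : L.Structure ℕ} {J : Type} {ρ : ℕ → J} {j : J} {I : Type} {π : ℕ → I}
    {q : I} (h : H623R2.VE.RIso (fibS S ρ j) (fibS P π q)) :
    Fib (toR en r S) ρ j (toR en r P) π q := by
  classical
  obtain ⟨e, he⟩ := h
  let f : ℕ → ℕ := fun z => if hz : ρ z = j then (e ⟨z, hz⟩).1 else 0
  have hf : ∀ z (hz : ρ z = j), f z = (e ⟨z, hz⟩).1 := fun z hz => dif_pos hz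
  refine ⟨f, ⟨fun z hz => ?_, fun z hz z' hz' hzz => ?_, fun z hz => ?_⟩, fun i v hv => ?_⟩
  · show π (f z) = q
    rw [hf z hz]
    exact (e _).2
  · rw [hf z hz, hf z' hz'] at hzz
    exact congrArg Subtype.val (e.injective (Subtype.ext hzz))
  · refine ⟨(e.symm ⟨z, hz⟩).1, (e.symm ⟨z, hz⟩).2, ?_⟩
    rw [hf _ (e.symm ⟨z, hz⟩).2]
    simp
  · have hfv : f ∘ v = fun k => (e ⟨v k, hv k⟩).1 := funext fun k => hf (v k) (hv k)
    have key : ∀ {n : ℕ} (R : L.Relations n) (w : Fin n → ℕ) (hw : ∀ k, ρ (w k) = j),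
        (P.RelMap R (fun k => (e ⟨w k, hw k⟩).1) ↔ S.RelMap R w) := fun R w hw =>
      (he R (fun k => ⟨w k, hw k⟩)).symm
    rw [hfv, Bool.eq_iff_iff]
    cases i with
    | zero => exact (toR_zero P _).trans ((key r v hv).trans (toR_zero S v).symm)
    | succ i =>
      refine (toR_succ P i _).trans (Iff.trans ?_ (toR_succ S i v).symm)
      exact and_congr_right fun _ => key (en i).2 v hv

end code

/-- Every point of every countable model `S` of `T` lies in a summand of `S` such that each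
sentence that holds in it holds in arbitrarily many summands of models of `T`. -/
def Loc (r : L.Relations 2) (T : L.Theory) : Prop := ∀ S : L.Structure ℕ,
  @Theory.Model L ℕ S T → ∀ x : ℕ, ∃ (J : Type) (_ : LinearOrder J) (ρ : ℕ → J),
    FSum r S ρ ∧ Many r T (fibS S ρ (ρ x))

theorem loc_of_dbl [Countable L.Symbols] {r : L.Relations 2} {T : L.Theory} (hT : Dbl r T) :
    Loc r T := by
  intro S hS x
  have h1 : H623R2.VE.RIso (fibS S (fun _ : ℕ => ()) ()) S :=
    ⟨Equiv.subtypeUnivEquiv fun _ => rfl, fun _ _ => Iff.rfl⟩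
  refine ⟨Unit, inferInstance, fun _ => (), ⟨fun x y h => absurd h (lt_irrefl _),
      fun _ _ _ _ _ _ _ => rfl⟩, fun θ hθ n => ?_⟩
  obtain ⟨P, π, hP, hπ, s, hs, hsS⟩ := Dn_all T hT S hS n
  exact ⟨ℕ, ℚ, inferInstance, P, π, hP, hπ, s, hs, fun i hi =>
    (EE.of_riso (h1.trans (hsS i hi)) θ).1 hθ⟩

/-- Vaught's conjecture for the theories `T` such that every point of every countable model `S` of
`T` lies in a summand of `S` each first-order property of which is shared by arbitrarily many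
summands of models of `T`. -/
theorem fo_dich [Countable L.Symbols] (r : L.Relations 2) (T : L.Theory) (hT : Loc r T) :
    (∃ f : ℕ → L.Structure ℕ, ∀ S : L.Structure ℕ, @Theory.Model L ℕ S T →
      ∃ n, H623R2.VE.RIso S (f n)) ∨
    (∃ F : (ℕ → Bool) → L.Structure ℕ, (∀ x, @Theory.Model L ℕ (F x) T) ∧
      (∀ (n : ℕ) (R : L.Relations n) (t : Fin n → ℕ), IsClopen {x | (F x).RelMap R t}) ∧
      ∀ x y, H623R2.VE.RIso (F x) (F y) → x = y) := by
  have hcR : Countable (Σ n, L.Relations n) :=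
    Function.Injective.countable (f := (Sum.inr : (Σ n, L.Relations n) → L.Symbols))
      Sum.inr_injective
  have hne : Nonempty (Σ n, L.Relations n) := ⟨⟨2, r⟩⟩
  obtain ⟨en, hen⟩ := exists_surjective_nat (Σ n, L.Relations n)
  choose g hg using hen
  have hcT : T.Countable := to_countable T
  let K : Set (RS (ar2 en)) := {R | @Theory.Model L ℕ (toS en g r R) T ∧
    toR en r (toS en g r R) = R}
  have hmem : ∀ S : L.Structure ℕ, @Theory.Model L ℕ S T → toR en r S ∈ K := by
    intro S hS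
    refine ⟨(riso_toS_toR hg S).model hS, ?_⟩
    funext i t
    rw [Bool.eq_iff_iff]
    cases i with
    | zero => exact (toR_zero _ t).trans ((toS_toR hg S r t).trans (toR_zero S t).symm)
    | succ i =>
      refine (toR_succ _ i t).trans (Iff.trans ?_ (toR_succ S i t).symm)
      exact and_congr_right fun _ => toS_toR hg S (en i).2 t
  have hK : MeasurableSet K := by
    refine MeasurableSet.inter ?_ ?_
    · have e : {R : RS (ar2 en) | @Theory.Model L ℕ (toS en g r R) T} =
          ⋂ φ ∈ T, {R : RS (ar2 en) | Rz (toS en g r R) φ default} := by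
        ext c
        simp only [mem_iInter, Set.mem_ofPred_eq]
        constructor
        · intro h φ hφ
          exact (Rz_sentence _ φ _).2
            (@Theory.Model.realize_of_mem L ℕ (toS en g r c) T h φ hφ)
        · intro h
          exact @Theory.Model.mk L ℕ (toS en g r c) T fun φ hφ => (Rz_sentence _ φ _).1 (h φ hφ)
      change MeasurableSet {R : RS (ar2 en) | @Theory.Model L ℕ (toS en g r R) T}
      rw [e]
      exact MeasurableSet.biInter hcT fun φ _ => meas_toS φ _
    · have hS : ∀ {n : ℕ} (ρ : L.Relations n) (t : Fin n → ℕ),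
          MeasurableSet {R : RS (ar2 en) | (toS en g r R).RelMap ρ t} := by
        intro n ρ t
        have := meas_toS (en := en) (g := g) (r := r)
          (BoundedFormula.rel ρ (fun k => Term.var (Sum.inr k)) : L.BoundedFormula Empty n) t
        exact this
      have e : {R : RS (ar2 en) | toR en r (toS en g r R) = R} =
          ⋂ i, ⋂ t, {R : RS (ar2 en) | toR en r (toS en g r R) i t = R i t} := by
        ext R
        simp only [mem_iInter]
        constructor
        · intro h i t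
          have h' : toR en r (toS en g r R) = R := h
          show toR en r (toS en g r R) i t = R i t
          rw [h']
        · intro h
          exact funext fun i => funext fun t => h i t
      change MeasurableSet {R : RS (ar2 en) | toR en r (toS en g r R) = R}
      rw [e]
      refine MeasurableSet.iInter fun i => MeasurableSet.iInter fun t => ?_
      have h1 : MeasurableSet {R : RS (ar2 en) | toR en r (toS en g r R) i t = true} := by
        cases i with
        | zero =>
          have e1 : {R : RS (ar2 en) | toR en r (toS en g r R) 0 t = true} =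
              {R : RS (ar2 en) | (toS en g r R).RelMap r t} := by
            ext R
            exact toR_zero _ t
          rw [e1]
          exact hS r t
        | succ i =>
          have e1 : {R : RS (ar2 en) | toR en r (toS en g r R) (i + 1) t = true} =
              {R : RS (ar2 en) | en i ≠ ⟨2, r⟩} ∩
              {R : RS (ar2 en) | (toS en g r R).RelMap (en i).2 t} := by
            ext R
            exact toR_succ _ i t
          rw [e1]
          exact (MeasurableSet.const _).inter (hS (en i).2 t)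
      have h2 : MeasurableSet {R : RS (ar2 en) | R i t = true} :=
        meas_rel i t (measurableSet_singleton true)
      have e2 : {R : RS (ar2 en) | toR en r (toS en g r R) i t = R i t} =
          ({R : RS (ar2 en) | toR en r (toS en g r R) i t = true} ∩
            {R : RS (ar2 en) | R i t = true}) ∪
          ({R : RS (ar2 en) | toR en r (toS en g r R) i t = true}ᶜ ∩
            {R : RS (ar2 en) | R i t = true}ᶜ) := by
        ext R
        simp only [Set.mem_ofPred_eq, mem_union, mem_inter_iff, mem_compl_iff]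
        cases toR en r (toS en g r R) i t <;> cases R i t <;> simp
      rw [e2]
      exact (h1.inter h2).union (h1.compl.inter h2.compl)
  have hinv' : ∀ x y : RS (ar2 en), H533R2.VO.RIso x y → x ∈ K → y ∈ K := by
    rintro x y hxy ⟨hx1, hx2⟩
    refine ⟨(riso_toS hg hxy).model hx1, ?_⟩
    obtain ⟨σ, hσ⟩ := hxy
    have h1 : H623R2.VE.RIso (toS en g r x) (toS en g r y) := riso_toS hg ⟨σ, hσ⟩
    -- the isomorphism is `σ` itself
    have h2 : ∀ {n : ℕ} (ρ : L.Relations n) (t : Fin n → ℕ),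
        (toS en g r x).RelMap ρ t ↔ (toS en g r y).RelMap ρ (fun k => σ (t k)) := by
      intro n ρ t
      show (_ ∧ x 0 (cv 2 t) = true) ∨ (_ ∧ x (g ⟨n, ρ⟩ + 1) (cv _ t) = true) ↔
        (_ ∧ y 0 (cv 2 (σ ∘ t)) = true) ∨ (_ ∧ y (g ⟨n, ρ⟩ + 1) (cv _ (σ ∘ t)) = true)
      refine or_congr (and_congr_right fun h1 => ?_) (and_congr_right fun h1 => ?_)
      · have h2 : 2 = n := (congrArg Sigma.fst h1).symm
        have h3 : y 0 (cv 2 (σ ∘ t)) = x 0 (cv 2 t) :=
          (congrArg (y 0) (cv_comp h2 σ t)).trans (hσ 0 (cv 2 t))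
        exact ⟨fun h => h3.trans h, fun h => h3.symm.trans h⟩
      · have h2 : (en (g ⟨n, ρ⟩)).1 = n := congrArg Sigma.fst (hg ⟨n, ρ⟩)
        have h3 := hσ (g ⟨n, ρ⟩ + 1) (cv _ t)
        have h4 : (cv (ar2 en (g ⟨n, ρ⟩ + 1)) (σ ∘ t)) = σ ∘ (cv (ar2 en (g ⟨n, ρ⟩ + 1)) t) :=
          cv_comp h2 _ _
        rw [h4, h3]
    funext i v
    have h3 : v = ⇑σ ∘ (⇑σ.symm ∘ v) := by ext; simp
    rw [h3, hσ]
    rw [← congrFun (congrFun hx2 i) (⇑σ.symm ∘ v)]
    rw [Bool.eq_iff_iff]
    cases i with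
    | zero => exact (toR_zero _ _).trans ((h2 r _).symm.trans (toR_zero _ _).symm)
    | succ i =>
      refine (toR_succ _ i _).trans (Iff.trans ?_ (toR_succ _ i _).symm)
      exact and_congr_right fun _ => (h2 (en i).2 _).symm
  have hsymm : ∀ x y : RS (ar2 en), H533R2.VO.RIso x y → H533R2.VO.RIso y x := by
    rintro x y ⟨σ, hσ⟩
    refine ⟨σ.symm, fun i v => ?_⟩
    have := hσ i (⇑σ.symm ∘ v)
    have h3 : ⇑σ ∘ (⇑σ.symm ∘ v) = v := by ext; simp
    rw [h3] at this
    exact this.symm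
  have hinf : InfMult 0 K := by
    intro M hM x
    obtain ⟨J, hJ, ρ, hρ, hm⟩ := hT (toS en g r M) hM.1 x
    have : Nonempty {z : ℕ // ρ z = ρ x} := ⟨⟨x, rfl⟩⟩
    obtain ⟨I, hI, P, π, hP, hπ, hinf⟩ := exists_inf_loc T _ hm
    have h0 : OSum 0 (toR en r (toS en g r M)) ρ := osum_toR hρ
    rw [hM.2] at h0
    refine ⟨J, hJ, ρ, h0, toR en r P, hmem P hP, I, hI, π, osum_toR hπ, ?_⟩
    refine hinf.mono fun q hq => ?_
    have h1 := fib_toR (en := en) (r := r) hq
    rw [hM.2] at h1
    exact h1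
  rcases borel (a := ar2 en) (ε := 0) rfl K hK
    (fun x y h => ⟨hinv' x y h, hinv' y x (hsymm x y h)⟩) hinf with ⟨f, hf⟩ | ⟨F, hF1, hF2, hF3⟩
  · left
    refine ⟨fun n => toS en g r (f n), fun S hS => ?_⟩
    obtain ⟨n, hn⟩ := hf _ (hmem S hS)
    exact ⟨n, (riso_toS_toR hg S).trans (riso_toS hg hn).symm⟩
  · right
    refine ⟨fun x => toS en g r (F x), fun x => (hF2 x).1, fun n ρ t => ?_, fun x y hxy => ?_⟩
    · have h1 : ∀ (i : ℕ) (t : Fin (ar2 en i) → ℕ), IsClopen {x | F x i t = true} := by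
        intro i t
        have h2 : Continuous fun x => F x i t :=
          (continuous_apply t).comp ((continuous_apply i).comp hF1)
        exact (isClopen_discrete {true}).preimage h2
      have e : {x | (toS en g r (F x)).RelMap ρ t} =
          ({x | (⟨n, ρ⟩ : Σ n, L.Relations n) = ⟨2, r⟩} ∩ {x | F x 0 (cv 2 t) = true}) ∪
          ({x | (⟨n, ρ⟩ : Σ n, L.Relations n) ≠ ⟨2, r⟩} ∩
            {x | F x (g ⟨n, ρ⟩ + 1) (cv _ t) = true}) := by
        ext x
        exact Iff.rfl
      rw [e]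
      have hconst : ∀ p : Prop, IsClopen {x : ℕ → Bool | p} := by
        intro p
        by_cases hp : p
        · convert isClopen_univ using 1
          ext x
          simp [hp]
        · convert isClopen_empty using 1
          ext x
          simp [hp]
      exact ((hconst _).inter (h1 _ _)).union ((hconst _).inter (h1 _ _))
    · refine hF3 x y ?_
      rw [← (hF2 x).2, ← (hF2 y).2]
      exact riso_toR hxy

end Pool.Agent.H12A.OM
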