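import Pool.Agent.H12A.OM.Fo4

set_option autoImplicit false
set_option linter.unusedSectionVars false

/-!
# Many summands with a common first-order property

If each sentence that holds in `C` holds in arbitrarily many summands of models of `T`, then some
countable model of `T` has infinitely many summands isomorphic to `C`.
-/

namespace Pool.Agent.H12A.OM

open FirstOrder FirstOrder.Language Set
open Pool.Agent.H623R2.VE (term_var RIso)

variable {L : FirstOrder.Language.{0, 0}} [L.IsRelational] {M : Type} {r : L.Relations 2}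

theorem realize_sentence_not (S : L.Structure M) (φ : L.Sentence) :
    @Sentence.Realize L M S φ.not ↔ ¬ @Sentence.Realize L M S φ := Iff.rfl

/-- Finite conjunctions. -/
def conj (e : ℕ → L.Sentence) (k : ℕ) : L.Sentence :=
  ((List.range (k + 1)).map e).foldr (· ⊓ ·) ⊤

theorem realize_conj (S : L.Structure M) (e : ℕ → L.Sentence) (k : ℕ) :
    @Sentence.Realize L M S (conj e k) ↔ ∀ j ≤ k, @Sentence.Realize L M S (e j) := by
  have h : @Sentence.Realize L M S (conj e k) ↔
      ∀ φ ∈ (List.range (k + 1)).map e, @Sentence.Realize L M S φ :=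
    Rz_foldr S ((List.range (k + 1)).map e) default
  rw [h]
  constructor
  · intro h j hj
    exact h _ (List.mem_map.2 ⟨j, List.mem_range.2 (Nat.lt_succ_of_le hj), rfl⟩)
  · intro h φ hφ
    obtain ⟨j, hj, rfl⟩ := List.mem_map.1 hφ
    exact h j (Nat.le_of_lt_succ (List.mem_range.1 hj))

/-- Each sentence that holds in `S` holds in at least `n` summands of some model of `T`, for each
number `n`. -/
def Many (r : L.Relations 2) (T : L.Theory) (S : L.Structure M) : Prop :=
  ∀ θ : L.Sentence, @Sentence.Realize L M S θ → ∀ n : ℕ,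
    ∃ (N I : Type) (_ : LinearOrder I) (P : L.Structure N) (π : N → I),
      @Theory.Model L N P T ∧ FSum r P π ∧ ∃ s : Finset I, n ≤ s.card ∧
        ∀ i ∈ s, @Sentence.Realize L _ (fibS P π i) θ

theorem exists_inf_loc [Countable L.Symbols] [Countable M] [hM : Nonempty M] (T : L.Theory)
    (S : L.Structure M) (h : Many r T S) :
    ∃ (I : Type) (_ : LinearOrder I) (P : L.Structure ℕ) (π : ℕ → I),
      @Theory.Model L ℕ P T ∧ FSum r P π ∧ {i | RIso S (fibS P π i)}.Infinite := by
  classical
  -- enumeration of the theory of `S`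
  let nonem : L.Sentence := ((BoundedFormula.falsum : L.BoundedFormula Empty 1).all).not
  have hnonem : ∀ {A : Type} (X : L.Structure A), @Sentence.Realize L A X nonem ↔ Nonempty A := by
    intro A X
    have h1 : @Sentence.Realize L A X nonem ↔ ¬ ∀ _ : A, False := Iff.rfl
    rw [h1]
    constructor
    · intro h2
      by_contra h3
      exact h2 fun x => h3 ⟨x⟩
    · rintro ⟨x⟩ h2
      exact h2 x
  have hcs : Countable L.Sentence := inferInstance
  let Th : Set L.Sentence := {θ | @Sentence.Realize L M S θ}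
  have hThne : Nonempty Th := ⟨⟨nonem, (hnonem S).2 hM⟩⟩
  obtain ⟨e0, he0⟩ := exists_surjective_nat Th
  let e : ℕ → L.Sentence := fun k => match k with
    | 0 => nonem
    | k + 1 => (e0 k).1
  have he : ∀ k, @Sentence.Realize L M S (e k) := by
    intro k
    cases k with
    | zero => exact (hnonem S).2 hM
    | succ k => exact (e0 k).2
  choose N I hI P π hP hπ s hs hsθ using fun k : ℕ =>
    h (conj e k) ((realize_conj S e k).2 fun j _ => he j) (k + 1)
  -- a common index order
  let J : Type := Σₗ k, I k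
  let g : ∀ k, I k → J := fun k i => toLex ⟨k, i⟩
  have hglt : ∀ k (i j : I k), g k i < g k j → i < j := by
    intro k i j hij
    rcases Sigma.Lex.lt_def.1 hij with h1 | ⟨h1, h2⟩
    · exact absurd h1 (lt_irrefl _)
    · exact h2
  have hginj : ∀ k, Function.Injective (g k) := by
    intro k i j hij
    have h1 : (⟨k, i⟩ : Σ k, I k) = ⟨k, j⟩ := toLex.injective hij
    exact eq_of_heq (Sigma.ext_iff.1 h1).2
  -- points of the summands
  have hne : ∀ k, ∀ i ∈ s k, Nonempty {z : N k // π k z = i} := by
    intro k i hi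
    exact (hnonem _).1 ((realize_conj _ e k).1 (hsθ k i hi) 0 (Nat.zero_le k))
  have hsel : ∀ k, ∃ f : ℕ → I k, (∀ j, f j ∈ s k) ∧ ∀ i j, i ≤ k → j ≤ k → f i = f j → i = j := by
    intro n
    obtain ⟨g⟩ : Nonempty (Fin (n + 1) ↪ s n) := by
      have : Fintype.card (Fin (n + 1)) ≤ Fintype.card (s n) := by simpa using hs n
      exact Function.Embedding.nonempty_of_card_le this
    refine ⟨fun j => if hj : j < n + 1 then (g ⟨j, hj⟩).1 else (g ⟨0, Nat.succ_pos n⟩).1,
      fun j => ?_, fun i j hi hj hij => ?_⟩
    · dsimp only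
      split_ifs
      · exact (g _).2
      · exact (g _).2
    · have hi' : i < n + 1 := Nat.lt_succ_of_le hi
      have hj' : j < n + 1 := Nat.lt_succ_of_le hj
      simp only [dif_pos hi', dif_pos hj'] at hij
      exact congrArg Fin.val (g.injective (Subtype.ext hij))
  choose f hf1 hf2 using hsel
  have hneN : ∀ k, Nonempty (N k) := fun k => by
    obtain ⟨z⟩ := hne k _ (hf1 k 0)
    exact ⟨z.1⟩
  -- the ultraproduct
  let u : Ultrafilter ℕ := Filter.hyperfilter ℕ
  let NU : Type := (u : Filter ℕ).Product N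
  let _ := P
  let PU : L.Structure NU := Ultraproduct.structure
  have hsentU : ∀ φ : L.Sentence, @Sentence.Realize _ NU PU φ ↔
      ∀ᶠ k in (u : Filter ℕ), @Sentence.Realize _ (N k) (P k) φ := fun φ =>
    Ultraproduct.sentence_realize (M := N) (u := u) φ
  let πU : NU → Filter.Germ (u : Filter ℕ) J := Quotient.map' (fun x k => g k (π k (x k)))
    (fun x y hxy => by
      refine Filter.Eventually.mono (show ∀ᶠ k in (u : Filter ℕ), x k = y k from hxy) fun k hk => ?_
      simp only [hk])
  obtain ⟨mk, hpoint, hmk, hrelU, hπU⟩ : ∃ mk : (∀ k, N k) → NU, (∀ c, ∃ x, mk x = c) ∧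
      (∀ x y, mk x = mk y ↔ ∀ᶠ k in (u : Filter ℕ), x k = y k) ∧
      (∀ {n : ℕ} (R : L.Relations n) (t : Fin n → ∀ k, N k),
        PU.RelMap R (fun j => mk (t j)) ↔
          ∀ᶠ k in (u : Filter ℕ), (P k).RelMap R (fun j => t j k)) ∧
      ∀ x, πU (mk x) = ((fun k => g k (π k (x k)) : ℕ → J) : Filter.Germ (u : Filter ℕ) J) := by
    refine ⟨fun x => Quotient.mk _ x, fun c => Quotient.exists_rep c, fun x y => Quotient.eq,
      fun {n} R t => ?_, fun x => rfl⟩
    exact relMap_quotient_mk' (((u : Filter ℕ)).productSetoid N) R t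
  have hPU : FSum r PU πU := by
    refine ⟨fun x y hxy => ?_, fun n R hR t ht j k => ?_⟩
    · obtain ⟨x, rfl⟩ := hpoint x
      obtain ⟨y, rfl⟩ := hpoint y
      rw [hπU, hπU, Filter.Germ.coe_lt] at hxy
      have e : ∀ x y : ∀ k, N k, ![mk x, mk y] = fun j => mk ((![x, y] : Fin 2 → ∀ k, N k) j) := by
        intro x y
        rw [comp_vec2 mk]
      rw [e, e, hrelU, hrelU]
      constructor
      · refine hxy.mono fun k hk => ?_
        rw [comp_vec2 (fun z : ∀ k, N k => z k)]
        exact ((hπ k).lt _ _ (hglt k _ _ hk)).1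
      · intro h1
        obtain ⟨k, h2, h3⟩ := (hxy.and h1).exists
        rw [comp_vec2 (fun z : ∀ k, N k => z k)] at h3
        exact ((hπ k).lt _ _ (hglt k _ _ h2)).2 h3
    · choose x hx using fun j => hpoint (t j)
      have e : t = fun j => mk (x j) := funext fun j => (hx j).symm
      rw [e, hrelU] at ht
      rw [← hx, ← hx, hπU, hπU, Filter.Germ.coe_eq]
      exact ht.mono fun k' hk' => congrArg (g k') ((hπ k').loc n R hR _ hk' j k)
  have hTU : @Theory.Model L _ PU T := by
    refine @Theory.Model.mk L _ PU T fun φ hφ => ?_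
    rw [hsentU]
    exact Filter.Eventually.of_forall fun k =>
      @Theory.Model.realize_of_mem L _ (P k) T (hP k) φ hφ
  -- the fibres of the ultraproduct
  let q : ℕ → Filter.Germ (u : Filter ℕ) J := fun j =>
    ((fun k => g k (f k j) : ℕ → J) : Filter.Germ (u : Filter ℕ) J)
  have hfib : ∀ j, EE S (fibS PU πU (q j)) := by
    intro j
    let F : ℕ → Type := fun k => {z : N k // π k z = f k j}
    have hneF : ∀ k, Nonempty (F k) := fun k => hne k _ (hf1 k j)
    let _ : ∀ k, L.Structure (F k) := fun k => fibS (P k) (π k) (f k j)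
    let FU : Type := (u : Filter ℕ).Product F
    let XU : L.Structure FU := Ultraproduct.structure
    have hsentF : ∀ φ : L.Sentence, @Sentence.Realize _ FU XU φ ↔
        ∀ᶠ k in (u : Filter ℕ), @Sentence.Realize _ (F k) (fibS (P k) (π k) (f k j)) φ := fun φ =>
      Ultraproduct.sentence_realize (M := F) (u := u) φ
    obtain ⟨mkF, hpointF, hmkF, hrelF⟩ : ∃ mkF : (∀ k, F k) → FU, (∀ c, ∃ x, mkF x = c) ∧
        (∀ x y, mkF x = mkF y ↔ ∀ᶠ k in (u : Filter ℕ), x k = y k) ∧
        (∀ {n : ℕ} (R : L.Relations n) (t : Fin n → ∀ k, F k),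
          XU.RelMap R (fun j => mkF (t j)) ↔
            ∀ᶠ k in (u : Filter ℕ), (P k).RelMap R (fun j => (t j k).1)) := by
      refine ⟨fun x => Quotient.mk _ x, fun c => Quotient.exists_rep c, fun x y => Quotient.eq,
        fun {n} R t => ?_⟩
      exact relMap_quotient_mk' (((u : Filter ℕ)).productSetoid F) R t
    have hEF : EE (fibS PU πU (q j)) XU := by
      -- the isomorphism
      have hrep : ∀ c : {z : NU // πU z = q j}, ∃ x : ∀ k, F k, mk (fun k => (x k).1) = c.1 := by
        rintro ⟨c, hc⟩
        obtain ⟨x, rfl⟩ := hpoint c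
        rw [hπU] at hc
        have h1 : ∀ᶠ k in (u : Filter ℕ), g k (π k (x k)) = g k (f k j) := Filter.Germ.coe_eq.1 hc
        refine ⟨fun k => if hk : π k (x k) = f k j then ⟨x k, hk⟩ else (hneF k).some, ?_⟩
        rw [hmk]
        refine h1.mono fun k hk => ?_
        have h2 := hginj k hk
        simp only [dif_pos h2]
      choose x hx using hrep
      have hback : ∀ y : ∀ k, F k, πU (mk (fun k => (y k).1)) = q j := by
        intro y
        rw [hπU]
        refine congrArg _ ?_
        funext k
        rw [(y k).2]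
      have hinj : ∀ y y' : ∀ k, F k, mk (fun k => (y k).1) = mk (fun k => (y' k).1) →
          mkF y = mkF y' := by
        intro y y' h1
        rw [hmk] at h1
        rw [hmkF]
        exact h1.mono fun k hk => Subtype.ext hk
      choose rF hrF using hpointF
      refine EE.of_riso ⟨⟨fun c => mkF (x c), fun d => ⟨mk (fun k => (rF d k).1), hback _⟩,
        fun c => ?_, fun d => ?_⟩, fun {n} R t => ?_⟩
      · refine Subtype.ext ?_
        have h1 : mkF (rF (mkF (x c))) = mkF (x c) := hrF _
        rw [hmkF] at h1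
        show mk (fun k => (rF (mkF (x c)) k).1) = c.1
        rw [← hx c, hmk]
        exact h1.mono fun k hk => congrArg Subtype.val hk
      · have h1 : mk (fun k => (x ⟨mk (fun k => (rF d k).1), hback _⟩ k).1) =
            mk (fun k => (rF d k).1) := hx ⟨mk (fun k => (rF d k).1), hback _⟩
        exact (hinj _ _ h1).trans (hrF d)
      · show PU.RelMap R (fun k => (t k).1) ↔ XU.RelMap R (fun k => mkF (x (t k)))
        have e1 : (fun k => (t k).1) = fun k => mk (fun l => (x (t k) l).1) :=
          funext fun k => (hx (t k)).symm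
        rw [e1, hrelU, hrelF]
    have hES : EE S XU := by
      have h1 : ∀ φ, @Sentence.Realize L M S φ → @Sentence.Realize L FU XU φ := by
        intro φ hφ
        obtain ⟨k0, hk0⟩ := he0 ⟨φ, hφ⟩
        rw [hsentF]
        have h2 : ∀ᶠ k in (u : Filter ℕ), k0 + 1 ≤ k := by
          have h3 : (u : Filter ℕ) ≤ Filter.atTop := by
            rw [← Nat.cofinite_eq_atTop]
            exact Filter.hyperfilter_le_cofinite
          exact h3 (Filter.eventually_ge_atTop (k0 + 1))
        refine h2.mono fun k hk => ?_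
        have h3 := (realize_conj _ e k).1 (hsθ k _ (hf1 k j)) (k0 + 1) hk
        have h4 : e (k0 + 1) = φ := congrArg Subtype.val hk0
        rwa [h4] at h3
      intro φ
      refine ⟨h1 φ, fun h2 => ?_⟩
      by_contra h3
      exact h1 φ.not h3 h2
    exact hES.trans hEF.symm
  have hqinj : Function.Injective q := by
    intro i j hij
    have h1 : ∀ᶠ k in (u : Filter ℕ), g k (f k i) = g k (f k j) := Filter.Germ.coe_eq.1 hij
    have h2 : ∀ᶠ k in (u : Filter ℕ), max i j ≤ k := by
      have h3 : (u : Filter ℕ) ≤ Filter.atTop := by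
        rw [← Nat.cofinite_eq_atTop]
        exact Filter.hyperfilter_le_cofinite
      exact h3 (Filter.eventually_ge_atTop (max i j))
    obtain ⟨k, h3, h4⟩ := (h1.and h2).exists
    exact hf2 k i j ((le_max_left _ _).trans h4) ((le_max_right _ _).trans h4) (hginj k h3)
  obtain ⟨P', π', hT', hP', hF⟩ := cnt T S PU hTU hPU (range q) (countable_range q)
    ⟨q 0, 0, rfl⟩ (Or.inr (Set.infinite_range_of_injective hqinj))
    (by rintro i ⟨j, rfl⟩; exact hfib j)
  exact ⟨_, inferInstance, P', π', hT', hP',
    (Set.infinite_range_of_injective hqinj).mono fun i hi => hF i hi⟩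

end Pool.Agent.H12A.OM
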